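import Pool.Agent.Lib.MP_776403_ag.SD.J.Spec
import Pool.Agent.Lib.MP_776403_ag.SD.Bas

/-!
# THEOREM SD, stage 2, (GL2): injectivity, constancy of the colength
-/

set_option autoImplicit false

open MvPolynomial

noncomputable section

namespace Pool.Agent.Lib.MP_776403_ag.SD

namespace JInjAux

variable {N : ℕ}

/-- The zero set of a homogeneous ideal is a cone. -/
theorem zer_smul {J : Ideal (Sx N)} (hJ : IsHom J) {z : Vx N} (hz : z ∈ zer J) (r : ℂ) :
    r • z ∈ zer J := by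
  intro F hF
  rw [← sum_homogeneousComponent F, map_sum]
  refine Finset.sum_eq_zero fun m _ => ?_
  rw [eval_smul_form (homogeneousComponent_isHomogeneous m F), hz _ (hJ F hF m), mul_zero]

/-- Vertex translation to `λ = 0`. -/
theorem zer_proj {J : Ideal (Sx N)} {a x : Vx N} (hax : ∑ i, a i * x i = 1) (hJ : Vtx J x)
    {z : Vx N} (hz : z ∈ zer J) : z - (∑ i, a i * z i) • x ∈ zer J ∧
      ∑ i, a i * (z - (∑ i, a i * z i) • x) i = 0 := by
  constructor
  · have := hJ z hz (-(∑ i, a i * z i))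
    rwa [neg_smul, ← sub_eq_add_neg] at this
  · simp only [Pi.sub_apply, Pi.smul_apply, smul_eq_mul, mul_sub, Finset.sum_sub_distrib]
    have : ∀ i, a i * ((∑ i, a i * z i) * x i) = (∑ i, a i * z i) * (a i * x i) := fun i => by ring
    rw [Finset.sum_congr rfl fun i _ => this i, ← Finset.mul_sum, hax, mul_one, sub_self]

/-- The ideal on the line. -/
theorem gen (hPid : S_JPid) {A : Ideal (Sx N)} {D : Sx N} {g : ℕ} (hDA : D ∈ A)
    (hDh : D.IsHomogeneous g) {x : Vx N} (hDx : eval x D ≠ 0) (z : Vx N) :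
    ∃ w : Polynomial ℂ, w.Monic ∧ A.map (lin z x) = Ideal.span {w} ∧ col A x z = w.natDegree ∧
      w.natDegree ≤ g := by
  have hDg : (lin z x D).coeff g = eval x D := lin_coeff_top hDh z x
  have hD0 : lin z x D ≠ 0 := by
    intro h
    rw [h, Polynomial.coeff_zero] at hDg
    exact hDx hDg.symm
  have hDm := Ideal.mem_map_of_mem (lin z x) hDA
  have hA0 : A.map (lin z x) ≠ ⊥ := by
    intro h
    rw [h, Ideal.mem_bot] at hDm
    exact hD0 hDm
  obtain ⟨w, hwm, hwA, hwd⟩ := hPid _ hA0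
  refine ⟨w, hwm, hwA, hwd, ?_⟩
  rw [hwA, Ideal.mem_span_singleton] at hDm
  refine (Polynomial.natDegree_le_of_dvd hDm hD0).trans ?_
  have := lin_mem hDh z x
  rw [Polynomial.mem_degreeLT] at this
  have h2 := (Polynomial.natDegree_lt_iff_degree_lt hD0).mpr this
  omega

end JInjAux

open JInjAux in
/-- Injectivity. -/
theorem jInj : S_JPid → S_Null → S_JDec → S_JInj := by
  intro hPid hNull hDec N a x hax J A hJp hJh hJv D g hDA hDh hDx hex δ hδ F hFA hFL
  obtain ⟨h1, -, h3, -, h5, h6, -, -, -⟩ := hDec N a x hax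
  have key : ∀ z ∈ zer J, z ≠ 0 → ∑ i, a i * z i = 0 → ∀ j, eval z ((dcp a x F).coeff j) = 0 := by
    intro z hz hz0 hzl j
    obtain ⟨w, -, hwA, hwd, -⟩ := gen hPid hDA hDh hDx z
    have e0 : ∀ i, (lin z x F).coeff i = eval z ((dcp a x F).coeff i) := by
      intro i
      rw [← h6 z hzl, Polynomial.coeff_map]
    have e1 : lin z x F = 0 := by
      by_contra hne
      have e2 := Ideal.mem_map_of_mem (lin z x) hFA
      rw [hwA, Ideal.mem_span_singleton] at e2
      have e3 := Polynomial.natDegree_le_of_dvd e2 hne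
      have e4 := hδ z hz hz0 hzl
      rw [hwd] at e4
      have e5 := e0 (lin z x F).natDegree
      rw [hFL _ (e4.trans e3), map_zero, Polynomial.coeff_natDegree,
        Polynomial.leadingCoeff_eq_zero] at e5
      exact hne e5
    rw [← e0, e1, Polynomial.coeff_zero]
  have hC : ∀ j, (dcp a x F).coeff j ∈ J := by
    intro j
    refine (hNull N J hJp hJh).1 _ fun z hz => ?_
    obtain ⟨hz1, hz2⟩ := zer_proj hax hJv hz
    rw [← h3, h5]
    by_cases h0 : z - (∑ i, a i * z i) • x = 0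
    · rw [h0]
      obtain ⟨z1, hz1J, hz10, hz1l⟩ := hex
      set p := lin 0 z1 ((dcp a x F).coeff j) with hp
      have e1 : ∀ ε : ℂ, ε ≠ 0 → p.eval ε = 0 := by
        intro ε hε
        rw [hp, lin_eval, zero_add]
        refine key _ (zer_smul hJh hz1J ε) (smul_ne_zero hε hz10) ?_ j
        have : ∀ i, a i * (ε • z1) i = ε * (a i * z1 i) := fun i => by
          rw [Pi.smul_apply, smul_eq_mul]; ring
        rw [Finset.sum_congr rfl fun i _ => this i, ← Finset.mul_sum, hz1l, mul_zero]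
      have e2 : Polynomial.X * p = 0 := by
        refine poly_ext fun t => ?_
        rw [Polynomial.eval_mul, Polynomial.eval_X, Polynomial.eval_zero]
        by_cases ht : t = 0
        · rw [ht, zero_mul]
        · rw [e1 t ht, mul_zero]
      have e3 : p = 0 := (mul_eq_zero.mp e2).resolve_left Polynomial.X_ne_zero
      have e4 := lin_eval 0 z1 ((dcp a x F).coeff j) 0
      rw [zero_smul, add_zero, ← hp, e3, Polynomial.eval_zero] at e4
      exact e4.symm
    · exact key _ hz1 h0 hz2 j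
  rw [← h1 F, Polynomial.eval_eq_sum_range]
  exact J.sum_mem fun j _ => J.mul_mem_right _ (hC j)

open JInjAux in
/-- The colength is constant. -/
theorem jCst : S_JPid → S_Null → S_JDec → S_JCr → S_JCst := by
  intro hPid hNull hDec hCr N a x hax J A A' hJp hJh hJv D g hDA hDA' hDh hDx hg z₁ hz₁ hz₁0 hz₁l
    z₂ hz₂ hz₂0 hz₂l
  obtain ⟨-, -, -, -, h5, h6, -, -, -⟩ := hDec N a x hax
  obtain ⟨Q₁, hQ₁, hG₁⟩ := hCr N a x hax A D g hDA hDh hDx z₁ hz₁0 hz₁l
  obtain ⟨Q₂, hQ₂, hG₂⟩ := hCr N a x hax A' D g hDA' hDh hDx z₂ hz₂0 hz₂l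
  obtain ⟨i, hi⟩ : ∃ i, z₁ i ≠ 0 := by
    by_contra h
    push Not at h
    exact hz₁0 (funext h)
  have hprj : ∀ (Q : Sx N) (z : Vx N), z ∈ zer J → ∑ i, a i * z i = 0 → eval z Q ≠ 0 →
      prj a x Q ∉ J := by
    intro Q z hz hzl hQ hmem
    have := hz _ hmem
    rw [h5, hzl, zero_smul, sub_zero] at this
    exact hQ this
  have hm1 := hprj Q₁ z₁ hz₁ hz₁l hQ₁
  have hm2 := hprj Q₂ z₂ hz₂ hz₂l hQ₂
  have hm3 := hprj (X i) z₁ hz₁ hz₁l (by rw [eval_X]; exact hi)
  have hm : prj a x Q₁ * prj a x Q₂ * prj a x (X i) ∉ J := fun h =>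
    (hJp.mem_or_mem h).elim (fun h => (hJp.mem_or_mem h).elim hm1 hm2) hm3
  obtain ⟨z, hz, hzne⟩ : ∃ z ∈ zer J, eval z (prj a x Q₁ * prj a x Q₂ * prj a x (X i)) ≠ 0 := by
    by_contra h
    push Not at h
    exact hm ((hNull N J hJp hJh).1 _ h)
  obtain ⟨hz3, hz3l⟩ := zer_proj hax hJv hz
  set z₃ := z - (∑ i, a i * z i) • x with hz₃
  rw [map_mul, map_mul, h5, h5, h5, ← hz₃] at hzne
  have hne1 : eval z₃ Q₁ ≠ 0 := fun h => hzne (by rw [h, zero_mul, zero_mul])
  have hne2 : eval z₃ Q₂ ≠ 0 := fun h => hzne (by rw [h, mul_zero, zero_mul])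
  have hne3 : z₃ ≠ 0 := by
    intro h
    apply hzne
    rw [eval_X, h]
    simp
  -- semicontinuity
  have sem : ∀ (B : Ideal (Sx N)) (Q : Sx N) (y : Vx N), D ∈ B → eval z₃ Q ≠ 0 →
      (∀ j, col B x y ≤ j → j < g → ∃ G ∈ B, ∀ i, col B x y ≤ i →
        (dcp a x G).coeff i = if i = j then prj a x Q else 0) → col B x z₃ ≤ col B x y := by
    intro B Q y hDB hQ hG
    obtain ⟨w, -, hwA, hwd, hwg⟩ := gen hPid hDB hDh hDx z₃
    by_contra hlt
    push Not at hlt
    rw [hwd] at hlt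
    obtain ⟨G, hGB, hGc⟩ := hG (w.natDegree - 1) (by omega) (by omega)
    have e0 : ∀ i, (lin z₃ x G).coeff i = eval z₃ ((dcp a x G).coeff i) := by
      intro i
      rw [← h6 z₃ hz3l, Polynomial.coeff_map]
    have e1 : (lin z₃ x G).coeff (w.natDegree - 1) ≠ 0 := by
      rw [e0, hGc _ (by omega), if_pos rfl, h5, hz3l, zero_smul, sub_zero]
      exact hQ
    have e2 : lin z₃ x G ≠ 0 := by
      intro h
      rw [h, Polynomial.coeff_zero] at e1
      exact e1 rfl
    have e3 := Ideal.mem_map_of_mem (lin z₃ x) hGB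
    rw [hwA, Ideal.mem_span_singleton] at e3
    have e4 := Polynomial.natDegree_le_of_dvd e3 e2
    have e5 := e0 (lin z₃ x G).natDegree
    rw [hGc _ (by omega), if_neg (by omega), map_zero, Polynomial.coeff_natDegree,
      Polynomial.leadingCoeff_eq_zero] at e5
    exact e2 e5
  have s1 := sem A Q₁ z₁ hDA hne1 hG₁
  have s2 := sem A' Q₂ z₂ hDA' hne2 hG₂
  have g3 := hg z₃ hz3 hne3 hz3l
  have g2 := hg z₂ hz₂ hz₂0 hz₂l
  omega

end Pool.Agent.Lib.MP_776403_ag.SD
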