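import Pool.Agent.Lib.MP_776403_ag.SD.J.Lam
import Pool.Agent.Lib.MP_776403_ag.SD.J.Inj
import Pool.Agent.Lib.MP_776403_ag.SD.E.Col

/-!
# THEOREM SD, stage 2, (GL2): the degree of the conormal bundle on the lines of a cone, assembly
-/

set_option autoImplicit false

open MvPolynomial

noncomputable section

namespace Pool.Agent.Lib.MP_776403_ag.SD

/-- (GL2) for a cone of lines with vertex `x` and a number `b`: the only numerical hypothesis is about
`Λ^c N_X^*` on the cone. -/
def S_JVb : Prop :=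
  ∀ (N c b : ℕ) (I P : Ideal (Sx N)) (x : Vx N), 1 ≤ c → I.IsPrime → IsHom I →
    Smooth I c → P.IsPrime → IsHom P → I ≤ P → x ∈ zer I → x ≠ 0 →
    (∀ v ∈ zer P, ∀ s : ℂ, v + s • x ∈ zer P) →
    (∀ v ∈ zer P, ∀ s t : ℂ, s • x + t • v ∈ zer I) → DimGe P (c + 2) →
    Gw (c - 1) (fun m => (Module.finrank ℂ (Lam I P c m) : ℤ) -
      (Module.finrank ℂ (gr P (m - b)) : ℤ)) →
    ∀ v ∈ zer P, LinearIndependent ℂ ![x, v] → ∀ᶠ m : ℕ in Filter.atTop,
      Module.finrank ℂ (Lam I (lineI x v) 1 m) + b = c * (m + 1)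

/-- (GL2) for a cone of lines with vertex `x` (this is `S_GL2` of `SD/Z/Spec.lean`). -/
def S_JV : Prop :=
  ∀ (N c : ℕ) (d : Fin c → ℕ) (I P : Ideal (Sx N)) (x : Vx N), 1 ≤ c → I.IsPrime → IsHom I →
    Smooth I c → P.IsPrime → IsHom P → I ≤ P → x ∈ zer I → x ≠ 0 →
    (∀ v ∈ zer P, ∀ s : ℂ, v + s • x ∈ zer P) →
    (∀ v ∈ zer P, ∀ s t : ℂ, s • x + t • v ∈ zer I) → DimGe P (c + 2) → NumErr I P d c →
    ∀ v ∈ zer P, LinearIndependent ℂ ![x, v] → ∀ᶠ m : ℕ in Filter.atTop,
      Module.finrank ℂ (Lam I (lineI x v) 1 m) + ∑ i, d i = c * (m + 1)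

namespace JAsmAux

variable {N : ℕ}

open JLamAux

/-- A homogeneous polynomial has homogeneous components in every ideal that contains it. -/
theorem comp_mem {A : Ideal (Sx N)} {F : Sx N} {n : ℕ} (hF : F.IsHomogeneous n) (hFA : F ∈ A)
    (m : ℕ) : homogeneousComponent m F ∈ A := by
  rw [homogeneousComponent_of_mem hF]
  split_ifs
  · exact hFA
  · exact A.zero_mem

theorem idB_hom {c : ℕ} {I J : Ideal (Sx N)} (hI : IsHom I) (hJ : IsHom J)
    (B : Fin c → Fin (N + 1)) : IsHom (idB I J B) := by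
  intro F hF m
  obtain ⟨j, hj, G, hG, rfl⟩ := Submodule.mem_sup.mp hF
  rw [map_add]
  refine Ideal.add_mem _ (Ideal.mem_sup_left (hJ j hj m)) ?_
  have h1 := span_le_TT hI B G hG
  refine Submodule.span_induction (p := fun G _ => homogeneousComponent m G ∈ idB I J B)
    ?_ ?_ ?_ ?_ h1
  · rintro G ⟨a, e, F', f, ha, hF', rfl⟩
    refine comp_mem (ha.mul (mnr_hom F' f (fun i => (hF' i).2) B)) ?_ m
    exact Ideal.mem_sup_right (Ideal.mul_mem_left _ _
      (Ideal.subset_span ⟨F', fun i => (hF' i).1, rfl⟩))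
  · rw [map_zero]
    exact Ideal.zero_mem _
  · intro G G' _ _ h h'
    rw [map_add]
    exact Ideal.add_mem _ h h'
  · intro r G _ h
    rw [map_smul, MvPolynomial.smul_eq_C_mul]
    exact Ideal.mul_mem_left _ _ h

theorem eval_zero_mem {J : Ideal (Sx N)} (hJ : IsHom J) {v : Vx N} (hv : v ∈ zer J) :
    (0 : Vx N) ∈ zer J := by
  have := JInjAux.zer_smul hJ hv 0
  rwa [zero_smul] at this

/-- The Fitting ideal is the restriction of the ideal of the minors. -/
theorem fit_eq {I J : Ideal (Sx N)} {x : Vx N} {c : ℕ} (L : Loc I x c) (v : Vx N)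
    (hline : ∀ s t : ℂ, s • x + t • v ∈ zer J) :
    Ideal.span {p : Polynomial ℂ | ∃ e : Fin c → (Fin c → Polynomial ℂ),
      (∀ i, e i ∈ {e | ∃ F ∈ I, e = fun b => lin x v (pderiv (L.B b) F)}) ∧
        p = Matrix.det (Matrix.of e)} = (idB I J L.B).map (lin x v) := by
  have hdet : ∀ F : Fin c → Sx N, lin x v (mnr F L.B) =
      Matrix.det (Matrix.of fun i b => lin x v (pderiv (L.B b) (F i))) := by
    intro F
    unfold mnr
    rw [AlgHom.map_det]
    rfl
  apply le_antisymm
  · refine Ideal.span_le.mpr ?_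
    rintro p ⟨e, he, rfl⟩
    choose F hF hFe using he
    have h1 : Matrix.det (Matrix.of e) = lin x v (mnr F L.B) := by
      rw [hdet]
      congr 1
      ext1 i b
      rw [Matrix.of_apply, Matrix.of_apply, hFe i]
    rw [h1]
    exact Ideal.mem_map_of_mem _ (Ideal.mem_sup_right (Ideal.subset_span ⟨F, hF, rfl⟩))
  · refine Ideal.map_le_iff_le_comap.mpr (sup_le ?_ (Ideal.span_le.mpr ?_))
    · intro F hF
      rw [Ideal.mem_comap]
      have h1 : lin x v F = 0 := by
        refine poly_ext fun t => ?_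
        rw [lin_eval, Polynomial.eval_zero]
        have := hline 1 t F hF
        rwa [one_smul] at this
      rw [h1]
      exact Ideal.zero_mem _
    · rintro G ⟨F, hF, rfl⟩
      rw [SetLike.mem_coe, Ideal.mem_comap, hdet]
      exact Ideal.subset_span ⟨fun i b => lin x v (pderiv (L.B b) (F i)),
        fun i => ⟨F i, hF i, rfl⟩, rfl⟩

theorem lineI_add (x v : Vx N) (μ : ℂ) : lineI x (v + μ • x) = lineI x v := by
  ext F
  constructor
  · intro h s t
    have := h (s - t * μ) t
    have e : (s - t * μ) • x + t • (v + μ • x) = s • x + t • v := by module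
    rwa [e] at this
  · intro h s t
    have := h (s + t * μ) t
    have e : (s + t * μ) • x + t • v = s • x + t • (v + μ • x) := by module
    rwa [e] at this

end JAsmAux

open JAsmAux in
/-- (GL2) with a number. -/
theorem jVb : S_Loc → S_Good → S_Hom → S_D1 → S_JLin → S_JCst → S_JBig → S_JInj → S_JHF →
    S_JLam → S_JNum → S_JFit → S_JRev → S_JTr → S_JSur → S_JVb := by
  intro hLoc hGood hHom hD1 hLin hCst hBig hInj hHF hLam hNum hFit hRev hTr hSur N c b I J x hc
    hI hIh hS hJ hJh hIJ hxI hx0 hJv hline hdim hnumc v hv hind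
  obtain ⟨i0, hi0⟩ : ∃ i, x i ≠ 0 := by
    by_contra h
    push Not at h
    exact hx0 (funext h)
  obtain ⟨a, hax⟩ : ∃ a : Vx N, ∑ i, a i * x i = 1 := by
    refine ⟨Pi.single i0 (x i0)⁻¹, ?_⟩
    rw [Finset.sum_eq_single i0]
    · rw [Pi.single_eq_same, inv_mul_cancel₀ hi0]
    · intro j _ hj
      rw [Pi.single_eq_of_ne hj, zero_mul]
    · intro h
      exact absurd (Finset.mem_univ i0) h
  obtain ⟨L⟩ := hLoc N c I hS x hxI hx0
  obtain ⟨μ, hμ⟩ := hGood N c I x v L
  rw [← lineI_add x v μ]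
  have hcone : ∀ z ∈ zer J, ∀ s t : ℂ, s • x + t • z ∈ zer J := by
    intro z hz s t
    have := hJv _ (JInjAux.zer_smul hJh hz t) s
    rwa [add_comm] at this
  have hxJ : x ∈ zer J := by
    have := hJv _ (eval_zero_mem hJh hv) 1
    rwa [one_smul, zero_add] at this
  set v' := v + μ • x with hv'
  have hv'J : v' ∈ zer J := hJv v hv μ
  have hind' : LinearIndependent ℂ ![x, v'] := by
    rw [LinearIndependent.pair_iff] at hind ⊢
    intro s t hst
    have e : s • x + t • v' = (s + t * μ) • x + t • v := by rw [hv']; module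
    rw [e] at hst
    obtain ⟨h1, h2⟩ := hind _ _ hst
    refine ⟨?_, h2⟩
    rw [h2, zero_mul, add_zero] at h1
    exact h1
  have hdth : L.dt.IsHomogeneous L.dg := (hHom N c I x v' L).1
  have hdtx : eval x L.dt ≠ 0 := L.detx
  set A := idB I J L.B with hA
  set A' := idF J L.F with hA'
  have hJA : J ≤ A := le_sup_left
  have hAh : IsHom A := idB_hom hIh hJh L.B
  have hDA : L.dt ∈ A := Ideal.mem_sup_right (Ideal.subset_span ⟨L.F, L.memF, rfl⟩)
  have hDA' : L.dt ∈ A' := Ideal.mem_sup_right (Ideal.subset_span ⟨L.B, rfl⟩)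
  have hindz : ∀ z : Vx N, z ≠ 0 → ∑ i, a i * z i = 0 → LinearIndependent ℂ ![x, z] := by
    intro z hz0 hzl
    rw [LinearIndependent.pair_iff]
    intro s t hst
    have h1 : ∑ i, a i * (s • x + t • z) i = s := by
      have : ∀ i, a i * (s • x + t • z) i = s * (a i * x i) + t * (a i * z i) := fun i => by
        rw [Pi.add_apply, Pi.smul_apply, Pi.smul_apply, smul_eq_mul, smul_eq_mul]; ring
      rw [Finset.sum_congr rfl fun i _ => this i, Finset.sum_add_distrib, ← Finset.mul_sum,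
        ← Finset.mul_sum, hax, hzl, mul_one, mul_zero, add_zero]
    rw [hst] at h1
    have h2 : s = 0 := by
      rw [← h1]
      exact Finset.sum_eq_zero fun i _ => by rw [Pi.zero_apply, mul_zero]
    rw [h2, zero_smul, zero_add] at hst
    exact ⟨h2, (smul_eq_zero.mp hst).resolve_right hz0⟩
  have hsum : ∀ z ∈ zer J, z ≠ 0 → ∑ i, a i * z i = 0 → col A x z + col A' x z = L.dg :=
    fun z hz hz0 hzl => hLin N c I J hI hIh hS hIJ x z (hindz z hz0 hzl) (hcone z hz) L
  -- the point `v₀`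
  obtain ⟨hv0J, hv0l⟩ := JInjAux.zer_proj hax hJv hv'J
  set v0 := v' - (∑ i, a i * v' i) • x with hv0
  have hv00 : v0 ≠ 0 := by
    intro h
    rw [LinearIndependent.pair_iff] at hind'
    have := hind' (-(∑ i, a i * v' i)) 1 (by
      rw [← h, hv0]
      module)
    exact one_ne_zero this.2
  set δ := col A x v0 with hδ
  have hconst : ∀ z ∈ zer J, z ≠ 0 → ∑ i, a i * z i = 0 → col A x z = δ := by
    intro z hz hz0 hzl
    exact le_antisymm
      (hCst N a x hax J A A' hJ hJh hJv L.dt L.dg hDA hDA' hdth hdtx hsum v0 hv0J hv00 hv0l z hz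
        hz0 hzl)
      (hCst N a x hax J A A' hJ hJh hJv L.dt L.dg hDA hDA' hdth hdtx hsum z hz hz0 hzl v0 hv0J
        hv00 hv0l)
  have hbig := hBig N a x hax J A hJ hJh hJv hAh hJA L.dt L.dg hDA hdth hdtx δ
    (fun z hz hz0 hzl => (hconst z hz hz0 hzl).le)
  have hinj := hInj N a x hax J A hJ hJh hJv L.dt L.dg hDA hdth hdtx ⟨v0, hv0J, hv00, hv0l⟩ δ
    (fun z hz hz0 hzl => (hconst z hz hz0 hzl).ge)
  have hHF' := hHF N a x hax J A hJ hJh hxJ hJv hJA δ hbig hinj
  have hsumd : c + δ = b := by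
    refine hNum (fun m => (Module.finrank ℂ (gr J m) : ℤ)) c δ b hc ?_ (fun m => ?_)
    · refine hnumc.of_eventually_eq ?_
      filter_upwards [Filter.eventually_ge_atTop c, (Filter.tendsto_sub_atTop_nat c).eventually hHF']
        with m hm1 hm2
      rw [hLam N c I J hI hIh hS hJ hJh hIJ x hxJ L m hm1, hm2]
    · exact_mod_cast hD1 N J (c + 1) hdim m
  -- the line
  have hD0 : lin x v' L.dt ≠ 0 := by
    intro h
    have h1 := lin_eval x v' L.dt 0
    rw [h, Polynomial.eval_zero, zero_smul, add_zero] at h1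
    exact hdtx h1.symm
  have hfit := (hFit c {e | ∃ F ∈ I, e = fun b => lin x v' (pderiv (L.B b) F)}
    (lin x v' L.dt) hD0 (ColAux.D_mul_mem L v')).2
  rw [fit_eq (J := J) L v' (hcone v' hv'J)] at hfit
  have hr1 := hRev N A hAh x v' L.dt L.dg hDA hdth hdtx
  have hr2 := hRev N A hAh v' x L.dt L.dg hDA hdth hμ
  have hcolv : Module.finrank ℂ (Polynomial ℂ ⧸ A.map (lin x v')) = δ := by
    have e1 : col A x v' = δ := by
      have e2 : v' = v0 + (∑ i, a i * v' i) • x := by rw [hv0]; module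
      rw [e2, hTr]
    have e3 : Module.finrank ℂ (Polynomial ℂ ⧸ A.map (lin v' x)) = col A x v' := rfl
    have e4 : col A v' x = Module.finrank ℂ (Polynomial ℂ ⧸ A.map (lin x v')) := rfl
    rw [e3, e4, e1] at hr2
    rw [e1] at hr1
    exact le_antisymm hr1 hr2
  have hlineI : IsLine I x v' := ⟨hind', fun s t => by
    have := hcone v' hv'J s t
    exact fun F hF => this F (hIJ hF)⟩
  filter_upwards [hSur N c I hI hIh hS x v' hlineI L hμ] with m hm
  have e5 : Module.finrank ℂ ((Fin c → Polynomial ℂ) ⧸ L.E v') = δ := by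
    rw [← hcolv, ← hfit]
    rfl
  rw [e5] at hm
  have e6 : c * (m + 1) = c * m + c := by ring
  omega

/-- (GL2). -/
theorem jV : S_JVb → S_JV := by
  intro h N c d I J x hc hI hIh hS hJ hJh hIJ hxI hx0 hJv hline hdim hnum
  refine h N c (∑ i, d i) I J x hc hI hIh hS hJ hJh hIJ hxI hx0 hJv hline hdim ?_
  refine (hnum c le_rfl).of_eventually_eq (Filter.Eventually.of_forall fun m => ?_)
  have e1 : Finset.powersetCard c (Finset.univ : Finset (Fin c)) = {Finset.univ} := by
    have := Finset.powersetCard_self (Finset.univ : Finset (Fin c))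
    rwa [Finset.card_univ, Fintype.card_fin] at this
  rw [e1, Finset.sum_singleton]

end Pool.Agent.Lib.MP_776403_ag.SD
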