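import Pool.Agent.Lib.MP_776403_ag.SD.J.Spec
import Pool.Agent.Lib.MP_776403_ag.SD.Bas

/-!
# THEOREM SD, stage 2: (G10a) the Fitting ideal of a submodule of `ℂ[T]^c`
-/

set_option autoImplicit false

open MvPolynomial

noncomputable section

namespace Pool.Agent.Lib.MP_776403_ag.SD

namespace JFitAux

/-- The ideal of the determinants. -/
def dI {c : ℕ} (𝒢 : Set (Fin c → Polynomial ℂ)) : Ideal (Polynomial ℂ) :=
  Ideal.span {p : Polynomial ℂ | ∃ e : Fin c → (Fin c → Polynomial ℂ), (∀ i, e i ∈ 𝒢) ∧
    p = Matrix.det (Matrix.of e)}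

/-- Multilinearity. -/
theorem det_mem {c : ℕ} (𝒢 : Set (Fin c → Polynomial ℂ)) (s : Finset (Fin c)) :
    ∀ e : Fin c → (Fin c → Polynomial ℂ), (∀ i ∈ s, e i ∈ Submodule.span (Polynomial ℂ) 𝒢) →
      (∀ i, i ∉ s → e i ∈ 𝒢) → Matrix.det (Matrix.of e) ∈ dI 𝒢 := by
  classical
  induction s using Finset.induction_on with
  | empty =>
    intro e _ h
    exact Ideal.subset_span ⟨e, fun i => h i (Finset.notMem_empty i), rfl⟩
  | insert i s hi ih =>
    intro e h1 h2
    have key : ∀ v ∈ Submodule.span (Polynomial ℂ) 𝒢,
        Matrix.det (Matrix.updateRow (Matrix.of e) i v) ∈ dI 𝒢 := by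
      intro v hv
      induction hv using Submodule.span_induction with
      | mem x hx =>
        refine ih (Function.update e i x) ?_ ?_
        · intro j hj
          have hji : j ≠ i := fun h => hi (h ▸ hj)
          rw [Function.update_of_ne hji]
          exact h1 j (Finset.mem_insert_of_mem hj)
        · intro j hj
          by_cases hji : j = i
          · subst hji
            rw [Function.update_self]
            exact hx
          · rw [Function.update_of_ne hji]
            refine h2 j ?_
            rw [Finset.mem_insert]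
            exact fun h => h.elim hji hj
      | zero =>
        have h0 : Matrix.det (Matrix.updateRow (Matrix.of e) i (0 : Fin c → Polynomial ℂ)) = 0 :=
          Matrix.det_eq_zero_of_row_eq_zero i fun j => by simp
        rw [h0]
        exact Submodule.zero_mem _
      | add x y _ _ hx hy =>
        rw [Matrix.det_updateRow_add]
        exact Submodule.add_mem _ hx hy
      | smul a x _ hx =>
        rw [Matrix.det_updateRow_smul]
        exact Ideal.mul_mem_left _ _ hx
    have h := key (e i) (h1 i (Finset.mem_insert_self i s))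
    have h' : Matrix.updateRow (Matrix.of e) i (e i) = Matrix.of e := by
      rw [show e i = (Matrix.of e) i from rfl, Matrix.updateRow_eq_self]
    rwa [h'] at h

theorem fin_quot {f : Polynomial ℂ} (hf : f ≠ 0) :
    Module.Finite ℂ (Polynomial ℂ ⧸ Ideal.span {f}) :=
  (AdjoinRoot.powerBasis hf).finite

end JFitAux

open JFitAux

theorem jFit : S_JPid → S_JFit := by
  intro _ c 𝒢 D hD hE
  classical
  have hrk : Module.finrank (Polynomial ℂ) (Submodule.span (Polynomial ℂ) 𝒢) =
      Module.finrank (Polynomial ℂ) (Fin c → Polynomial ℂ) := by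
    refine le_antisymm (Submodule.finrank_le _) ?_
    let f : (Fin c → Polynomial ℂ) →ₗ[Polynomial ℂ] (Submodule.span (Polynomial ℂ) 𝒢) :=
      (LinearMap.lsmul (Polynomial ℂ) (Fin c → Polynomial ℂ) D).codRestrict _ (fun e => hE e)
    refine LinearMap.finrank_le_finrank_of_injective (f := f) ?_
    intro u v huv
    have h1 : D • u = D • v := congrArg Subtype.val huv
    funext i
    have h2 : D * u i = D * v i := congrFun h1 i
    exact mul_left_cancel₀ hD h2
  have hne := Submodule.smithNormalFormCoeffs_ne_zero (Pi.basisFun (Polynomial ℂ) (Fin c)) hrk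
  have hbot := Submodule.smithNormalFormBotBasis_def (Pi.basisFun (Polynomial ℂ) (Fin c)) hrk
  have hfin : ∀ i, Module.Finite ℂ (Polynomial ℂ ⧸ Ideal.span
      {Submodule.smithNormalFormCoeffs (Pi.basisFun (Polynomial ℂ) (Fin c)) hrk i}) :=
    fun i => fin_quot (hne i)
  have hsum := Submodule.finrank_quotient_eq_sum ℂ (Pi.basisFun (Polynomial ℂ) (Fin c)) hrk
  have eqv := Submodule.quotientEquivDirectSum ℂ (Pi.basisFun (Polynomial ℂ) (Fin c)) hrk
  have hF : Module.Finite ℂ ((Fin c → Polynomial ℂ) ⧸ Submodule.span (Polynomial ℂ) 𝒢) :=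
    Module.Finite.equiv eqv.symm
  revert hne hbot hsum
  generalize Submodule.smithNormalFormCoeffs (Pi.basisFun (Polynomial ℂ) (Fin c)) hrk = a
  generalize Submodule.smithNormalFormTopBasis (Pi.basisFun (Polynomial ℂ) (Fin c)) hrk = b
  generalize Submodule.smithNormalFormBotBasis (Pi.basisFun (Polynomial ℂ) (Fin c)) hrk = ab
  intro hne hbot hsum
  refine ⟨hF, ?_⟩
  rw [hsum]
  have hu : IsUnit (Matrix.det (Matrix.of fun i => (b i))) := by
    have h1 := Module.Basis.isUnit_det (Pi.basisFun (Polynomial ℂ) (Fin c)) b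
    rw [Module.Basis.det_apply] at h1
    have h2 : (Pi.basisFun (Polynomial ℂ) (Fin c)).toMatrix b =
        (Matrix.of fun i => (b i)).transpose := by
      ext i j
      simp [Module.Basis.toMatrix_apply]
    rw [h2, Matrix.det_transpose] at h1
    exact h1
  have hI : Ideal.span {p : Polynomial ℂ | ∃ e : Fin c → (Fin c → Polynomial ℂ),
      (∀ i, e i ∈ 𝒢) ∧ p = Matrix.det (Matrix.of e)} = Ideal.span {∏ i, a i} := by
    apply le_antisymm
    · rw [Ideal.span_le]
      rintro p ⟨e, he, rfl⟩
      have h1 : ∀ i, e i ∈ Submodule.span (Polynomial ℂ) 𝒢 := fun i => Submodule.subset_span (he i)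
      have h2 : Matrix.of e = (Matrix.of fun i j => ab.repr ⟨e i, h1 i⟩ j) *
          Matrix.diagonal a * (Matrix.of fun i => (b i)) := by
        refine Matrix.ext fun i k => ?_
        have h3 := congrArg (Subtype.val) (ab.sum_repr ⟨e i, h1 i⟩)
        have h4 : ∑ j, (ab.repr ⟨e i, h1 i⟩ j) • (a j • b j) = e i := by
          refine Eq.trans ?_ h3
          rw [Submodule.coe_sum]
          refine Finset.sum_congr rfl fun j _ => ?_
          rw [Submodule.coe_smul, hbot]
        have h5 := congrFun h4 k
        rw [Matrix.of_apply, ← h5, Finset.sum_apply, Matrix.mul_apply]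
        refine Finset.sum_congr rfl fun j _ => ?_
        rw [Matrix.mul_diagonal]
        simp [mul_assoc]
      rw [SetLike.mem_coe, Ideal.mem_span_singleton, h2, Matrix.det_mul, Matrix.det_mul,
        Matrix.det_diagonal]
      exact Dvd.dvd.mul_right (Dvd.intro_left _ rfl) _
    · rw [Ideal.span_singleton_le_iff_mem]
      have h1 : Matrix.det (Matrix.of fun i => a i • b i) ∈ dI 𝒢 := by
        refine det_mem 𝒢 Finset.univ _ (fun i _ => ?_) (fun i hi => absurd (Finset.mem_univ i) hi)
        rw [← hbot]
        exact (ab i).2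
      have h2 : Matrix.det (Matrix.of fun i => a i • b i) =
          (∏ i, a i) * Matrix.det (Matrix.of fun i => (b i)) := by
        have h3 : (Matrix.of fun i => a i • b i) =
            Matrix.diagonal a * (Matrix.of fun i => (b i)) := by
          ext i k
          rw [Matrix.diagonal_mul]
          simp
        rw [h3, Matrix.det_mul, Matrix.det_diagonal]
      rw [h2] at h1
      exact (Ideal.mul_unit_mem_iff_mem _ hu).mp h1
  rw [hI, finrank_quotient_span_eq_natDegree, Polynomial.natDegree_prod _ _ fun i _ => hne i]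
  exact Finset.sum_congr rfl fun i _ => finrank_quotient_span_eq_natDegree

end Pool.Agent.Lib.MP_776403_ag.SD
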