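import Pool.Agent.Lib.MP_776403_ag.SD.J.Spec

/-!
# THEOREM SD, stage 2, (GL2): ideals of `ℂ[T]`
-/

set_option autoImplicit false

open MvPolynomial

noncomputable section

namespace Pool.Agent.Lib.MP_776403_ag.SD

/-- Colengths of ideals of `ℂ[T]`. -/
theorem jPid : S_JPid := by
  intro A hA
  obtain ⟨w, hw⟩ := (IsPrincipalIdealRing.principal A).principal
  have hw' : A = Ideal.span {w} := hw
  have hw0 : w ≠ 0 := by
    rintro rfl
    apply hA
    rw [hw']
    simp
  have hlc : w.leadingCoeff ≠ 0 := Polynomial.leadingCoeff_ne_zero.mpr hw0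
  refine ⟨w * Polynomial.C w.leadingCoeff⁻¹, Polynomial.monic_mul_leadingCoeff_inv hw0, ?_, ?_⟩
  · rw [hw']
    refine (Ideal.span_singleton_mul_right_unit ?_ w).symm
    exact Polynomial.isUnit_C.mpr (isUnit_iff_ne_zero.mpr (inv_ne_zero hlc))
  · rw [hw', finrank_quotient_span_eq_natDegree]
    rw [Polynomial.natDegree_mul_C (inv_ne_zero hlc)]

end Pool.Agent.Lib.MP_776403_ag.SD
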