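import Pool.Agent.Lib.MP_776403_ag.SD.J.Spec
import Pool.Agent.Lib.MP_776403_ag.SD.Bas
import Pool.Agent.Lib.MP_776403_ag.SD.E.Col

/-!
# THEOREM SD, stage 2, (G10d): sections on a line (helper92)
-/

set_option autoImplicit false

open MvPolynomial

noncomputable section

namespace Pool.Agent.Lib.MP_776403_ag.SD

namespace JSurAux

open ColAux

variable {N : ℕ} {I : Ideal (Sx N)} {x : Vx N} {c : ℕ}

/-- The matrix of the local equations on the line. -/
def mat (L : Loc I x c) (v : Vx N) : Matrix (Fin c) (Fin c) (Polynomial ℂ) :=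
  L.M.map (lin x v)

/-- The vector of the `B`-coordinates of the gradient of `F` on the line. -/
def vec (L : Loc I x c) (v : Vx N) (F : Sx N) : Fin c → Polynomial ℂ :=
  fun b => lin x v (pderiv (L.B b) F)

theorem mat_apply (L : Loc I x c) (v : Vx N) (i b : Fin c) :
    mat L v i b = vec L v (L.F i) b := rfl

theorem mat_det (L : Loc I x c) (v : Vx N) : (mat L v).det = lin x v L.dt := by
  rw [mat, Loc.dt, AlgHom.map_det]
  rfl

theorem mat_adj (L : Loc I x c) (v : Vx N) (b i : Fin c) :
    (mat L v).adjugate b i = lin x v (L.M.adjugate b i) := by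
  have h := AlgHom.map_adjugate (lin x v) L.M
  have h2 := congrFun (congrFun h b) i
  exact h2.symm

/-- Multiples of `D` in terms of the local equations. -/
theorem D_mul (L : Loc I x c) (v : Vx N) (e : Fin c → Polynomial ℂ) :
    lin x v L.dt • e = ∑ i, (∑ b', e b' * (mat L v).adjugate b' i) • vec L v (L.F i) := by
  classical
  funext b
  rw [Finset.sum_apply]
  have h2 : ∀ i, ((∑ b', e b' * (mat L v).adjugate b' i) • vec L v (L.F i)) b =
      ∑ b', e b' * ((mat L v).adjugate b' i * mat L v i b) := by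
    intro i
    rw [Pi.smul_apply, smul_eq_mul, Finset.sum_mul]
    exact Finset.sum_congr rfl fun b' _ => by rw [mul_assoc]; rfl
  rw [Finset.sum_congr rfl fun i _ => h2 i, Finset.sum_comm]
  have h3 : ∀ b', ∑ i, e b' * ((mat L v).adjugate b' i * mat L v i b) =
      e b' * (((mat L v).adjugate * mat L v) b' b) := by
    intro b'
    rw [Matrix.mul_apply, Finset.mul_sum]
  rw [Finset.sum_congr rfl fun b' _ => h3 b', Matrix.adjugate_mul, mat_det]
  rw [Finset.sum_eq_single b]
  · rw [Matrix.smul_apply, Matrix.one_apply_eq, smul_eq_mul, mul_one, mul_comm]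
    rfl
  · intro b' _ hb'
    rw [Matrix.smul_apply, Matrix.one_apply_ne hb', smul_zero, mul_zero]
  · intro h
    exact absurd (Finset.mem_univ b) h

/-- Cramer's rule for the coefficients. -/
theorem coef_eq (L : Loc I x c) (v : Vx N) (p : Fin c → Polynomial ℂ) (i : Fin c) :
    lin x v L.dt * p i =
      ∑ b, (∑ j, p j • vec L v (L.F j)) b * (mat L v).adjugate b i := by
  classical
  have h1 : ∀ b, (∑ j, p j • vec L v (L.F j)) b * (mat L v).adjugate b i =
      ∑ j, p j * (mat L v j b * (mat L v).adjugate b i) := by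
    intro b
    rw [Finset.sum_apply, Finset.sum_mul]
    exact Finset.sum_congr rfl fun j _ => by rw [Pi.smul_apply, smul_eq_mul, mul_assoc]; rfl
  rw [Finset.sum_congr rfl fun b _ => h1 b, Finset.sum_comm]
  have h2 : ∀ j, ∑ b, p j * (mat L v j b * (mat L v).adjugate b i) =
      p j * ((mat L v * (mat L v).adjugate) j i) := by
    intro j
    rw [Matrix.mul_apply, Finset.mul_sum]
  rw [Finset.sum_congr rfl fun j _ => h2 j, Matrix.mul_adjugate, mat_det]
  rw [Finset.sum_eq_single i]
  · rw [Matrix.smul_apply, Matrix.one_apply_eq, smul_eq_mul, mul_one, mul_comm]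
  · intro j _ hj
    rw [Matrix.smul_apply, Matrix.one_apply_ne hj, smul_zero, mul_zero]
  · intro h
    exact absurd (Finset.mem_univ i) h

/-- The degrees of the local equations are positive. -/
theorem f_pos (L : Loc I x c) (i : Fin c) : 1 ≤ L.f i := by
  by_contra h
  have h0 : L.f i = 0 := by omega
  have h1 : L.F i = C (coeff 0 (L.F i)) := by
    rw [← totalDegree_eq_zero_iff_eq_C]
    have := (L.homF i).totalDegree_le
    rw [h0] at this
    exact Nat.le_zero.mp this
  apply L.detx
  rw [Matrix.det_eq_zero_of_row_eq_zero i, map_zero]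
  intro b
  rw [Matrix.of_apply, h1, pderiv_C]

/-- Properties of the elements of `Lam`. -/
theorem lam_props (L : Loc I x c) (v : Vx N)
    (hCr : ∀ G ∈ I, ∀ j, lin x v L.dt * lin x v (pderiv j G) =
      ∑ b, lin x v (L.coef b j) * lin x v (pderiv (L.B b) G)) (m : ℕ) (hm1 : 1 ≤ m) :
    ∀ z ∈ Lam I (lineI x v) 1 m, (∀ α, z α ∈ gr (lineI x v) (m - 1)) ∧
      (∀ α, lin x v L.dt * linQ x v (z α) =
        ∑ b, lin x v (L.coef b (α 0)) * linQ x v (z fun _ => L.B b)) ∧
      phi L v z ∈ Vm c m ⊓ (L.E v).restrictScalars ℂ := by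
  intro z hz
  unfold Lam at hz
  induction hz using Submodule.span_induction with
  | mem z hz =>
    obtain ⟨a, e, F, f, ha, hF, hm, rfl⟩ := hz
    rw [Fin.sum_univ_one] at hm
    have hdet : ∀ α : Fin 1 → Fin (N + 1),
        Matrix.det (Matrix.of fun i k => pderiv (α k) (F i)) = pderiv (α 0) (F 0) := by
      intro α
      rw [Matrix.det_fin_one]
      rfl
    have hhom : ∀ j, (a * pderiv j (F 0)).IsHomogeneous (m - 1) := by
      intro j
      rcases Nat.eq_zero_or_pos (f 0) with h0 | h0
      · have h1 : F 0 = C (coeff 0 (F 0)) := by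
          rw [← totalDegree_eq_zero_iff_eq_C]
          have := (hF 0).2.totalDegree_le
          rw [h0] at this
          exact Nat.le_zero.mp this
        rw [h1, pderiv_C, mul_zero]
        exact isHomogeneous_zero _ _ _
      · have h1 := ha.mul ((hF 0).2.pderiv (i := j))
        have h2 : e + (f 0 - 1) = m - 1 := by omega
        rwa [h2] at h1
    simp only [hdet]
    refine ⟨fun α => ⟨a * pderiv (α 0) (F 0), hhom _, rfl⟩, fun α => ?_, ?_, ?_⟩
    · rw [linQ_mk, map_mul, mul_left_comm, hCr (F 0) (hF 0).1 (α 0), Finset.mul_sum]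
      refine Finset.sum_congr rfl fun b _ => ?_
      rw [linQ_mk, map_mul]
      ring
    · refine mem_Vm.2 fun b => ?_
      rw [phi_apply, linQ_mk]
      have h1 := lin_mem (hhom (L.B b)) x v
      rwa [Nat.sub_add_cancel (by omega)] at h1
    · have h1 : phi L v (fun α => Ideal.Quotient.mk (lineI x v) (a * pderiv (α 0) (F 0))) =
          lin x v a • (fun b => lin x v (pderiv (L.B b) (F 0))) := by
        funext b
        rw [phi_apply, linQ_mk, map_mul]
        rfl
      change phi L v _ ∈ L.E v
      rw [h1]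
      exact Submodule.smul_mem _ _ (Submodule.subset_span ⟨F 0, (hF 0).1, rfl⟩)
  | zero =>
    refine ⟨fun α => Submodule.zero_mem _, fun α => ?_, ?_⟩
    · simp
    · rw [map_zero]; exact Submodule.zero_mem _
  | add z z' _ _ hz hz' =>
    refine ⟨fun α => Submodule.add_mem _ (hz.1 α) (hz'.1 α), fun α => ?_, ?_⟩
    · simp only [Pi.add_apply, map_add, mul_add, Finset.sum_add_distrib, hz.2.1 α, hz'.2.1 α]
    · rw [map_add]; exact Submodule.add_mem _ hz.2.2 hz'.2.2
  | smul r z _ hz =>
    refine ⟨fun α => Submodule.smul_mem _ r (hz.1 α), fun α => ?_, ?_⟩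
    · simp only [Pi.smul_apply, map_smul, mul_smul_comm, hz.2.1 α, Finset.smul_sum]
    · rw [map_smul]; exact Submodule.smul_mem _ r hz.2.2

/-- Multiples of the gradients of forms come from `Lam`. -/
theorem img (L : Loc I x c) (v : Vx N)
    (hJs : ∀ (m : ℕ), ∀ g ∈ Polynomial.degreeLT ℂ (m + 1), ∃ F : Sx N, F.IsHomogeneous m ∧
      lin x v F = g) (m f : ℕ) (hf : f ≤ m) (F : Sx N) (hF : F ∈ I) (hFf : F.IsHomogeneous f)
    (p : Polynomial ℂ) (hp : p ∈ Polynomial.degreeLT ℂ (m - f + 1)) :
    p • vec L v F ∈ (Lam I (lineI x v) 1 m).map (phi L v) := by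
  obtain ⟨a, ha, hap⟩ := hJs (m - f) p hp
  refine ⟨fun α => Ideal.Quotient.mk (lineI x v)
    (a * Matrix.det (Matrix.of fun (i : Fin 1) (k : Fin 1) => pderiv (α k) F)), ?_, ?_⟩
  · refine Submodule.subset_span ⟨a, m - f, fun _ => F, fun _ => f, ha, fun _ => ⟨hF, hFf⟩, ?_, rfl⟩
    rw [Fin.sum_univ_one]
    omega
  · funext b
    rw [phi_apply, linQ_mk, map_mul, hap, Matrix.det_fin_one]
    rfl

/-- The module `E` is generated by the gradients of forms. -/
theorem E_le (hI : IsHom I) (L : Loc I x c) (v : Vx N) :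
    L.E v = Submodule.span (Polynomial ℂ)
      {e | ∃ F ∈ I, ∃ f : ℕ, F.IsHomogeneous f ∧ e = vec L v F} := by
  refine le_antisymm (Submodule.span_le.2 ?_) (Submodule.span_mono ?_)
  · rintro e ⟨F, hF, rfl⟩
    have h1 : (fun b => lin x v (pderiv (L.B b) F)) =
        ∑ n ∈ Finset.range (F.totalDegree + 1), vec L v (homogeneousComponent n F) := by
      funext b
      rw [Finset.sum_apply]
      conv_lhs => rw [← sum_homogeneousComponent F]
      rw [map_sum, map_sum]
      rfl
    rw [h1]
    exact Submodule.sum_mem _ fun n _ => Submodule.subset_span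
      ⟨homogeneousComponent n F, hI F hF n, n, homogeneousComponent_isHomogeneous n F, rfl⟩
  · rintro e ⟨F, hF, f, _, rfl⟩
    exact ⟨F, hF, rfl⟩

/-- Membership in `degreeLT` through `natDegree`. -/
theorem mem_LT {p : Polynomial ℂ} {n : ℕ} (h : p ≠ 0 → p.natDegree < n) :
    p ∈ Polynomial.degreeLT ℂ n := by
  rw [Polynomial.mem_degreeLT]
  by_cases h0 : p = 0
  · rw [h0, Polynomial.degree_zero]
    exact WithBot.bot_lt_coe _
  · rw [Polynomial.degree_eq_natDegree h0]
    exact_mod_cast h h0

theorem LT_nat {p : Polynomial ℂ} {n : ℕ} (hn : 1 ≤ n) (h : p ∈ Polynomial.degreeLT ℂ n) :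
    p.natDegree ≤ n - 1 := by
  rw [Polynomial.mem_degreeLT] at h
  by_cases h0 : p = 0
  · rw [h0, Polynomial.natDegree_zero]
    exact Nat.zero_le _
  · rw [Polynomial.degree_eq_natDegree h0] at h
    have : p.natDegree < n := by exact_mod_cast h
    omega

/-- Combinations of the local equations of small degree come from `Lam`. -/
theorem img2 (L : Loc I x c) (v : Vx N)
    (hJs : ∀ (m : ℕ), ∀ g ∈ Polynomial.degreeLT ℂ (m + 1), ∃ F : Sx N, F.IsHomogeneous m ∧
      lin x v F = g)
    (hD0 : lin x v L.dt ≠ 0)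
    (hadj : ∀ b i, (lin x v (L.M.adjugate b i)).natDegree ≤ L.dg - (L.f i - 1))
    (hfdg : ∀ i, L.f i - 1 ≤ L.dg) (hnat : (lin x v L.dt).natDegree = L.dg)
    (m : ℕ) (hm : L.dg + 1 ≤ m) (p : Fin c → Polynomial ℂ)
    (he : ∑ j, p j • vec L v (L.F j) ∈ Vm c m) :
    ∑ j, p j • vec L v (L.F j) ∈ (Lam I (lineI x v) 1 m).map (phi L v) := by
  refine Submodule.sum_mem _ fun i _ => ?_
  have hf1 := f_pos L i
  have hfd := hfdg i
  refine img L v hJs m (L.f i) (by omega) (L.F i) (L.memF i) (L.homF i) (p i) (mem_LT fun hpi => ?_)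
  have h1 := coef_eq L v p i
  have h2 : (lin x v L.dt * p i).natDegree ≤ (m - 1) + (L.dg - (L.f i - 1)) := by
    rw [h1]
    refine Polynomial.natDegree_sum_le_of_forall_le _ _ fun b _ => ?_
    refine le_trans Polynomial.natDegree_mul_le (Nat.add_le_add ?_ ?_)
    · exact LT_nat (by omega) (mem_Vm.1 he b)
    · rw [mat_adj]
      exact hadj b i
  rw [Polynomial.natDegree_mul hD0 hpi, hnat] at h2
  omega

end JSurAux

open ColAux JSurAux in
/-- (G10d) sections on a line. -/
theorem jSur : S_Hom → S_CrL → S_LineI → S_JSur := by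
  intro hHom hCrL hLineI N c I hIp hIh hS x v hl L hgood
  classical
  obtain ⟨hdt, -, -, hadj, hfdg, -, hnat0⟩ := hHom N c I x v L
  have hnat := hnat0 hgood
  obtain ⟨hD0, -, hCr, -⟩ := hCrL N c I x v x 0 L (by rw [zero_smul, add_zero]) hl.2
  obtain ⟨hJp, hJh, hJ1, hJs, hJd⟩ := hLineI N x v hl.1
  -- the quotient map
  set E' : Submodule ℂ (Fin c → Polynomial ℂ) := (L.E v).restrictScalars ℂ with hE'
  set q : (Fin c → Polynomial ℂ) →ₗ[ℂ] ((Fin c → Polynomial ℂ) ⧸ L.E v) :=
    (L.E v).mkQ.restrictScalars ℂ with hq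
  have hq0 : ∀ e, q e = 0 ↔ e ∈ L.E v := fun e => Submodule.Quotient.mk_eq_zero (L.E v)
  have hsurj : ∀ m, (lin x v L.dt).natDegree ≤ m → (Vm c m).map q = ⊤ := by
    intro m hm
    rw [eq_top_iff]
    rintro y -
    obtain ⟨e, rfl⟩ := Submodule.Quotient.mk_surjective _ y
    refine ⟨fun b => e b % lin x v L.dt, mem_Vm.2 fun b => ?_, ?_⟩
    · rw [Polynomial.mem_degreeLT]
      refine lt_of_lt_of_le (EuclideanDomain.mod_lt (e b) hD0) ?_
      rw [Polynomial.degree_eq_natDegree hD0]
      exact_mod_cast hm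
    · change Submodule.Quotient.mk (fun b => e b % lin x v L.dt) = Submodule.Quotient.mk e
      rw [Submodule.Quotient.eq]
      have h1 : (fun b => e b % lin x v L.dt) - e =
          fun b => lin x v L.dt * (-(e b / lin x v L.dt)) := by
        funext b
        have := EuclideanDomain.div_add_mod (e b) (lin x v L.dt)
        rw [Pi.sub_apply]
        linear_combination this
      rw [h1]
      exact D_mul_mem L v _
  -- finitely many generators
  have hfg : (L.E v).FG := IsNoetherian.noetherian _
  rw [E_le hIh L v] at hfg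
  obtain ⟨T, hT1, hT2⟩ := Submodule.fg_span_iff_fg_span_finset_subset _ |>.1 hfg
  have hT3 : ∀ g : T, ∃ (F : Sx N) (f : ℕ), F ∈ I ∧ F.IsHomogeneous f ∧ g.1 = vec L v F := by
    intro g
    obtain ⟨F, hF, f, hf, hg⟩ := hT1 g.2
    exact ⟨F, f, hF, hf, hg⟩
  choose FF ff hFF hff hgg using hT3
  refine (Filter.eventually_ge_atTop (L.dg + 1 + ∑ g : T, ff g)).mono fun m hm => ?_
  have hffm : ∀ g, ff g + L.dg + 1 ≤ m := fun g => by
    have := Finset.single_le_sum (f := ff) (fun _ _ => Nat.zero_le _) (Finset.mem_univ g)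
    omega
  have hrk := rank_null q (Vm c m) (Vm c m ⊓ E') inf_le_left
    (fun w hw hw0 => ⟨hw, (hq0 w).1 hw0⟩) (fun w hw => (hq0 w).2 hw.2)
  rw [hsurj m (by omega), finrank_top, finrank_Vm] at hrk
  have hprops := lam_props L v hCr m (by omega)
  -- the image
  have himg : (Lam I (lineI x v) 1 m).map (phi L v) = Vm c m ⊓ E' := by
    refine le_antisymm ?_ ?_
    · rintro _ ⟨z, hz, rfl⟩
      exact (hprops z hz).2.2
    · rintro e ⟨he1, he2⟩
      have he3 : e ∈ Submodule.span (Polynomial ℂ) (T : Set (Fin c → Polynomial ℂ)) := by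
        rw [← hT2, ← E_le hIh L v]
        exact he2
      obtain ⟨p, hp⟩ : ∃ p : T → Polynomial ℂ, ∑ g : T, p g • g.1 = e := by
        have h1 : e ∈ Submodule.span (Polynomial ℂ)
            (Set.range (Subtype.val : T → Fin c → Polynomial ℂ)) := by
          rw [Subtype.range_coe_subtype]
          exact he3
        exact (Submodule.mem_span_range_iff_exists_fun _).1 h1
      -- the part of small degree
      have h1 : ∑ g : T, (p g % lin x v L.dt) • g.1 ∈
          (Lam I (lineI x v) 1 m).map (phi L v) := by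
        refine Submodule.sum_mem _ fun g _ => ?_
        rw [hgg g]
        refine img L v hJs m (ff g) (by have := hffm g; omega) (FF g) (hFF g) (hff g) _
          (mem_LT fun _ => ?_)
        by_cases hD : L.dg = 0
        · exfalso
          have h2 := EuclideanDomain.mod_lt (p g) hD0
          have h3 : (lin x v L.dt).natDegree = 0 := by rw [hnat, hD]
          have h4 : p g % lin x v L.dt = 0 := by
            have h5 := Polynomial.degree_mod_lt (p g) hD0
            rw [Polynomial.degree_eq_natDegree hD0, h3] at h5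
            exact Polynomial.degree_eq_bot.1 (Nat.WithBot.lt_zero_iff.1 h5)
          contradiction
        · have h2 : (p g % lin x v L.dt).natDegree < L.dg := by
            rw [← hnat]
            exact Polynomial.natDegree_mod_lt _ (by rw [hnat]; exact hD)
          have := hffm g
          omega
      -- the rest
      have h2 : e = ∑ g : T, (p g % lin x v L.dt) • g.1 +
          ∑ j, (∑ g : T, (p g / lin x v L.dt) * ∑ b', g.1 b' * (mat L v).adjugate b' j) •
            vec L v (L.F j) := by
        have h3 : ∀ g : T, p g • g.1 = (p g % lin x v L.dt) • g.1 +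
            ∑ j, ((p g / lin x v L.dt) * ∑ b', g.1 b' * (mat L v).adjugate b' j) •
              vec L v (L.F j) := by
          intro g
          have h4 := D_mul L v g.1
          have h5 : ∑ j, ((p g / lin x v L.dt) * ∑ b', g.1 b' * (mat L v).adjugate b' j) •
              vec L v (L.F j) = (p g / lin x v L.dt) • (lin x v L.dt • g.1) := by
            rw [h4, Finset.smul_sum]
            exact Finset.sum_congr rfl fun j _ => by rw [smul_smul]
          rw [h5, smul_smul, ← add_smul]
          have h6 := EuclideanDomain.div_add_mod (p g) (lin x v L.dt)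
          have h7 : p g % lin x v L.dt + p g / lin x v L.dt * lin x v L.dt = p g := by
            linear_combination h6
          rw [h7]
        rw [← hp, Finset.sum_congr rfl fun g _ => h3 g, Finset.sum_add_distrib, Finset.sum_comm]
        simp only [Finset.sum_smul]
      have h3 : ∑ j, (∑ g : T, (p g / lin x v L.dt) *
          ∑ b', g.1 b' * (mat L v).adjugate b' j) • vec L v (L.F j) ∈ Vm c m := by
        have h4 : ∑ j, (∑ g : T, (p g / lin x v L.dt) *
            ∑ b', g.1 b' * (mat L v).adjugate b' j) • vec L v (L.F j) =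
            e - ∑ g : T, (p g % lin x v L.dt) • g.1 := by
          rw [eq_sub_iff_add_eq, add_comm]
          exact h2.symm
        rw [h4]
        refine Submodule.sub_mem _ he1 ?_
        obtain ⟨z, hz, hz2⟩ := h1
        rw [← hz2]
        exact (hprops z hz).2.2.1
      rw [h2]
      exact Submodule.add_mem _ h1 (img2 L v hJs hD0 hadj hfdg hnat m (by omega) _ h3)
  -- injectivity
  have hinj : Module.finrank ℂ (Lam I (lineI x v) 1 m) =
      Module.finrank ℂ ((Lam I (lineI x v) 1 m).map (phi L v)) := by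
    refine LinearEquiv.finrank_eq (LinearEquiv.ofBijective
      ((phi L v).submoduleMap (Lam I (lineI x v) 1 m)) ⟨?_, ?_⟩)
    · rw [← LinearMap.ker_eq_bot, LinearMap.ker_eq_bot']
      rintro ⟨z, hz⟩ h0
      have h1 : phi L v z = 0 := congrArg Subtype.val h0
      refine Subtype.ext ?_
      funext α
      obtain ⟨G, hG, hG2⟩ := (hprops z hz).1 α
      have h2 := (hprops z hz).2.1 α
      have h3 : ∀ b, linQ x v (z fun _ => L.B b) = 0 := fun b => congrFun h1 b
      simp only [h3, mul_zero, Finset.sum_const_zero] at h2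
      have h4 := (mul_eq_zero.mp h2).resolve_left hD0
      rw [← hG2] at h4
      have h5 : G ∈ lineI x v := (hJ1 (m - 1) G hG).2 h4
      change z α = 0
      rw [← hG2]
      exact Ideal.Quotient.eq_zero_iff_mem.2 h5
    · exact LinearMap.submoduleMap_surjective _ _
  rw [hinj, himg, hrk, add_comm]

end Pool.Agent.Lib.MP_776403_ag.SD
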