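import Pool.Agent.Lib.MP_776403_ag.SD.J.Spec
import Pool.Agent.Lib.MP_776403_ag.SD.Bas

/-!
# THEOREM SD, stage 2, (GL2), module JBig: all forms of large degree are in `A + Low`
-/

set_option autoImplicit false

open MvPolynomial

noncomputable section

namespace Pool.Agent.Lib.MP_776403_ag.SD

namespace JBigAux

variable {N : ℕ}

theorem prj_X (a x : Vx N) (i : Fin (N + 1)) : prj a x (X i) = X i - C (x i) * lfm a := by
  unfold prj
  rw [aeval_X]

theorem prj_C (a x : Vx N) (r : ℂ) : prj a x (C r) = C r := by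
  unfold prj
  rw [aeval_C]
  rfl

theorem prj_lfm {a x : Vx N} (h : ∑ i, a i * x i = 1) : prj a x (lfm a) = 0 := by
  have h1 : prj a x (lfm a) = ∑ i, C (a i) * (X i - C (x i) * lfm a) := by
    conv_lhs => rw [lfm]
    rw [map_sum]
    exact Finset.sum_congr rfl fun i _ => by rw [map_mul, prj_X, prj_C]
  have h2 : ∑ i, C (a i) * (X i - C (x i) * lfm a) = lfm a - C (∑ i, a i * x i) * lfm a := by
    rw [map_sum, Finset.sum_mul]
    conv_rhs => rw [lfm]
    rw [← Finset.sum_sub_distrib]
    refine Finset.sum_congr rfl fun i _ => ?_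
    rw [map_mul, lfm]
    ring
  rw [h1, h2, h, C_1, one_mul, sub_self]

theorem prj_prj {a x : Vx N} (h : ∑ i, a i * x i = 1) (F : Sx N) :
    prj a x (prj a x F) = prj a x F := by
  have h1 : (prj a x).comp (prj a x) = prj a x := by
    refine MvPolynomial.algHom_ext fun i => ?_
    rw [AlgHom.comp_apply, prj_X, map_sub, map_mul, prj_lfm h, mul_zero, sub_zero, prj_X]
  exact congrArg (fun f : Sx N →ₐ[ℂ] Sx N => f F) h1

theorem dcp_mon (hJ : S_JDec) {a x : Vx N} (h : ∑ i, a i * x i = 1) (k : ℕ) (r : Sx N) :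
    dcp a x (prj a x r * lfm a ^ k) = Polynomial.monomial k (prj a x r) := by
  have h1 := (hJ N a x h).2.2.2.1 (Polynomial.monomial k (prj a x r)) (fun j => by
    rw [Polynomial.coeff_monomial]
    split_ifs
    · exact prj_prj h r
    · exact map_zero _)
  rwa [Polynomial.eval_monomial] at h1

theorem form_sum (hJ : S_JDec) {a x : Vx N} (h : ∑ i, a i * x i = 1) {F : Sx N} {n : ℕ}
    (hF : F.IsHomogeneous n) :
    F = ∑ j ∈ Finset.range (n + 1), (dcp a x F).coeff j * lfm a ^ j := by
  have h1 := (hJ N a x h).1 F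
  have h2 : (dcp a x F).natDegree ≤ n := by
    rw [Polynomial.natDegree_le_iff_coeff_eq_zero]
    intro j hj
    exact ((hJ N a x h).2.2.2.2.2.2.1 F n hF j).2 hj
  rw [Polynomial.eval_eq_sum_range' (Nat.lt_succ_of_le h2)] at h1
  exact h1.symm

end JBigAux

open JBigAux

/-- JBig -/
theorem jBig : S_JDec → S_Null → S_D6' → S_JCr → S_JBig := by
  intro hDec _ hD6 hCr N a x hax J A _ _ hV hA hJA D g hDA hDg hDx δ hδ
  obtain ⟨d1, d2, d3, d4, d5, d6, d7, d8, d9⟩ := hDec N a x hax
  -- the ideal `b`
  obtain ⟨b, hb⟩ : ∃ b : Ideal (Sx N), ∀ Q, Q ∈ b ↔ ∀ j, δ ≤ j → j < g → ∃ G ∈ A,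
      ∀ i, δ ≤ i → (dcp a x G).coeff i = if i = j then prj a x Q else 0 := by
    refine ⟨{ carrier := {Q | ∀ j, δ ≤ j → j < g → ∃ G ∈ A,
                ∀ i, δ ≤ i → (dcp a x G).coeff i = if i = j then prj a x Q else 0}
              add_mem' := ?_
              zero_mem' := ?_
              smul_mem' := ?_ }, fun Q => Iff.rfl⟩
    · intro Q Q' hQ hQ' j hj hjg
      obtain ⟨G, hG, hG2⟩ := hQ j hj hjg
      obtain ⟨G', hG', hG2'⟩ := hQ' j hj hjg
      refine ⟨G + G', A.add_mem hG hG', fun i hi => ?_⟩
      rw [map_add, Polynomial.coeff_add, hG2 i hi, hG2' i hi, map_add]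
      split_ifs
      · rfl
      · rw [add_zero]
    · intro j _ _
      refine ⟨0, A.zero_mem, fun i _ => ?_⟩
      rw [map_zero, Polynomial.coeff_zero, map_zero, ite_self]
    · intro R Q hQ j hj hjg
      obtain ⟨G, hG, hG2⟩ := hQ j hj hjg
      refine ⟨prj a x R * G, A.mul_mem_left _ hG, fun i hi => ?_⟩
      rw [map_mul, d2 _ (prj_prj hax R), Polynomial.coeff_C_mul, hG2 i hi, smul_eq_mul,
        map_mul (prj a x)]
      split_ifs
      · rfl
      · rw [mul_zero]
  have hlb : lfm a ∈ b := by
    rw [hb]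
    intro j _ _
    refine ⟨0, A.zero_mem, fun i _ => ?_⟩
    rw [map_zero, Polynomial.coeff_zero, prj_lfm hax, ite_self]
  have hJb : J ≤ b := by
    intro Q hQ
    rw [hb]
    intro j _ _
    refine ⟨prj a x Q * lfm a ^ j, A.mul_mem_right _ (hJA (d9 J ‹_› ‹_› hV Q hQ).1),
      fun i _ => ?_⟩
    rw [dcp_mon hDec hax, Polynomial.coeff_monomial]
    by_cases hij : i = j
    · rw [if_pos hij, if_pos hij.symm]
    · rw [if_neg hij, if_neg (fun h => hij h.symm)]
  have hzb : ∀ z ∈ zer b, z = 0 := by
    intro z hz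
    by_contra hz0
    have h1 : z ∈ zer J := fun F hF => hz F (hJb hF)
    have h2 : ∑ i, a i * z i = 0 := by
      have h3 := hz _ hlb
      unfold lfm at h3
      rw [map_sum] at h3
      rw [← h3]
      exact Finset.sum_congr rfl fun i _ => by rw [map_mul, eval_C, eval_X]
    obtain ⟨Q, hQ1, hQ2⟩ := hCr N a x hax A D g hDA hDg hDx z hz0 h2
    apply hQ1
    refine hz Q ?_
    rw [hb]
    intro j hj hjg
    obtain ⟨G, hG, hG2⟩ := hQ2 j ((hδ z h1 hz0 h2).trans hj) hjg
    exact ⟨G, hG, fun i hi => hG2 i ((hδ z h1 hz0 h2).trans hi)⟩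
  obtain ⟨ρ₀, hρ₀⟩ := hD6 N b hzb
  -- the leading coefficient of `D`
  have hlead : (dcp a x D).coeff g = C (eval x D) := by
    have h1 : ((dcp a x D).coeff g).IsHomogeneous 0 := by
      have := (d7 D g hDg g).1 le_rfl
      rwa [Nat.sub_self] at this
    have h2 := totalDegree_eq_zero_iff_eq_C.1 ((totalDegree_zero_iff_isHomogeneous _).2 h1)
    have h3 : eval 0 ((dcp a x D).coeff g) = eval x D := by
      have h4 := d6 0 (by simp) D
      have h5 := congrArg (fun p : Polynomial ℂ => p.coeff g) h4
      simp only [Polynomial.coeff_map] at h5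
      rw [lin_coeff_top hDg] at h5
      exact h5
    rw [← h3, h2, eval_C]
  have hD := form_sum hDec hax hDg
  rw [Finset.sum_range_succ, hlead] at hD
  -- the claim
  obtain ⟨Mm, hMm⟩ : ∃ Mm : Submodule ℂ (Sx N),
      Mm = (A.restrictScalars ℂ : Submodule ℂ (Sx N)) ⊔ Low a x δ := ⟨_, rfl⟩
  have hAM : ∀ G ∈ A, G ∈ Mm := fun G hG => by
    rw [hMm]
    exact Submodule.mem_sup_left hG
  have hLM : ∀ G ∈ Low a x δ, G ∈ Mm := fun G hG => by
    rw [hMm]
    exact Submodule.mem_sup_right hG
  have hclaim : ∀ n, ρ₀ + g ≤ n → ∀ k, k ≤ n → ∀ r : Sx N, r.IsHomogeneous (n - k) →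
      prj a x r * lfm a ^ k ∈ Mm := by
    intro n hn k
    induction k using Nat.strong_induction_on with
    | _ k ih =>
      intro hk r hr
      by_cases h1 : k < δ
      · apply hLM
        intro j hj
        rw [dcp_mon hDec hax, Polynomial.coeff_monomial, if_neg (by omega)]
      · by_cases h2 : k < g
        · have h3 : r ∈ b := hρ₀ (n - k) (by omega) r hr
          rw [hb] at h3
          obtain ⟨G, hG, hG2⟩ := h3 k (by omega) h2
          have h4 : prj a x r * lfm a ^ k - G ∈ Mm := by
            apply hLM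
            intro j hj
            rw [map_sub, Polynomial.coeff_sub, dcp_mon hDec hax, Polynomial.coeff_monomial,
              hG2 j hj]
            by_cases hjk : j = k
            · rw [if_pos hjk, if_pos hjk.symm, sub_self]
            · rw [if_neg hjk, if_neg (fun h => hjk h.symm), sub_self]
          have h5 := Mm.add_mem h4 (hAM G hG)
          rwa [sub_add_cancel] at h5
        · have h3 : prj a x r * lfm a ^ (k - g) * D =
              ∑ i ∈ Finset.range g, prj a x (r * (dcp a x D).coeff i) * lfm a ^ (k - g + i) +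
                (eval x D) • (prj a x r * lfm a ^ k) := by
            conv_lhs => rw [hD]
            rw [mul_add, Finset.mul_sum]
            congr 1
            · refine Finset.sum_congr rfl fun i _ => ?_
              rw [map_mul (prj a x), d3, pow_add]
              ring
            · rw [smul_eq_C_mul]
              have h4 : lfm a ^ k = lfm a ^ (k - g) * lfm a ^ g := by
                rw [← pow_add, Nat.sub_add_cancel (by omega)]
              rw [h4]
              ring
          have h4 : (eval x D) • (prj a x r * lfm a ^ k) ∈ Mm := by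
            have h5 : (eval x D) • (prj a x r * lfm a ^ k) = prj a x r * lfm a ^ (k - g) * D -
                ∑ i ∈ Finset.range g, prj a x (r * (dcp a x D).coeff i) *
                  lfm a ^ (k - g + i) := by
              rw [h3, add_sub_cancel_left]
            rw [h5]
            refine Mm.sub_mem (hAM _ (A.mul_mem_left _ hDA)) (Submodule.sum_mem _ fun i hi => ?_)
            rw [Finset.mem_range] at hi
            refine ih (k - g + i) (by omega) (by omega) _ ?_
            have h6 := hr.mul ((d7 D g hDg i).1 hi.le)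
            have h7 : n - k + (g - i) = n - (k - g + i) := by omega
            rwa [h7] at h6
          have h5 := Mm.smul_mem (eval x D)⁻¹ h4
          rwa [smul_smul, inv_mul_cancel₀ hDx, one_smul] at h5
  refine ⟨ρ₀ + g, fun n hn F hF => ?_⟩
  have hFM : F ∈ Mm := by
    rw [form_sum hDec hax hF]
    refine Submodule.sum_mem _ fun j hj => ?_
    rw [Finset.mem_range] at hj
    have h1 := hclaim n hn j (by omega) ((dcp a x F).coeff j)
      ((d7 F n hF j).1 (by omega))
    rwa [d3] at h1
  rw [hMm, Submodule.mem_sup] at hFM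
  obtain ⟨G, hG, L, hL, hGL⟩ := hFM
  refine ⟨homogeneousComponent n G, hA G hG n, homogeneousComponent_isHomogeneous n G, ?_⟩
  have h1 : F - homogeneousComponent n G = homogeneousComponent n L := by
    have h2 : homogeneousComponent n F = F := by
      rw [homogeneousComponent_of_mem ((mem_homogeneousSubmodule _ _).2 hF), if_pos rfl]
    rw [← h2, ← hGL, map_add, add_sub_cancel_left]
  rw [h1]
  exact d8 δ n L hL

end Pool.Agent.Lib.MP_776403_ag.SD
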