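import Pool.Agent.Lib.MP_776403_ag.SD.J.Spec
import Pool.Agent.Lib.MP_776403_ag.SD.Bas

/-!
# THEOREM SD, stage 2, (GL2): Cramer's rule
-/

set_option autoImplicit false

open MvPolynomial

noncomputable section

namespace Pool.Agent.Lib.MP_776403_ag.SD

namespace JCrAux

variable {N : ℕ}

/-- The top coefficient of the decomposition of `D`. -/
theorem top_coeff (hDec : S_JDec) {a x : Vx N} (hax : ∑ i, a i * x i = 1) {D : Sx N} {g : ℕ}
    (hDh : D.IsHomogeneous g) {z : Vx N} (hz : ∑ i, a i * z i = 0) :
    (dcp a x D).coeff g = C (eval x D) := by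
  obtain ⟨-, -, -, -, -, h6, h7, -, -⟩ := hDec N a x hax
  have h1 := (h7 D g hDh g).1 le_rfl
  rw [Nat.sub_self] at h1
  have h2 : (dcp a x D).coeff g = C (coeff 0 ((dcp a x D).coeff g)) := by
    rw [← totalDegree_eq_zero_iff_eq_C]
    exact Nat.le_zero.mp h1.totalDegree_le
  have h3 := congrArg (fun p => Polynomial.coeff p g) (h6 z hz D)
  simp only [Polynomial.coeff_map] at h3
  rw [lin_coeff_top hDh] at h3
  rw [h2] at h3 ⊢
  rw [eval_C] at h3
  rw [h3]

/-- Reduction modulo `D`. -/
theorem red (hDec : S_JDec) {a x : Vx N} (hax : ∑ i, a i * x i = 1) {D : Sx N} {g : ℕ}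
    (hDh : D.IsHomogeneous g) (hDx : eval x D ≠ 0) {z : Vx N} (hz : ∑ i, a i * z i = 0) (n : ℕ) :
    ∀ F : Sx N, (∀ i, n ≤ i → (dcp a x F).coeff i = 0) →
      ∃ q : Sx N, ∀ i, g ≤ i → (dcp a x (F - q * D)).coeff i = 0 := by
  obtain ⟨-, h2, h3, h4, -, h6, h7, -, -⟩ := hDec N a x hax
  have htop := top_coeff hDec hax hDh hz
  induction n with
  | zero => exact fun F hF => ⟨0, fun i _ => by rw [zero_mul, sub_zero]; exact hF i (Nat.zero_le i)⟩
  | succ n ih =>
    intro F hF
    by_cases hng : n < g
    · exact ⟨0, fun i hi => by rw [zero_mul, sub_zero]; exact hF i (by omega)⟩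
    have hlam : dcp a x (lfm a) = Polynomial.X := by
      have := h4 Polynomial.X (fun j => by
        rw [Polynomial.coeff_X]
        split_ifs
        · exact map_one _
        · exact map_zero _)
      rwa [Polynomial.eval_X] at this
    set l : Sx N := (dcp a x F).coeff n with hl
    set q0 : Sx N := C (eval x D)⁻¹ * l * lfm a ^ (n - g) with hq0
    have hdq : dcp a x (q0 * D) =
        Polynomial.C (C (eval x D)⁻¹ * l) * Polynomial.X ^ (n - g) * dcp a x D := by
      rw [hq0, map_mul, map_mul, map_mul, map_pow, hlam, h2 l (h3 F n)]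
      have : dcp a x (C (eval x D)⁻¹) = Polynomial.C (C (eval x D)⁻¹) :=
        h2 _ ((prj a x).commutes (eval x D)⁻¹)
      rw [this, Polynomial.C_mul]
    obtain ⟨q', hq'⟩ := ih (F - q0 * D) (by
      intro i hi
      rw [map_sub, Polynomial.coeff_sub, hdq, mul_assoc, Polynomial.coeff_C_mul,
        Polynomial.coeff_X_pow_mul', if_pos (by omega)]
      rcases Nat.lt_or_ge n i with h | h
      · rw [hF i (by omega), (h7 D g hDh (i - (n - g))).2 (by omega), mul_zero, sub_zero]
      · have hin : i = n := by omega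
        subst hin
        have e1 : i - (i - g) = g := by omega
        rw [e1, htop]
        have e2 : C (eval x D)⁻¹ * l * C (eval x D) = l := by
          rw [mul_right_comm, ← C_mul, inv_mul_cancel₀ hDx, C_1, one_mul]
        rw [e2, hl, sub_self])
    refine ⟨q0 + q', fun i hi => ?_⟩
    have e3 : F - (q0 + q') * D = F - q0 * D - q' * D := by ring
    rw [e3]
    exact hq' i hi

end JCrAux

open JCrAux in
/-- Cramer's rule. -/
theorem jCr : S_JPid → S_JDec → S_JCr := by
  intro hPid hDec N a x hax A D g hDA hDh hDx z _ hz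
  classical
  obtain ⟨h1, h2, h3, h4, -, h6, h7, -, -⟩ := hDec N a x hax
  -- the ideal on the line
  have hDg : (lin z x D).coeff g = eval x D := lin_coeff_top hDh z x
  have hD0 : lin z x D ≠ 0 := by
    intro h
    rw [h, Polynomial.coeff_zero] at hDg
    exact hDx hDg.symm
  have hDdeg : g ≤ (lin z x D).natDegree := Polynomial.le_natDegree_of_ne_zero (by rw [hDg]; exact hDx)
  have hA0 : A.map (lin z x) ≠ ⊥ := by
    intro h
    have := Ideal.mem_map_of_mem (lin z x) hDA
    rw [h, Ideal.mem_bot] at this
    exact hD0 this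
  obtain ⟨w, hwm, hwA, hwd⟩ := hPid _ hA0
  have hcol : col A x z = w.natDegree := hwd
  rw [hcol]
  set δ := w.natDegree with hδ
  have hsurj : Function.Surjective (lin z x) := by
    intro p
    refine ⟨Polynomial.aeval (lfm a) p, ?_⟩
    have e1 : lin z x (lfm a) = Polynomial.X := by
      have := h6 z hz (lfm a)
      rw [← this]
      have e2 : dcp a x (lfm a) = Polynomial.X := by
        have := h4 Polynomial.X (fun j => by
          rw [Polynomial.coeff_X]
          split_ifs
          · exact map_one _
          · exact map_zero _)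
        rwa [Polynomial.eval_X] at this
      rw [e2, Polynomial.map_X]
    rw [← Polynomial.aeval_algHom_apply, e1, Polynomial.aeval_X_left_apply]
  -- the elements
  have hR : ∀ k : ℕ, k < g - δ → ∃ R ∈ A, lin z x R = Polynomial.X ^ k * w ∧
      ∀ i, g ≤ i → (dcp a x R).coeff i = 0 := by
    intro k hk
    have e1 : Polynomial.X ^ k * w ∈ A.map (lin z x) := by
      rw [hwA]
      exact Ideal.mul_mem_left _ _ (Ideal.mem_span_singleton_self w)
    obtain ⟨G, hGA, hG⟩ := (Ideal.mem_map_iff_of_surjective (lin z x) hsurj).mp e1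
    obtain ⟨q, hq⟩ := red hDec hax hDh hDx hz ((dcp a x G).natDegree + 1) G (fun i hi =>
      Polynomial.coeff_eq_zero_of_natDegree_lt (by omega))
    refine ⟨G - q * D, A.sub_mem hGA (A.mul_mem_left q hDA), ?_, hq⟩
    have e2 : lin z x q = 0 := by
      by_contra hne
      have e3 : lin z x (q * D) = lin z x G - lin z x (G - q * D) := by rw [map_sub]; ring
      have e4 : ∀ i, g ≤ i → (lin z x (q * D)).coeff i = 0 := by
        intro i hi
        rw [e3, Polynomial.coeff_sub, hG]
        have e5 : (lin z x (G - q * D)).coeff i = 0 := by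
          rw [← h6 z hz, Polynomial.coeff_map, hq i hi, map_zero]
        rw [e5, sub_zero]
        refine Polynomial.coeff_eq_zero_of_natDegree_lt ?_
        have := Polynomial.natDegree_mul_le (p := (Polynomial.X : Polynomial ℂ) ^ k) (q := w)
        rw [Polynomial.natDegree_X_pow] at this
        omega
      have e6 : lin z x (q * D) ≠ 0 := by
        rw [map_mul]
        exact mul_ne_zero hne hD0
      have e7 : g ≤ (lin z x (q * D)).natDegree := by
        rw [map_mul, Polynomial.natDegree_mul hne hD0]
        omega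
      have e8 := e4 _ e7
      rw [Polynomial.coeff_natDegree, Polynomial.leadingCoeff_eq_zero] at e8
      exact e6 e8
    rw [map_sub, map_mul, e2, zero_mul, sub_zero, hG]
  choose! R hRA hRl hRc using hR
  set m : Matrix (Fin (g - δ)) (Fin (g - δ)) (Sx N) :=
    Matrix.of fun k l => (dcp a x (R k)).coeff (δ + l) with hm
  have hmz : ∀ k l : Fin (g - δ), eval z (m k l) = (Polynomial.X ^ (k : ℕ) * w).coeff (δ + l) := by
    intro k l
    have e1 := congrArg (fun p => Polynomial.coeff p (δ + l)) (h6 z hz (R k))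
    simp only [Polynomial.coeff_map] at e1
    rw [hRl k k.2] at e1
    exact e1
  have hdet : eval z m.det = 1 := by
    rw [RingHom.map_det, Matrix.det_of_isLowerTriangular]
    · refine Finset.prod_eq_one fun k _ => ?_
      rw [RingHom.mapMatrix_apply, Matrix.map_apply, hmz, Polynomial.coeff_X_pow_mul]
      exact hwm
    · intro k l hkl
      have hkl' : k < l := hkl
      rw [RingHom.mapMatrix_apply, Matrix.map_apply, hmz, Polynomial.coeff_X_pow_mul']
      split_ifs
      · refine Polynomial.coeff_eq_zero_of_natDegree_lt ?_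
        have : (k : ℕ) < l := hkl'
        omega
      · rfl
  have hmp : (prj a x : Sx N →+* Sx N).mapMatrix m = m := by
    ext1 k l
    rw [RingHom.mapMatrix_apply, Matrix.map_apply]
    exact h3 _ _
  have hQp : prj a x m.det = m.det := by
    have e1 := RingHom.map_det (prj a x : Sx N →+* Sx N) m
    rw [hmp] at e1
    exact e1
  have hadj : ∀ k l, prj a x (m.adjugate k l) = m.adjugate k l := by
    intro k l
    have e1 := RingHom.map_adjugate (prj a x : Sx N →+* Sx N) m
    rw [hmp] at e1
    have e2 := congrFun (congrFun e1 k) l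
    rwa [RingHom.mapMatrix_apply, Matrix.map_apply] at e2
  refine ⟨m.det, by rw [hdet]; exact one_ne_zero, fun j hj hjg => ?_⟩
  rw [hQp]
  set k : Fin (g - δ) := ⟨j - δ, by omega⟩ with hk
  refine ⟨∑ k', m.adjugate k k' * R k', A.sum_mem fun k' _ => A.mul_mem_left _ (hRA _ k'.2),
    fun i hi => ?_⟩
  have e1 : dcp a x (∑ k' : Fin (g - δ), m.adjugate k k' * R k') =
      ∑ k' : Fin (g - δ), Polynomial.C (m.adjugate k k') * dcp a x (R k') := by
    rw [map_sum]
    refine Finset.sum_congr rfl fun k' _ => ?_
    rw [map_mul, h2 _ (hadj k k')]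
  rw [e1, Polynomial.finsetSum_coeff]
  simp only [Polynomial.coeff_C_mul]
  rcases Nat.lt_or_ge i g with hig | hig
  · set l : Fin (g - δ) := ⟨i - δ, by omega⟩ with hl
    have e2 : ∀ k' : Fin (g - δ), (dcp a x (R k')).coeff i = m k' l := by
      intro k'
      rw [hm, Matrix.of_apply]
      congr 1
      simp only [hl]
      omega
    rw [Finset.sum_congr rfl fun k' _ => by rw [e2 k'], ← Matrix.mul_apply, Matrix.adjugate_mul,
      Matrix.smul_apply, Matrix.one_apply, smul_eq_mul]
    have e3 : (k = l) ↔ (i = j) := by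
      rw [hk, hl, Fin.mk.injEq]
      omega
    by_cases h : i = j
    · rw [if_pos h, if_pos (e3.mpr h), mul_one]
    · rw [if_neg h, if_neg (fun h' => h (e3.mp h')), mul_zero]
  · rw [if_neg (by omega)]
    refine Finset.sum_eq_zero fun k' _ => ?_
    rw [hRc _ k'.2 i hig, mul_zero]

end Pool.Agent.Lib.MP_776403_ag.SD
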