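import Pool.Agent.Lib.MP_776403_ag.SD.J.Spec
import Pool.Agent.Lib.MP_776403_ag.SD.Bas

/-!
# THEOREM SD, stage 2, (GL2): the decomposition `S = S0[λ]`
-/

set_option autoImplicit false

open MvPolynomial

noncomputable section

namespace Pool.Agent.Lib.MP_776403_ag.SD

namespace JDecAux

variable {N : ℕ}

/-- `λ` evaluated. -/
theorem eval_lfm (a z : Vx N) : eval z (lfm a) = ∑ i, a i * z i := by
  simp [lfm]

theorem dcp_X (a x : Vx N) (i : Fin (N + 1)) : dcp a x (X i) =
    Polynomial.C (X i - C (x i) * lfm a) + Polynomial.C (C (x i)) * Polynomial.X := by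
  simp [dcp]

theorem dcp_C (a x : Vx N) (r : ℂ) : dcp a x (C r) = Polynomial.C (C r) := by
  have h : (C r : Sx N) = algebraMap ℂ (Sx N) r := rfl
  rw [h, AlgHom.commutes]
  rfl

theorem prj_X (a x : Vx N) (i : Fin (N + 1)) : prj a x (X i) = X i - C (x i) * lfm a := by
  simp [prj]

theorem prj_C (a x : Vx N) (r : ℂ) : prj a x (C r) = C r := by
  have h : (C r : Sx N) = algebraMap ℂ (Sx N) r := rfl
  rw [h, AlgHom.commutes]

theorem lfm_def (a : Vx N) : lfm a = ∑ i, C (a i) * X i := rfl

theorem prj_lfm {a x : Vx N} (h : ∑ i, a i * x i = 1) : prj a x (lfm a) = 0 := by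
  rw [lfm_def, map_sum]
  have h1 : ∀ i, prj a x (C (a i) * X i) = C (a i) * X i - C (a i * x i) * lfm a := by
    intro i
    rw [map_mul, prj_X, prj_C, C_mul]
    ring
  rw [Finset.sum_congr rfl fun i _ => h1 i, Finset.sum_sub_distrib, ← Finset.sum_mul, ← map_sum, h,
    C_1, one_mul, lfm_def, sub_self]

theorem dcp_lfm {a x : Vx N} (h : ∑ i, a i * x i = 1) : dcp a x (lfm a) = Polynomial.X := by
  rw [lfm_def, map_sum]
  have h1 : ∀ i, dcp a x (C (a i) * X i) =
      Polynomial.C (C (a i) * X i - C (a i * x i) * lfm a) +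
        Polynomial.C (C (a i * x i)) * Polynomial.X := by
    intro i
    rw [map_mul, dcp_X, dcp_C]
    simp only [C_mul, map_sub, map_mul]
    ring
  rw [Finset.sum_congr rfl fun i _ => h1 i, Finset.sum_add_distrib, ← Finset.sum_mul, ← map_sum,
    ← map_sum, ← map_sum, h, Finset.sum_sub_distrib, ← Finset.sum_mul, ← map_sum, h, C_1, one_mul,
    lfm_def, sub_self]
  simp

/-- (1) -/
theorem eval_dcp (a x : Vx N) (F : Sx N) : (dcp a x F).eval (lfm a) = F := by
  induction F using MvPolynomial.induction_on with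
  | C r => rw [dcp_C, Polynomial.eval_C]
  | add p q hp hq => rw [map_add, Polynomial.eval_add, hp, hq]
  | mul_X p i hp =>
    rw [map_mul, Polynomial.eval_mul, hp, dcp_X]
    simp

theorem dcp_prj {a x : Vx N} (h : ∑ i, a i * x i = 1) (F : Sx N) :
    dcp a x (prj a x F) = Polynomial.C (prj a x F) := by
  induction F using MvPolynomial.induction_on with
  | C r => rw [prj_C, dcp_C]
  | add p q hp hq => simp only [map_add, hp, hq]
  | mul_X p i hp =>
    have h1 : dcp a x (prj a x (X i)) = Polynomial.C (prj a x (X i)) := by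
      rw [prj_X, map_sub, map_mul, dcp_lfm h, dcp_X, dcp_C]
      ring
    simp only [map_mul, hp, h1]

theorem map_dcp {a x : Vx N} (h : ∑ i, a i * x i = 1) (F : Sx N) :
    (dcp a x F).map (prj a x : Sx N →+* Sx N) = dcp a x F := by
  induction F using MvPolynomial.induction_on with
  | C r =>
    rw [dcp_C, Polynomial.map_C]
    congr 1
    exact prj_C a x r
  | add p q hp hq => simp only [map_add, Polynomial.map_add, hp, hq]
  | mul_X p i hp =>
    have h1 : (dcp a x (X i)).map (prj a x : Sx N →+* Sx N) = dcp a x (X i) := by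
      rw [dcp_X, Polynomial.map_add, Polynomial.map_mul, Polynomial.map_C, Polynomial.map_C,
        Polynomial.map_X]
      have h2 : (prj a x : Sx N →+* Sx N) (X i - C (x i) * lfm a) = X i - C (x i) * lfm a := by
        change prj a x (X i - C (x i) * lfm a) = _
        rw [map_sub, map_mul, prj_lfm h, prj_X, mul_zero, sub_zero]
      have h3 : (prj a x : Sx N →+* Sx N) (C (x i)) = C (x i) := prj_C a x (x i)
      rw [h2, h3]
    rw [map_mul, Polynomial.map_mul, hp, h1]

/-- (3) -/
theorem prj_coeff {a x : Vx N} (h : ∑ i, a i * x i = 1) (F : Sx N) (j : ℕ) :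
    prj a x ((dcp a x F).coeff j) = (dcp a x F).coeff j := by
  have h1 := congrArg (fun p => Polynomial.coeff p j) (map_dcp h F)
  simpa [Polynomial.coeff_map] using h1

/-- (4) -/
theorem dcp_eval {a x : Vx N} (h : ∑ i, a i * x i = 1) (p : Polynomial (Sx N))
    (hp : ∀ j, prj a x (p.coeff j) = p.coeff j) : dcp a x (p.eval (lfm a)) = p := by
  rw [Polynomial.eval_eq_sum, Polynomial.sum_def, map_sum]
  have h1 : ∀ j, dcp a x (p.coeff j * lfm a ^ j) = Polynomial.C (p.coeff j) * Polynomial.X ^ j := by
    intro j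
    rw [map_mul, map_pow, dcp_lfm h]
    congr 1
    rw [← hp j, dcp_prj h]
  rw [Finset.sum_congr rfl fun j _ => h1 j]
  exact (Polynomial.as_sum_support_C_mul_X_pow p).symm

/-- (5) -/
theorem eval_prj (a x z : Vx N) (F : Sx N) :
    eval z (prj a x F) = eval (z - (∑ i, a i * z i) • x) F := by
  induction F using MvPolynomial.induction_on with
  | C r => rw [prj_C, eval_C, eval_C]
  | add p q hp hq => simp only [map_add, hp, hq]
  | mul_X p i hp =>
    rw [map_mul, map_mul, map_mul, hp, prj_X, map_sub, map_mul, eval_lfm, eval_X, eval_X, eval_C]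
    congr 1
    simp only [Pi.sub_apply, Pi.smul_apply, smul_eq_mul]
    ring

theorem lin_X (x v : Vx N) (i : Fin (N + 1)) :
    lin x v (X i) = Polynomial.C (x i) + Polynomial.C (v i) * Polynomial.X := by
  simp [lin]

theorem lin_C (x v : Vx N) (r : ℂ) : lin x v (C r) = Polynomial.C r := by
  have h : (C r : Sx N) = algebraMap ℂ (Sx N) r := rfl
  rw [h, AlgHom.commutes]
  rfl

/-- (6), without condition. -/
theorem map_eval (a x z : Vx N) (F : Sx N) :
    (dcp a x F).map (eval z) = lin (z - (∑ i, a i * z i) • x) x F := by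
  induction F using MvPolynomial.induction_on with
  | C r => rw [dcp_C, lin_C, Polynomial.map_C, eval_C]
  | add p q hp hq => simp only [map_add, Polynomial.map_add, hp, hq]
  | mul_X p i hp =>
    rw [map_mul, map_mul, Polynomial.map_mul, hp, dcp_X, lin_X]
    congr 1
    rw [Polynomial.map_add, Polynomial.map_mul, Polynomial.map_C, Polynomial.map_C,
      Polynomial.map_X, map_sub, map_mul, eval_lfm, eval_X, eval_C]
    simp only [Pi.sub_apply, Pi.smul_apply, smul_eq_mul]
    congr 3
    ring

/-- The class of the decomposed forms of degree `n`. -/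
def Hn (n : ℕ) (p : Polynomial (Sx N)) : Prop :=
  ∀ j, (j ≤ n → (p.coeff j).IsHomogeneous (n - j)) ∧ (n < j → p.coeff j = 0)

theorem Hn.zero (n : ℕ) : Hn n (0 : Polynomial (Sx N)) := fun j =>
  ⟨fun _ => by rw [Polynomial.coeff_zero]; exact isHomogeneous_zero _ _ _, fun _ => by simp⟩

theorem Hn.add {n : ℕ} {p q : Polynomial (Sx N)} (hp : Hn n p) (hq : Hn n q) : Hn n (p + q) :=
  fun j => ⟨fun hj => by
    rw [Polynomial.coeff_add]
    exact ((hp j).1 hj).add ((hq j).1 hj), fun hj => by
    rw [Polynomial.coeff_add, (hp j).2 hj, (hq j).2 hj, add_zero]⟩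

theorem Hn.sum {n : ℕ} {ι : Type*} (s : Finset ι) (p : ι → Polynomial (Sx N))
    (h : ∀ i ∈ s, Hn n (p i)) : Hn n (∑ i ∈ s, p i) := by
  classical
  induction s using Finset.induction_on with
  | empty => exact Hn.zero n
  | insert a s ha ih =>
    rw [Finset.sum_insert ha]
    exact (h a (Finset.mem_insert_self a s)).add (ih fun i hi => h i (Finset.mem_insert_of_mem hi))

theorem Hn.mul {m n : ℕ} {p q : Polynomial (Sx N)} (hp : Hn m p) (hq : Hn n q) :
    Hn (m + n) (p * q) := by
  intro j
  rw [Polynomial.coeff_mul]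
  constructor
  · intro hj
    refine IsHomogeneous.sum _ _ _ fun k hk => ?_
    have hk' := Finset.HasAntidiagonal.mem_antidiagonal.mp hk
    by_cases h1 : m < k.1
    · rw [(hp k.1).2 h1, zero_mul]
      exact isHomogeneous_zero _ _ _
    by_cases h2 : n < k.2
    · rw [(hq k.2).2 h2, mul_zero]
      exact isHomogeneous_zero _ _ _
    have h3 := ((hp k.1).1 (by omega)).mul ((hq k.2).1 (by omega))
    have h4 : m - k.1 + (n - k.2) = m + n - j := by omega
    rwa [h4] at h3
  · intro hj
    refine Finset.sum_eq_zero fun k hk => ?_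
    have hk' := Finset.HasAntidiagonal.mem_antidiagonal.mp hk
    by_cases h1 : m < k.1
    · rw [(hp k.1).2 h1, zero_mul]
    · rw [(hq k.2).2 (by omega), mul_zero]

theorem Hn.C0 (r : ℂ) : Hn 0 (Polynomial.C (C r : Sx N)) := by
  intro j
  constructor
  · intro hj
    have : j = 0 := by omega
    subst this
    rw [Polynomial.coeff_C_zero]
    exact isHomogeneous_C _ _
  · intro hj
    rw [Polynomial.coeff_C_ne_zero (by omega)]

theorem lfm_hom (a : Vx N) : (lfm a).IsHomogeneous 1 := by
  refine IsHomogeneous.sum _ _ _ fun i _ => ?_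
  have := (isHomogeneous_C (Fin (N + 1)) (a i)).mul (isHomogeneous_X ℂ i)
  rwa [zero_add] at this

theorem pX_hom (a x : Vx N) (i : Fin (N + 1)) :
    (X i - C (x i) * lfm a : Sx N).IsHomogeneous 1 := by
  refine (isHomogeneous_X ℂ i).sub ?_
  have := (isHomogeneous_C (Fin (N + 1)) (x i)).mul (lfm_hom a)
  rwa [zero_add] at this

theorem Hn.X (a x : Vx N) (i : Fin (N + 1)) : Hn 1 (dcp a x (MvPolynomial.X i)) := by
  intro j
  rw [dcp_X]
  rcases Nat.eq_zero_or_pos j with h0 | h0
  · subst h0
    refine ⟨fun _ => ?_, fun h => absurd h (by omega)⟩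
    simp only [Polynomial.coeff_add, Polynomial.coeff_C_zero, Polynomial.mul_coeff_zero,
      Polynomial.coeff_X_zero, mul_zero, add_zero]
    exact pX_hom a x i
  · have h1 : (Polynomial.C (MvPolynomial.X i - MvPolynomial.C (x i) * lfm a) : Polynomial (Sx N)).coeff j
        = 0 := Polynomial.coeff_C_ne_zero (by omega)
    rw [Polynomial.coeff_add, h1, zero_add, Polynomial.coeff_C_mul]
    refine ⟨fun h => ?_, fun h => ?_⟩
    · have : j = 1 := by omega
      subst this
      rw [Polynomial.coeff_X_one, mul_one]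
      exact isHomogeneous_C _ _
    · rw [Polynomial.coeff_X_of_ne_one (by omega), mul_zero]

theorem Hn.pow {m : ℕ} {p : Polynomial (Sx N)} (hp : Hn m p) (k : ℕ) : Hn (m * k) (p ^ k) := by
  induction k with
  | zero =>
    rw [pow_zero, mul_zero]
    have := Hn.C0 (N := N) 1
    rwa [C_1, Polynomial.C_1] at this
  | succ k ih => rw [pow_succ, Nat.mul_succ]; exact ih.mul hp

theorem Hn.prod {ι : Type*} (s : Finset ι) (p : ι → Polynomial (Sx N)) (m : ι → ℕ)
    (h : ∀ i ∈ s, Hn (m i) (p i)) : Hn (∑ i ∈ s, m i) (∏ i ∈ s, p i) := by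
  classical
  induction s using Finset.induction_on with
  | empty =>
    rw [Finset.sum_empty, Finset.prod_empty]
    have := Hn.C0 (N := N) 1
    rwa [C_1, Polynomial.C_1] at this
  | insert a s ha ih =>
    rw [Finset.sum_insert ha, Finset.prod_insert ha]
    exact (h a (Finset.mem_insert_self a s)).mul (ih fun i hi => h i (Finset.mem_insert_of_mem hi))

/-- (7) -/
theorem dcp_Hn (a x : Vx N) {F : Sx N} {n : ℕ} (hF : F.IsHomogeneous n) : Hn n (dcp a x F) := by
  rw [F.as_sum, map_sum]
  refine Hn.sum _ _ fun α hα => ?_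
  have h1 : α.degree = n := by
    by_contra hne
    exact (mem_support_iff.mp hα) (hF.coeff_eq_zero hne)
  rw [monomial_eq, map_mul, dcp_C, Finsupp.prod_fintype _ _ (fun i => pow_zero _), map_prod]
  have h2 : Hn (∑ i, 1 * α i) (∏ i, dcp a x (MvPolynomial.X i ^ α i)) := by
    refine Hn.prod _ _ _ fun i _ => ?_
    rw [map_pow]
    exact (Hn.X a x i).pow _
  have h3 := (Hn.C0 (N := N) (coeff α F)).mul h2
  have h4 : 0 + ∑ i, 1 * α i = n := by
    rw [zero_add, ← h1, Finsupp.degree_eq_sum]
    simp
  rwa [h4] at h3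

theorem prj_hom (a x : Vx N) {F : Sx N} {n : ℕ} (hF : F.IsHomogeneous n) :
    (prj a x F).IsHomogeneous n := by
  have h := hF.aeval (fun i => X i - C (x i) * lfm a) (fun i => pX_hom a x i)
  rwa [one_mul] at h

/-- (8) -/
theorem Low_comp {a x : Vx N} (δ n : ℕ) {F : Sx N} (hF : F ∈ Low a x δ) :
    homogeneousComponent n F ∈ Low a x δ := by
  intro j hj
  by_cases hnj : n < j
  · exact (dcp_Hn a x (homogeneousComponent_isHomogeneous n F) j).2 hnj
  have h1 : (dcp a x F).coeff j = 0 := hF j hj
  have h2 : (dcp a x F).coeff j = ∑ m ∈ Finset.range (F.totalDegree + 1),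
      (dcp a x (homogeneousComponent m F)).coeff j := by
    conv_lhs => rw [← sum_homogeneousComponent F]
    rw [map_sum, Polynomial.finset_sum_coeff]
  have h3 : ∀ m, homogeneousComponent (n - j) ((dcp a x (homogeneousComponent m F)).coeff j) =
      if m = n then (dcp a x (homogeneousComponent n F)).coeff j else 0 := by
    intro m
    by_cases hmj : m < j
    · rw [(dcp_Hn a x (homogeneousComponent_isHomogeneous m F) j).2 hmj, map_zero,
        if_neg (by omega)]
    · rw [homogeneousComponent_of_mem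
        ((dcp_Hn a x (homogeneousComponent_isHomogeneous m F) j).1 (by omega))]
      by_cases hmn : m = n
      · subst hmn
        rw [if_pos rfl, if_pos rfl]
      · rw [if_neg (by omega), if_neg hmn]
  have h4 := congrArg (homogeneousComponent (n - j)) h2
  rw [h1, map_zero, map_sum, Finset.sum_congr rfl fun m _ => h3 m, Finset.sum_ite_eq'] at h4
  by_cases hn : n ∈ Finset.range (F.totalDegree + 1)
  · rw [if_pos hn] at h4
    exact h4.symm
  · have h5 : homogeneousComponent n F = 0 :=
      homogeneousComponent_eq_zero n F (by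
        have := Finset.mem_range.not.mp hn
        omega)
    rw [h5, map_zero, Polynomial.coeff_zero]

end JDecAux

open JDecAux in
/-- The decomposition. -/
theorem jDec : S_Null → S_JDec := by
  intro hNull N a x hax
  refine ⟨eval_dcp a x, fun F hF => ?_, prj_coeff hax, dcp_eval hax, fun z F => eval_prj a x z F,
    fun z hz F => ?_, fun F n hF => dcp_Hn a x hF, fun δ n F hF => Low_comp δ n hF,
    fun J hJp hJh hJv F hF => ?_⟩
  · rw [← hF, dcp_prj hax]
  · rw [map_eval, hz, zero_smul, sub_zero]
  · have hN := (hNull N J hJp hJh).1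
    have hz' : ∀ z ∈ zer J, z - (∑ i, a i * z i) • x ∈ zer J := by
      intro z hz
      have := hJv z hz (-(∑ i, a i * z i))
      rwa [neg_smul, ← sub_eq_add_neg] at this
    refine ⟨hN _ fun z hz => ?_, fun j => hN _ fun z hz => ?_⟩
    · rw [eval_prj]
      exact hz' z hz F hF
    · have h1 : (dcp a x F).map (eval z) = 0 := by
        rw [map_eval]
        refine poly_ext fun t => ?_
        rw [lin_eval, Polynomial.eval_zero]
        exact hJv _ (hz' z hz) t F hF
      have h2 := congrArg (fun p => Polynomial.coeff p j) h1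
      simpa [Polynomial.coeff_map] using h2

end Pool.Agent.Lib.MP_776403_ag.SD
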