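import Pool.Agent.Lib.MP_776403_ag.SD.J.Spec
import Pool.Agent.Lib.MP_776403_ag.SD.Bas

/-!
# THEOREM SD, stage 2, (G5): the Hilbert function of `A`
-/

set_option autoImplicit false

open MvPolynomial

noncomputable section

namespace Pool.Agent.Lib.MP_776403_ag.SD

namespace JHFAux

variable {N : ℕ}

/-- The image in `S / J` of the forms of degree `n` in `Low a x δ`. -/
private def Ln (a x : Vx N) (J : Ideal (Sx N)) (δ n : ℕ) : Submodule ℂ (Sx N ⧸ J) :=
  (homogeneousSubmodule (Fin (N + 1)) ℂ n ⊓ Low a x δ).map (Ideal.Quotient.mkₐ ℂ J).toLinearMap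

private theorem fin_gr (J : Ideal (Sx N)) (m : ℕ) : Module.Finite ℂ (gr J m) := by
  have h1 : Module.Finite ℂ (homogeneousSubmodule (Fin (N + 1)) ℂ m) :=
    Module.Finite.iff_fg.2 (homogeneousSubmodule_fg _ ℂ m)
  exact Module.Finite.map _ _

private theorem mem_gr {J : Ideal (Sx N)} {m : ℕ} {y : Sx N ⧸ J} :
    y ∈ gr J m ↔ ∃ F : Sx N, F.IsHomogeneous m ∧ Ideal.Quotient.mk J F = y := by
  constructor
  · rintro ⟨F, hF, rfl⟩
    exact ⟨F, (mem_homogeneousSubmodule m F).1 hF, rfl⟩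
  · rintro ⟨F, hF, rfl⟩
    exact ⟨F, (mem_homogeneousSubmodule m F).2 hF, rfl⟩

private theorem mem_grA {J A : Ideal (Sx N)} {m : ℕ} {y : Sx N ⧸ J} :
    y ∈ grA J A m ↔ ∃ F : Sx N, (F.IsHomogeneous m ∧ F ∈ A) ∧ Ideal.Quotient.mk J F = y := by
  constructor
  · rintro ⟨F, hF, rfl⟩
    exact ⟨F, ⟨(mem_homogeneousSubmodule m F).1 hF.1, hF.2⟩, rfl⟩
  · rintro ⟨F, hF, rfl⟩
    exact ⟨F, ⟨(mem_homogeneousSubmodule m F).2 hF.1, hF.2⟩, rfl⟩

private theorem mem_Ln {a x : Vx N} {J : Ideal (Sx N)} {δ m : ℕ} {y : Sx N ⧸ J} :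
    y ∈ Ln a x J δ m ↔
      ∃ F : Sx N, (F.IsHomogeneous m ∧ F ∈ Low a x δ) ∧ Ideal.Quotient.mk J F = y := by
  constructor
  · rintro ⟨F, hF, rfl⟩
    exact ⟨F, ⟨(mem_homogeneousSubmodule m F).1 hF.1, hF.2⟩, rfl⟩
  · rintro ⟨F, hF, rfl⟩
    exact ⟨F, ⟨(mem_homogeneousSubmodule m F).2 hF.1, hF.2⟩, rfl⟩

private theorem hom_lfm (a : Vx N) : (lfm a).IsHomogeneous 1 := by
  unfold lfm
  refine IsHomogeneous.sum _ _ _ fun i _ => ?_
  have h := (isHomogeneous_C (Fin (N + 1)) (a i)).mul (isHomogeneous_X ℂ i)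
  simpa using h

private theorem hom_lfm_pow (a : Vx N) (j : ℕ) : (lfm a ^ j).IsHomogeneous j := by
  have h := (hom_lfm a).pow j
  simpa using h

/-- Two complements of the same subspace have the same dimension. -/
private theorem compl_eq {V : Type*} [AddCommGroup V] [Module ℂ V] (G A B L : Submodule ℂ V)
    [FiniteDimensional ℂ G] (h1 : A ⊔ L = G) (h2 : B ⊔ L = G) (h3 : A ⊓ L = ⊥) (h4 : B ⊓ L = ⊥) :
    Module.finrank ℂ A = Module.finrank ℂ B := by
  have hA : FiniteDimensional ℂ A :=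
    Submodule.finiteDimensional_of_le (h1 ▸ le_sup_left : A ≤ G)
  have hB : FiniteDimensional ℂ B :=
    Submodule.finiteDimensional_of_le (h2 ▸ le_sup_left : B ≤ G)
  have hL : FiniteDimensional ℂ L :=
    Submodule.finiteDimensional_of_le (h1 ▸ le_sup_right : L ≤ G)
  have e1 := Submodule.finrank_sup_add_finrank_inf_eq A L
  have e2 := Submodule.finrank_sup_add_finrank_inf_eq B L
  rw [h1, h3, finrank_bot] at e1
  rw [h2, h4, finrank_bot] at e2
  omega

end JHFAux

open JHFAux in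
theorem jHF : S_JDec → S_Null → S_JHF := by
  intro hDec _ N a x hax J A hJ hJh _ hV hJA δ hbig hinj
  obtain ⟨d1, d2, d3, d4, _, _, d7, _, d9⟩ := hDec N a x hax
  have d9' : ∀ F ∈ J, ∀ j, (dcp a x F).coeff j ∈ J := fun F hF j => (d9 J hJ hJh hV F hF).2 j
  -- dcp of λ
  have hlam : dcp a x (lfm a) = Polynomial.X := by
    have h := d4 Polynomial.X (fun j => by
      rw [Polynomial.coeff_X]
      split_ifs <;> simp)
    rwa [Polynomial.eval_X] at h
  -- membership in J from the coefficients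
  have hmemJ : ∀ F : Sx N, (∀ j, (dcp a x F).coeff j ∈ J) → F ∈ J := by
    intro F hF
    rw [← d1 F, Polynomial.eval_eq_sum_range]
    exact Ideal.sum_mem _ fun j _ => J.mul_mem_right _ (hF j)
  -- the key cancellation
  have hkey : ∀ b L : Sx N, L ∈ Low a x δ → lfm a ^ δ * b - L ∈ J → b ∈ J := by
    intro b L hL hb
    refine hmemJ b fun j => ?_
    have h := d9' _ hb (j + δ)
    rw [map_sub, map_mul, map_pow, hlam, Polynomial.coeff_sub, Polynomial.coeff_X_pow_mul,
      hL (j + δ) (Nat.le_add_left _ _), sub_zero] at h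
    exact h
  -- multiplication by the power of λ
  set mu : (Sx N ⧸ J) →ₗ[ℂ] (Sx N ⧸ J) :=
    LinearMap.mulLeft ℂ (Ideal.Quotient.mk J (lfm a ^ δ)) with hmu
  have hmu_mk : ∀ b : Sx N, mu (Ideal.Quotient.mk J b) = Ideal.Quotient.mk J (lfm a ^ δ * b) := by
    intro b
    rw [hmu, LinearMap.mulLeft_apply, map_mul]
  have hmu_inj : Function.Injective mu := by
    rw [injective_iff_map_eq_zero]
    intro y hy
    obtain ⟨b, rfl⟩ := Ideal.Quotient.mk_surjective y
    rw [hmu_mk, Ideal.Quotient.eq_zero_iff_mem] at hy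
    rw [Ideal.Quotient.eq_zero_iff_mem]
    exact hkey b 0 (Submodule.zero_mem _) (by rwa [sub_zero])
  obtain ⟨ρ, hρ⟩ := hbig
  refine Filter.eventually_atTop.2 ⟨max ρ δ, fun n hn => ?_⟩
  have hnρ : ρ ≤ n := le_trans (le_max_left _ _) hn
  have hnδ : δ ≤ n := le_trans (le_max_right _ _) hn
  have hfin := fin_gr J n
  have hmap : Module.finrank ℂ ((gr J (n - δ)).map mu) = Module.finrank ℂ (gr J (n - δ)) :=
    (Submodule.equivMapOfInjective mu hmu_inj (gr J (n - δ))).finrank_eq.symm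
  rw [← hmap]
  refine compl_eq (gr J n) _ _ (Ln a x J δ n) ?_ ?_ ?_ ?_
  · -- grA + Ln = gr
    apply le_antisymm
    · refine sup_le ?_ ?_
      · intro y hy
        obtain ⟨F, hF, rfl⟩ := mem_grA.1 hy
        exact mem_gr.2 ⟨F, hF.1, rfl⟩
      · intro y hy
        obtain ⟨F, hF, rfl⟩ := mem_Ln.1 hy
        exact mem_gr.2 ⟨F, hF.1, rfl⟩
    · intro y hy
      obtain ⟨F, hF, rfl⟩ := mem_gr.1 hy
      obtain ⟨G, hGA, hGh, hFG⟩ := hρ n hnρ F hF
      have e : Ideal.Quotient.mk J F = Ideal.Quotient.mk J G + Ideal.Quotient.mk J (F - G) := by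
        rw [← map_add]
        congr 1
        ring
      rw [e]
      exact Submodule.add_mem_sup (mem_grA.2 ⟨G, ⟨hGh, hGA⟩, rfl⟩)
        (mem_Ln.2 ⟨F - G, ⟨hF.sub hGh, hFG⟩, rfl⟩)
  · -- λ^δ gr + Ln = gr
    apply le_antisymm
    · refine sup_le ?_ ?_
      · rintro y ⟨z, hz, rfl⟩
        obtain ⟨b, hb, rfl⟩ := mem_gr.1 hz
        rw [hmu_mk]
        refine mem_gr.2 ⟨_, ?_, rfl⟩
        have h := (hom_lfm_pow a δ).mul hb
        rwa [Nat.add_sub_cancel' hnδ] at h
      · intro y hy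
        obtain ⟨F, hF, rfl⟩ := mem_Ln.1 hy
        exact mem_gr.2 ⟨F, hF.1, rfl⟩
    · intro y hy
      obtain ⟨F, hF, rfl⟩ := mem_gr.1 hy
      -- F = ∑ j ≤ n, p_j λ^j
      set p := dcp a x F with hp
      have hpz : ∀ j, n < j → p.coeff j = 0 := fun j hj => (d7 F n hF j).2 hj
      have hph : ∀ j, j ≤ n → (p.coeff j).IsHomogeneous (n - j) := fun j hj => (d7 F n hF j).1 hj
      have hdeg : p.natDegree < n + 1 := by
        rw [Nat.lt_succ_iff, Polynomial.natDegree_le_iff_coeff_eq_zero]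
        exact fun j hj => hpz j hj
      have hsum : F = ∑ j ∈ Finset.range (n + 1), p.coeff j * lfm a ^ j := by
        conv_lhs => rw [← d1 F]
        exact Polynomial.eval_eq_sum_range' hdeg _
      have hsplit : F = (∑ j ∈ Finset.range δ, p.coeff j * lfm a ^ j) +
          lfm a ^ δ * ∑ j ∈ Finset.range (n + 1 - δ), p.coeff (δ + j) * lfm a ^ j := by
        conv_lhs => rw [hsum]
        have e : n + 1 = δ + (n + 1 - δ) := by omega
        conv_lhs => rw [e, Finset.sum_range_add]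
        rw [Finset.mul_sum]
        congr 1
        refine Finset.sum_congr rfl fun j _ => ?_
        rw [pow_add]
        ring
      set L : Sx N := ∑ j ∈ Finset.range δ, p.coeff j * lfm a ^ j with hL
      set b : Sx N := ∑ j ∈ Finset.range (n + 1 - δ), p.coeff (δ + j) * lfm a ^ j with hb
      have hLh : L.IsHomogeneous n := by
        rw [hL]
        refine IsHomogeneous.sum _ _ _ fun j hj => ?_
        have hj' := Finset.mem_range.1 hj
        have h := (hph j (by omega)).mul (hom_lfm_pow a j)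
        rwa [Nat.sub_add_cancel (by omega : j ≤ n)] at h
      have hbh : b.IsHomogeneous (n - δ) := by
        rw [hb]
        refine IsHomogeneous.sum _ _ _ fun j hj => ?_
        have hj' := Finset.mem_range.1 hj
        have h := (hph (δ + j) (by omega)).mul (hom_lfm_pow a j)
        rwa [show n - (δ + j) + j = n - δ by omega] at h
      have hLl : L ∈ Low a x δ := by
        intro i hi
        rw [hL, map_sum, Polynomial.finsetSum_coeff]
        refine Finset.sum_eq_zero fun j hj => ?_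
        have hj' := Finset.mem_range.1 hj
        rw [map_mul, map_pow, hlam, d2 _ (d3 F j), Polynomial.coeff_C_mul, Polynomial.coeff_X_pow,
          if_neg (by omega), mul_zero]
      have e : Ideal.Quotient.mk J F =
          Ideal.Quotient.mk J (lfm a ^ δ * b) + Ideal.Quotient.mk J L := by
        rw [← map_add]
        congr 1
        rw [add_comm]
        exact hsplit
      rw [e, ← hmu_mk]
      exact Submodule.add_mem_sup (Submodule.mem_map_of_mem (mem_gr.2 ⟨b, hbh, rfl⟩))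
        (mem_Ln.2 ⟨L, ⟨hLh, hLl⟩, rfl⟩)
  · -- grA ∩ Ln = 0
    rw [eq_bot_iff]
    rintro y ⟨hy1, hy2⟩
    obtain ⟨F, hF, rfl⟩ := mem_grA.1 hy1
    obtain ⟨L, hL, hLF⟩ := mem_Ln.1 hy2
    have h1 : L - F ∈ J := (Ideal.Quotient.mk_eq_mk_iff_sub_mem _ _).1 hLF
    have h2 : L ∈ A := by
      have := A.add_mem (hJA h1) hF.2
      rwa [sub_add_cancel] at this
    have h3 : L ∈ J := hinj L h2 hL.2
    rw [Submodule.mem_bot, ← hLF]
    exact Ideal.Quotient.eq_zero_iff_mem.2 h3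
  · -- λ^δ gr ∩ Ln = 0
    rw [eq_bot_iff]
    rintro y ⟨hy1, hy2⟩
    obtain ⟨z, hz, rfl⟩ := hy1
    obtain ⟨b, hb, rfl⟩ := mem_gr.1 hz
    obtain ⟨L, hL, hLF⟩ := mem_Ln.1 hy2
    rw [hmu_mk] at hLF
    have h1 : lfm a ^ δ * b - L ∈ J := (Ideal.Quotient.mk_eq_mk_iff_sub_mem _ _).1 hLF.symm
    have h2 : b ∈ J := hkey b L hL.2 h1
    rw [Submodule.mem_bot, Ideal.Quotient.eq_zero_iff_mem.2 h2, map_zero]

end Pool.Agent.Lib.MP_776403_ag.SD
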