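import Pool.Agent.Lib.MP_776403_ag.SD.J.Spec
import Pool.Agent.Lib.MP_776403_ag.SD.Bas

/-!
# THEOREM SD, stage 2, (GL2), module Jn: the join with a point
-/

set_option autoImplicit false

open MvPolynomial

noncomputable section

namespace Pool.Agent.Lib.MP_776403_ag.SD

namespace JJnAux

variable {N : ℕ}

/-- `F(X + T x)`. -/
def psi (x : Vx N) : Sx N →ₐ[ℂ] Polynomial (Sx N) :=
  aeval fun i => Polynomial.C (X i) + Polynomial.C (C (x i)) * Polynomial.X

/-- `F(X + T x)` modulo `P`. -/
def phi (P : Ideal (Sx N)) (x : Vx N) : Sx N →+* Polynomial (Sx N ⧸ P) :=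
  (Polynomial.mapRingHom (Ideal.Quotient.mk P)).comp (psi x : Sx N →ₐ[ℂ] Polynomial (Sx N)).toRingHom

theorem psi_eval (x z : Vx N) (F : Sx N) (T : ℂ) :
    ((psi x F).map (eval z)).eval T = eval (z + T • x) F := by
  have h : (((Polynomial.evalRingHom T).comp (Polynomial.mapRingHom (eval z))).comp
      (psi x : Sx N →ₐ[ℂ] Polynomial (Sx N)).toRingHom) = (eval (z + T • x) : Sx N →+* ℂ) := by
    refine MvPolynomial.ringHom_ext (fun r => ?_) (fun i => ?_)
    · simp [psi, Polynomial.algebraMap_apply, MvPolynomial.algebraMap_eq]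
    · simp [psi]
      ring
  exact DFunLike.congr_fun h F

theorem psi_coeff (x z : Vx N) (F : Sx N) (h : ∀ T : ℂ, eval (z + T • x) F = 0) (j : ℕ) :
    eval z ((psi x F).coeff j) = 0 := by
  have h1 : (psi x F).map (eval z) = 0 := by
    refine poly_ext fun T => ?_
    rw [psi_eval, h T, Polynomial.eval_zero]
  have h2 := congrArg (fun p => Polynomial.coeff p j) h1
  simp only [Polynomial.coeff_map, Polynomial.coeff_zero] at h2
  exact h2

theorem mem_ker (hN : S_Null) {P : Ideal (Sx N)} (hP : P.IsPrime) (hH : IsHom P) (x : Vx N)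
    (F : Sx N) :
    F ∈ RingHom.ker (phi P x) ↔ ∀ z ∈ zer P, ∀ T : ℂ, eval (z + T • x) F = 0 := by
  rw [RingHom.mem_ker]
  constructor
  · intro h z hz T
    rw [← psi_eval]
    have h1 : (psi x F).map (Ideal.Quotient.mk P) = 0 := h
    have h2 : (psi x F).map (eval z) = 0 := by
      ext j
      have h3 := congrArg (fun p => Polynomial.coeff p j) h1
      simp only [Polynomial.coeff_map, Polynomial.coeff_zero] at h3
      rw [Polynomial.coeff_map, Polynomial.coeff_zero]
      exact hz _ (Ideal.Quotient.eq_zero_iff_mem.1 h3)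
    rw [h2, Polynomial.eval_zero]
  · intro h
    change (psi x F).map (Ideal.Quotient.mk P) = 0
    ext j
    rw [Polynomial.coeff_map, Polynomial.coeff_zero, Ideal.Quotient.eq_zero_iff_mem]
    exact (hN N P hP hH).1 _ fun z hz => psi_coeff x z F (h z hz) j

theorem eval_smul_sum (w : Vx N) (F : Sx N) (s : ℂ) :
    eval (s • w) F = ∑ m ∈ Finset.range (F.totalDegree + 1),
      s ^ m * eval w (homogeneousComponent m F) := by
  conv_lhs => rw [← sum_homogeneousComponent F]
  rw [map_sum]
  refine Finset.sum_congr rfl fun m _ => ?_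
  exact eval_smul_form (homogeneousComponent_isHomogeneous m F) s w

theorem zer_smul {P : Ideal (Sx N)} (hH : IsHom P) {z : Vx N} (hz : z ∈ zer P) (s : ℂ) :
    s • z ∈ zer P := by
  intro F hF
  rw [eval_smul_sum]
  refine Finset.sum_eq_zero fun m _ => ?_
  rw [hz _ (hH F hF m), mul_zero]

theorem comp_zero (w : Vx N) (F : Sx N) (h : ∀ s : ℂ, eval (s • w) F = 0) (m : ℕ) :
    eval w (homogeneousComponent m F) = 0 := by
  have h1 : (∑ m ∈ Finset.range (F.totalDegree + 1),
      Polynomial.C (eval w (homogeneousComponent m F)) * Polynomial.X ^ m : Polynomial ℂ) = 0 := by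
    refine poly_ext fun s => ?_
    rw [Polynomial.eval_finsetSum, Polynomial.eval_zero, ← h s, eval_smul_sum]
    refine Finset.sum_congr rfl fun m _ => ?_
    simp only [Polynomial.eval_mul, Polynomial.eval_C, Polynomial.eval_pow, Polynomial.eval_X]
    ring
  by_cases hm : m ∈ Finset.range (F.totalDegree + 1)
  · have h2 := congrArg (fun p => Polynomial.coeff p m) h1
    simp only [Polynomial.finsetSum_coeff, Polynomial.coeff_C_mul_X_pow,
      Polynomial.coeff_zero] at h2
    rw [Finset.sum_ite_eq] at h2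
    rw [if_pos hm] at h2
    exact h2
  · rw [Finset.mem_range, not_lt] at hm
    rw [homogeneousComponent_eq_zero m F (by omega), map_zero]

/-- Translation. -/
def trl (x : Vx N) (s : ℂ) : Sx N →ₐ[ℂ] Sx N := aeval fun i => X i + C (s * x i)

theorem trl_eval (x : Vx N) (s : ℂ) (z : Vx N) (F : Sx N) :
    eval z (trl x s F) = eval (z + s • x) F := by
  have h : ((eval z : Sx N →+* ℂ).comp (trl x s : Sx N →ₐ[ℂ] Sx N).toRingHom) =
      (eval (z + s • x) : Sx N →+* ℂ) := by
    refine MvPolynomial.ringHom_ext (fun r => ?_) (fun i => ?_)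
    · simp [trl, MvPolynomial.algebraMap_eq]
    · simp [trl]
  exact DFunLike.congr_fun h F

end JJnAux

open JJnAux

theorem jJn : S_Null → S_JJn := by
  intro hN N I P x hP hH hI
  have hmem := mem_ker hN hP hH x
  have := hP
  refine ⟨RingHom.ker (phi P x), RingHom.ker_isPrime _, ?_, ?_, ?_, ?_, ?_⟩
  · intro F hF m
    rw [hmem] at hF ⊢
    intro z hz T
    refine comp_zero _ F (fun s => ?_) m
    have h1 := hF (s • z) (zer_smul hH hz s) (s * T)
    rw [smul_add, smul_smul]
    exact h1
  · intro F hF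
    rw [hmem]
    intro z hz T
    have h1 := hI z hz T 1 F hF
    have h2 : T • x + (1 : ℂ) • z = z + T • x := by
      rw [one_smul]
      exact add_comm _ _
    rw [h2] at h1
    exact h1
  · intro F hF
    rw [hmem] at hF
    refine (hN N P hP hH).1 F fun z hz => ?_
    have h1 := hF z hz 0
    rw [zero_smul, add_zero] at h1
    exact h1
  · intro v hv s F hF
    rw [hmem] at hF
    rw [← trl_eval]
    refine hv _ ?_
    rw [hmem]
    intro z hz T
    rw [trl_eval, add_assoc, ← add_smul]
    exact hF z hz _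
  · rintro D ⟨i, hi⟩
    refine ⟨i, ?_⟩
    have hle : RingHom.ker (phi P x) ≤ P := by
      intro F hF
      rw [hmem] at hF
      refine (hN N P hP hH).1 F fun z hz => ?_
      have h1 := hF z hz 0
      rw [zero_smul, add_zero] at h1
      exact h1
    exact AlgebraicIndependent.of_comp (Ideal.Quotient.factorₐ ℂ hle) hi

end Pool.Agent.Lib.MP_776403_ag.SD
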