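import Pool.Agent.Lib.MP_776403_ag.SD.J.Spec
import Pool.Agent.Lib.MP_776403_ag.SD.Bas

/-!
# THEOREM SD, stage 2, (G7): the colengths on a line
-/

set_option autoImplicit false

open MvPolynomial

noncomputable section

namespace Pool.Agent.Lib.MP_776403_ag.SD

namespace JLinAux

/-- `lin z x` kills `J`. -/
theorem kill {N : ℕ} {J : Ideal (Sx N)} {x z : Vx N} (h : ∀ s t : ℂ, s • x + t • z ∈ zer J)
    {F : Sx N} (hF : F ∈ J) : lin z x F = 0 := by
  refine poly_ext fun t => ?_
  rw [lin_eval, Polynomial.eval_zero]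
  have h1 := h t 1
  rw [one_smul, add_comm] at h1
  exact h1 F hF

/-- The image of `J ⊔ span s`. -/
theorem map_sup {N : ℕ} {J : Ideal (Sx N)} {x z : Vx N} (h : ∀ s t : ℂ, s • x + t • z ∈ zer J)
    (S : Set (Sx N)) : (J ⊔ Ideal.span S).map (lin z x) = Ideal.span (lin z x '' S) := by
  rw [Ideal.map_sup, Ideal.map_span]
  have h0 : J.map (lin z x) = ⊥ := by
    rw [eq_bot_iff]
    refine Ideal.map_le_iff_le_comap.mpr fun F hF => ?_
    rw [Ideal.mem_comap, Ideal.mem_bot]
    exact kill h hF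
  rw [h0, bot_sup_eq]

/-- The algebra on the line. -/
theorem alg (hPid : S_JPid) {ι κ : Type} [Fintype ι] (u : ι → Polynomial ℂ) (B : ι)
    (huB : u B ≠ 0) (p : κ → ι → Polynomial ℂ)
    (hc : ∀ k α β, p k α * u β = p k β * u α) (k0 : κ) (hk0 : ∀ α, p k0 α = u α)
    (hz : ∀ t : ℂ, ∃ k α, (p k α).eval t ≠ 0) :
    Module.finrank ℂ (Polynomial ℂ ⧸ Ideal.span (Set.range fun k => p k B)) +
      Module.finrank ℂ (Polynomial ℂ ⧸ Ideal.span (Set.range u)) = (u B).natDegree := by
  have hne : Ideal.span (Set.range u) ≠ ⊥ := by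
    intro h
    refine huB ?_
    have h1 : u B ∈ Ideal.span (Set.range u) := Ideal.subset_span ⟨B, rfl⟩
    rw [h, Ideal.mem_bot] at h1
    exact h1
  obtain ⟨ρ, hρ, hA, hfr⟩ := hPid _ hne
  have hρ0 : ρ ≠ 0 := hρ.ne_zero
  have hdvd : ∀ α, ∃ w, u α = ρ * w := by
    intro α
    have h1 : u α ∈ Ideal.span (Set.range u) := Ideal.subset_span ⟨α, rfl⟩
    rw [hA, Ideal.mem_span_singleton] at h1
    exact h1
  choose w hw using hdvd
  have hρm : ρ ∈ Ideal.span (Set.range u) := by
    rw [hA]
    exact Ideal.mem_span_singleton_self ρ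
  obtain ⟨b, hb⟩ := Ideal.mem_span_range_iff_exists_fun.mp hρm
  have hb1 : ∑ α, b α * w α = 1 := by
    refine mul_left_cancel₀ hρ0 ?_
    rw [mul_one, Finset.mul_sum]
    conv_rhs => rw [← hb]
    refine Finset.sum_congr rfl fun α _ => ?_
    rw [hw α]
    ring
  have hpw : ∀ k α β, p k α * w β = p k β * w α := by
    intro k α β
    refine mul_left_cancel₀ hρ0 ?_
    have h1 := hc k α β
    rw [hw α, hw β] at h1
    linear_combination h1
  have hr : ∀ k α, p k α = (∑ β, b β * p k β) * w α := by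
    intro k α
    rw [Finset.sum_mul]
    have h1 : p k α = ∑ β, p k α * (b β * w β) := by
      rw [← Finset.mul_sum, hb1, mul_one]
    conv_lhs => rw [h1]
    refine Finset.sum_congr rfl fun β _ => ?_
    have h2 := hpw k α β
    linear_combination (b β) * h2
  have hrk0 : (∑ β, b β * p k0 β) = ρ := by
    rw [← hb]
    refine Finset.sum_congr rfl fun β _ => ?_
    rw [hk0]
  have hRtop : Ideal.span (Set.range fun k => ∑ β, b β * p k β) = ⊤ := by
    have hRne : Ideal.span (Set.range fun k => ∑ β, b β * p k β) ≠ ⊥ := by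
      intro h
      have h1 : (∑ β, b β * p k0 β) ∈ Ideal.span (Set.range fun k => ∑ β, b β * p k β) :=
        Ideal.subset_span ⟨k0, rfl⟩
      rw [h, Ideal.mem_bot, hrk0] at h1
      exact hρ0 h1
    obtain ⟨g, hg, hgA, -⟩ := hPid _ hRne
    by_contra hcon
    have hdeg : g.degree ≠ 0 := by
      intro h0
      refine hcon ?_
      rw [hgA, Ideal.span_singleton_eq_top]
      exact Polynomial.isUnit_iff_degree_eq_zero.mpr h0
    obtain ⟨t, ht⟩ := IsAlgClosed.exists_root g hdeg
    obtain ⟨k, α, hk⟩ := hz t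
    refine hk ?_
    have h1 : (∑ β, b β * p k β) ∈ Ideal.span {g} := by
      rw [← hgA]
      exact Ideal.subset_span ⟨k, rfl⟩
    obtain ⟨q, hq⟩ := Ideal.mem_span_singleton.mp h1
    rw [hr k α, hq, Polynomial.eval_mul, Polynomial.eval_mul, ht.eq_zero, zero_mul, zero_mul]
  have hAB : Ideal.span (Set.range fun k => p k B) = Ideal.span {w B} := by
    refine le_antisymm ?_ ?_
    · refine Ideal.span_le.mpr ?_
      rintro _ ⟨k, rfl⟩
      refine Ideal.mem_span_singleton.mpr ⟨∑ β, b β * p k β, ?_⟩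
      change p k B = _
      rw [hr k B, mul_comm]
    · rw [Ideal.span_singleton_le_iff_mem]
      have key : ∀ q ∈ Ideal.span (Set.range fun k => ∑ β, b β * p k β),
          q * w B ∈ Ideal.span (Set.range fun k => p k B) := by
        intro q hq
        refine Submodule.span_induction (p := fun q _ =>
          q * w B ∈ Ideal.span (Set.range fun k => p k B)) ?_ ?_ ?_ ?_ hq
        · rintro _ ⟨k, rfl⟩
          refine Ideal.subset_span ⟨k, ?_⟩
          exact hr k B
        · rw [zero_mul]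
          exact Ideal.zero_mem _
        · intro q q' _ _ h1 h2
          rw [add_mul]
          exact Ideal.add_mem _ h1 h2
        · intro a q _ h1
          rw [smul_eq_mul, mul_assoc]
          exact Ideal.mul_mem_left _ a h1
      have h1 := key 1 (by rw [hRtop]; exact Submodule.mem_top)
      rwa [one_mul] at h1
  have hwB : w B ≠ 0 := by
    intro h
    refine huB ?_
    rw [hw B, h, mul_zero]
  have hne2 : Ideal.span (Set.range fun k => p k B) ≠ ⊥ := by
    rw [hAB]
    intro h
    exact hwB (Ideal.span_singleton_eq_bot.mp h)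
  obtain ⟨w', -, hA', hfr'⟩ := hPid _ hne2
  have hass : Associated w' (w B) := by
    rw [← Ideal.span_singleton_eq_span_singleton, ← hA', hAB]
  have hd : w'.natDegree = (w B).natDegree :=
    Polynomial.natDegree_eq_of_degree_eq (Polynomial.degree_eq_degree_of_associated hass)
  rw [hfr, hfr', hd, hw B, Polynomial.natDegree_mul hρ0 hwB, add_comm]

end JLinAux

theorem jLin : S_JPid → S_Hom → S_JMin → S_JLin := by
  intro hPid hHom hMin N c I J hI hIh hS hIJ x z hli hJ L
  have hJI : ∀ s t : ℂ, s • x + t • z ∈ zer I := fun s t F hF => hJ s t F (hIJ hF)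
  obtain ⟨hcom, hnz⟩ := hMin N c I hI hIh hS x z hli hJI
  have hdt := (hHom N c I x z L).1
  have hm : lin z x L.dt ∈ Polynomial.degreeLT ℂ (L.dg + 1) := lin_mem hdt z x
  have hct : (lin z x L.dt).coeff L.dg = eval x L.dt := lin_coeff_top hdt z x
  have hx : eval x L.dt ≠ 0 := L.detx
  have hne : lin z x L.dt ≠ 0 := by
    intro h
    rw [h, Polynomial.coeff_zero] at hct
    exact hx hct.symm
  have hdeg : (lin z x L.dt).natDegree = L.dg := by
    refine le_antisymm ?_ ?_
    · rw [Polynomial.mem_degreeLT] at hm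
      rw [Polynomial.degree_eq_natDegree hne] at hm
      have h1 : (lin z x L.dt).natDegree < L.dg + 1 := by exact_mod_cast hm
      omega
    · refine Polynomial.le_natDegree_of_ne_zero ?_
      rw [hct]
      exact hx
  have h1 := JLinAux.alg hPid (ι := Fin c → Fin (N + 1))
    (κ := {F : Fin c → Sx N // ∀ i, F i ∈ I}) (fun α => lin z x (mnr L.F α)) L.B hne
    (fun k α => lin z x (mnr k.1 α)) (fun k α β => hcom k.1 L.F k.2 L.memF α β) ⟨L.F, L.memF⟩
    (fun α => rfl) (fun t => by
      obtain ⟨F, hF, α, h⟩ := hnz t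
      exact ⟨⟨F, hF⟩, α, h⟩)
  have hB : (idB I J L.B).map (lin z x) = Ideal.span (Set.range
      fun k : {F : Fin c → Sx N // ∀ i, F i ∈ I} => lin z x (mnr k.1 L.B)) := by
    unfold idB
    rw [JLinAux.map_sup hJ]
    refine congrArg Ideal.span ?_
    ext q
    constructor
    · rintro ⟨_, ⟨F, hF, rfl⟩, rfl⟩
      exact ⟨⟨F, hF⟩, rfl⟩
    · rintro ⟨⟨F, hF⟩, rfl⟩
      exact ⟨_, ⟨F, hF, rfl⟩, rfl⟩
  have hF : (idF J L.F).map (lin z x) = Ideal.span (Set.range
      fun α : Fin c → Fin (N + 1) => lin z x (mnr L.F α)) := by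
    unfold idF
    rw [JLinAux.map_sup hJ]
    refine congrArg Ideal.span ?_
    rw [← Set.range_comp]
    rfl
  unfold col
  rw [hB, hF]
  exact h1.trans hdeg

end Pool.Agent.Lib.MP_776403_ag.SD
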