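import Pool.Agent.Lib.MP_776403_ag.SD.J.Spec
import Pool.Agent.Lib.MP_776403_ag.SD.Bas

/-!
# THEOREM SD, stage 2, (G7a): the minors on a line in `X` (helper94)
-/

set_option autoImplicit false

open MvPolynomial

noncomputable section

namespace Pool.Agent.Lib.MP_776403_ag.SD

namespace JMinAux

variable {N : ℕ}

/-- a matrix with independent rows has a nonzero maximal minor -/
private theorem exists_minor {c n : ℕ} (A : Matrix (Fin c) (Fin n) ℂ)
    (h : LinearIndependent ℂ A.row) :
    ∃ B : Fin c → Fin n, Function.Injective B ∧ (Matrix.of fun i b => A i (B b)).det ≠ 0 := by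
  classical
  have h1 : A.rank = c := by rw [h.rank_matrix, Fintype.card_fin]
  obtain ⟨κ, a, ha, hs, hli⟩ := exists_linearIndependent' ℂ A.col
  have : Finite κ := Finite.of_injective a ha
  have := Fintype.ofFinite κ
  have h2 : Fintype.card κ = c := by
    have h3 := linearIndependent_iff_card_eq_finrank_span.1 hli
    rw [h3, Set.finrank, hs, ← Matrix.rank_eq_finrank_span_cols, h1]
  let e : Fin c ≃ κ := (Fintype.equivFinOfCardEq h2).symm
  refine ⟨a ∘ e, ha.comp e.injective, ?_⟩
  have h3 : LinearIndependent ℂ (Matrix.of fun i b => A i ((a ∘ e) b)).col :=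
    hli.comp e e.injective
  have h4 := Matrix.linearIndependent_cols_iff_isUnit.1 h3
  exact ((Matrix.isUnit_iff_isUnit_det _).1 h4).ne_zero

/-- the value of a minor -/
private theorem eval_mnr {c : ℕ} (F : Fin c → Sx N) (α : Fin c → Fin (N + 1)) (y : Vx N) :
    eval y (mnr F α) = (Matrix.of fun i k => grad (F i) y (α k)).det := by
  unfold mnr
  rw [RingHom.map_det]
  rfl

/-- the minors of vectors in a space of dimension `c` -/
private theorem prod_minor {c : ℕ} (W : Submodule ℂ (Vx N)) (hW : Module.finrank ℂ W = c) :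
    ∃ E : (Fin c → Fin (N + 1)) → ℂ, ∀ u : Fin c → Vx N, (∀ i, u i ∈ W) → ∃ d : ℂ,
      ∀ α : Fin c → Fin (N + 1), (Matrix.of fun i k => u i (α k)).det = d * E α := by
  let b : Module.Basis (Fin c) ℂ W := Module.finBasisOfFinrankEq ℂ W hW
  refine ⟨fun α => (Matrix.of fun k l => (b k : Vx N) (α l)).det, fun u hu =>
    ⟨(Matrix.of fun i k => b.repr ⟨u i, hu i⟩ k).det, fun α => ?_⟩⟩
  rw [← Matrix.det_mul]
  congr 1
  ext i l
  rw [Matrix.mul_apply]
  simp only [Matrix.of_apply]
  have h1 := congrArg (fun w : W => (w : Vx N) (α l)) (b.sum_repr ⟨u i, hu i⟩)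
  simp only [Submodule.coe_sum, Submodule.coe_smul, Finset.sum_apply, Pi.smul_apply,
    smul_eq_mul] at h1
  exact h1.symm

end JMinAux

open JMinAux in
/-- The minors on a line in `X`. -/
theorem jMin : S_CN → S_JMin := by
  intro hCN N c I _ _ hS x z hli hz
  have hy : ∀ t : ℂ, z + t • x ∈ zer I := fun t => by
    have h := hz t 1
    rwa [one_smul, add_comm] at h
  have hy0 : ∀ t : ℂ, z + t • x ≠ 0 := fun t => by
    have h := line_ne_zero hli (s := t) (t := 1) (Or.inr one_ne_zero)
    rwa [one_smul, add_comm] at h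
  refine ⟨fun F F' hF hF' α β => poly_ext fun t => ?_, fun t => ?_⟩
  · obtain ⟨hfr, hmem, -⟩ := hCN N c I hS _ (hy t) (hy0 t)
    obtain ⟨E, hE⟩ := prod_minor (CN I (z + t • x)) hfr
    obtain ⟨d, hd⟩ := hE (fun i => grad (F i) (z + t • x)) fun i => hmem _ (hF i)
    obtain ⟨d', hd'⟩ := hE (fun i => grad (F' i) (z + t • x)) fun i => hmem _ (hF' i)
    simp only [Polynomial.eval_mul, lin_eval, eval_mnr]
    rw [hd, hd, hd', hd']
    ring
  · obtain ⟨F, f, h, e, hF, -, hhx, hind, hmul⟩ := hS _ (hy t) (hy0 t)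
    obtain ⟨B, hB, hdet⟩ := exists_minor (Matrix.of fun i => grad (F i) (z + t • x)) hind
    refine ⟨F, fun i => (hF i).1, B, ?_⟩
    rw [lin_eval, eval_mnr]
    exact hdet

end Pool.Agent.Lib.MP_776403_ag.SD
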