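import Pool.Agent.Lib.MP_776403_ag.SD.J.Spec
import Pool.Agent.Lib.MP_776403_ag.SD.M.Gro
import Pool.Agent.Lib.MP_776403_ag.SD.NBin

/-!
# THEOREM SD, stage 2, (GL2): the numerical step
-/

set_option autoImplicit false

noncomputable section

namespace Pool.Agent.Lib.MP_776403_ag.SD

/-- The numerical step. -/
theorem jNum : S_JNum := by
  intro H c δ a hc hG hH
  by_contra hne
  have h1 : Gw (c - 1) (fun m => ∑ A ∈ ({0} : Finset (Fin 1)).powerset,
      (-1) ^ A.card * H (m - ∑ i ∈ A, (fun _ : Fin 1 => a) i -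
        (c + δ) * (({0} : Finset (Fin 1)) \ A).card)) := by
    refine hG.of_eventually_eq (Filter.Eventually.of_forall fun m => ?_)
    have h0 : ({0} : Finset (Fin 1)).powerset = {∅, {0}} := by decide
    rw [h0, Finset.sum_insert (by decide), Finset.sum_singleton]
    simp only [Finset.card_empty, pow_zero, one_mul, Finset.sum_empty, Finset.sdiff_empty,
      Finset.card_singleton, mul_one, Finset.sum_singleton, Finset.sdiff_self, mul_zero,
      Nat.sub_zero, pow_one]
    rw [Nat.sub_sub m c δ]
    ring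
  have h2 := mGro (c - 1) (Fin 1) (fun _ => a) (c + δ) {0} (fun i _ h => hne h.symm) H h1
  rw [Finset.card_singleton, Nat.sub_add_cancel hc] at h2
  obtain ⟨C, hC⟩ := h2
  obtain ⟨m, hm1, hm2⟩ := (hC.and (nBin (c + 1) C (by omega))).exists
  have h3 := hH m
  have h4 := le_abs_self (H m)
  rw [Nat.add_sub_cancel] at hm2
  linarith

end Pool.Agent.Lib.MP_776403_ag.SD
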