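import Pool.Agent.Lib.MP_776403_ag.SD.J.Spec
import Pool.Agent.Lib.MP_776403_ag.SD.Bas

/-!
# THEOREM SD, stage 2, (GL2): reversal and translation on a line
-/

set_option autoImplicit false

open MvPolynomial

noncomputable section

namespace Pool.Agent.Lib.MP_776403_ag.SD

namespace JRevAux

variable {N : ℕ}

theorem natDegree_lin_le {F : Sx N} {m : ℕ} (hF : F.IsHomogeneous m) (x v : Vx N) :
    (lin x v F).natDegree < m + 1 := by
  have h := lin_mem hF x v
  by_cases h0 : lin x v F = 0
  · rw [h0, Polynomial.natDegree_zero]; lia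
  · rw [Polynomial.mem_degreeLT, Polynomial.degree_eq_natDegree h0] at h
    exact_mod_cast h

/-- Exchanging the two points reverses the restriction of a form. -/
theorem lin_swap {F : Sx N} {m : ℕ} (hF : F.IsHomogeneous m) (x z : Vx N) :
    lin z x F = Polynomial.reflect m (lin x z F) := by
  refine poly_ext fun s => ?_
  have h1 := lin_hom hF x z s 1
  rw [one_smul] at h1
  rw [lin_eval, add_comm z, ← h1]
  have hd : (Polynomial.reflect m (lin x z F)).natDegree < m + 1 := by
    refine Nat.lt_succ_of_le (Polynomial.natDegree_le_iff_coeff_eq_zero.mpr fun j hj => ?_)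
    rw [Polynomial.coeff_reflect, Polynomial.revAt_eq_self_of_lt hj]
    exact Polynomial.coeff_eq_zero_of_natDegree_lt
      (lt_of_lt_of_le (natDegree_lin_le hF x z) hj)
  rw [Polynomial.eval_eq_sum_range' hd, ← Finset.sum_range_reflect]
  refine Finset.sum_congr rfl fun j hj => ?_
  have hj' : j ≤ m := Nat.lt_succ_iff.mp (Finset.mem_range.mp hj)
  have e1 : m + 1 - 1 - j = m - j := by lia
  rw [e1, Polynomial.coeff_reflect, Polynomial.revAt_le hj', one_pow, mul_one,
    Nat.sub_sub_self hj']

theorem sum_comp (F : Sx N) : ∑ i ∈ Finset.range (F.totalDegree + 1),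
    homogeneousComponent i F = F := sum_homogeneousComponent F

end JRevAux

/-- (G10b) Reversal. -/
theorem jRev : S_JPid → S_JRev := by
  intro hPid N A hA x z D g hDA hDg hDx
  have hxz0 : (lin x z D).coeff 0 = eval x D := by
    rw [Polynomial.coeff_zero_eq_eval_zero, lin_eval, zero_smul, add_zero]
  have hE : A.map (lin x z) ≠ ⊥ := by
    intro h
    have h1 : lin x z D ∈ A.map (lin x z) := Ideal.mem_map_of_mem _ hDA
    rw [h, Ideal.mem_bot] at h1
    rw [h1, Polynomial.coeff_zero] at hxz0
    exact hDx hxz0.symm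
  have hW : A.map (lin z x) ≠ ⊥ := by
    intro h
    have h1 : lin z x D ∈ A.map (lin z x) := Ideal.mem_map_of_mem _ hDA
    rw [h, Ideal.mem_bot] at h1
    have h2 := lin_coeff_top hDg z x
    rw [h1, Polynomial.coeff_zero] at h2
    exact hDx h2.symm
  obtain ⟨e, he, hEe, hk⟩ := hPid _ hE
  obtain ⟨w, hw, hWw, hl⟩ := hPid _ hW
  unfold col
  rw [hk, hl]
  have he0 : e.coeff 0 ≠ 0 := by
    intro h
    have h1 : lin x z D ∈ A.map (lin x z) := Ideal.mem_map_of_mem _ hDA
    rw [hEe, Ideal.mem_span_singleton] at h1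
    obtain ⟨q, hq⟩ := h1
    rw [hq, Polynomial.mul_coeff_zero, h, zero_mul] at hxz0
    exact hDx hxz0.symm
  have hdiv : ∀ F ∈ A, e.reverse ∣ lin z x F := by
    intro F hF
    have hform : ∀ (n : ℕ) (G : Sx N), G ∈ A → G.IsHomogeneous n → e.reverse ∣ lin z x G := by
      intro n G hGA hGn
      have h1 : lin x z G ∈ A.map (lin x z) := Ideal.mem_map_of_mem _ hGA
      rw [hEe, Ideal.mem_span_singleton] at h1
      obtain ⟨q, hq⟩ := h1
      rw [JRevAux.lin_swap hGn x z]
      by_cases hq0 : q = 0
      · rw [hq, hq0, mul_zero, Polynomial.reflect_zero]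
        exact dvd_zero _
      have h2 : e.natDegree + q.natDegree ≤ n := by
        have h3 := JRevAux.natDegree_lin_le hGn x z
        rw [hq, Polynomial.natDegree_mul he.ne_zero hq0] at h3
        lia
      obtain ⟨r, hr⟩ := Nat.exists_eq_add_of_le (le_trans (Nat.le_add_right _ _) h2)
      have h4 : q.natDegree ≤ r := by lia
      rw [hq, hr, Polynomial.reflect_mul e q le_rfl h4]
      exact Dvd.intro _ rfl
    rw [← JRevAux.sum_comp F, map_sum]
    exact Finset.dvd_sum fun i _ => hform i _ (hA F hF i) (homogeneousComponent_isHomogeneous i F)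
  have hle : A.map (lin z x) ≤ Ideal.span {e.reverse} := by
    rw [Ideal.map_le_iff_le_comap]
    intro F hF
    rw [Ideal.mem_comap, Ideal.mem_span_singleton]
    exact hdiv F hF
  have hew : e.reverse ∣ w := by
    rw [← Ideal.mem_span_singleton]
    refine hle ?_
    rw [hWw]
    exact Ideal.mem_span_singleton_self w
  have hrd : e.reverse.natDegree = e.natDegree := by
    rw [Polynomial.reverse_natDegree, Polynomial.natTrailingDegree_eq_zero.mpr (Or.inr he0),
      Nat.sub_zero]
  rw [← hrd]
  exact Polynomial.natDegree_le_of_dvd hew hw.ne_zero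

/-- (G10c) Translation. -/
theorem jTr : S_JTr := by
  intro N A x z μ
  have h1 : ∀ F : Sx N, lin (z + μ • x) x F =
      Polynomial.algEquivAevalXAddC μ (lin z x F) := by
    intro F
    refine poly_ext fun t => ?_
    have h2 : (Polynomial.algEquivAevalXAddC μ (lin z x F)).eval t =
        (lin z x F).eval (t + μ) := by
      rw [Polynomial.algEquivAevalXAddC_apply, ← Polynomial.comp_eq_aeval, Polynomial.eval_comp]
      simp
    rw [h2, lin_eval, lin_eval, add_smul]
    congr 2
    rw [add_assoc, add_comm (μ • x)]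
  have h3 : A.map (lin (z + μ • x) x) = (A.map (lin z x)).map
      ((Polynomial.algEquivAevalXAddC μ : Polynomial ℂ ≃ₐ[ℂ] Polynomial ℂ) :
        Polynomial ℂ →+* Polynomial ℂ) := by
    refine le_antisymm ?_ ?_
    · rw [Ideal.map_le_iff_le_comap]
      intro F hF
      rw [Ideal.mem_comap, h1 F]
      exact Ideal.mem_map_of_mem _ (Ideal.mem_map_of_mem _ hF)
    · rw [Ideal.map_le_iff_le_comap, Ideal.map_le_iff_le_comap]
      intro F hF
      rw [Ideal.mem_comap, Ideal.mem_comap]
      have h4 : lin (z + μ • x) x F ∈ A.map (lin (z + μ • x) x) := Ideal.mem_map_of_mem _ hF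
      rw [h1 F] at h4
      exact h4
  unfold col
  exact (LinearEquiv.finrank_eq (Ideal.quotientEquivAlg _ _ (Polynomial.algEquivAevalXAddC μ)
    h3).toLinearEquiv).symm

end Pool.Agent.Lib.MP_776403_ag.SD
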