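import Pool.Agent.Lib.MP_776403_ag.SD.J.Asm
import Pool.Agent.Lib.MP_776403_ag.SD.J.Big
import Pool.Agent.Lib.MP_776403_ag.SD.J.Cr
import Pool.Agent.Lib.MP_776403_ag.SD.J.Dec
import Pool.Agent.Lib.MP_776403_ag.SD.J.Fit
import Pool.Agent.Lib.MP_776403_ag.SD.J.HF
import Pool.Agent.Lib.MP_776403_ag.SD.J.Jn
import Pool.Agent.Lib.MP_776403_ag.SD.J.Lin
import Pool.Agent.Lib.MP_776403_ag.SD.J.Min
import Pool.Agent.Lib.MP_776403_ag.SD.J.Num
import Pool.Agent.Lib.MP_776403_ag.SD.J.Pid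
import Pool.Agent.Lib.MP_776403_ag.SD.J.Rev
import Pool.Agent.Lib.MP_776403_ag.SD.J.Sur
import Pool.Agent.Lib.MP_776403_ag.SD.Null
import Pool.Agent.Lib.MP_776403_ag.SD.D1
import Pool.Agent.Lib.MP_776403_ag.SD.D6p
import Pool.Agent.Lib.MP_776403_ag.SD.E.CN
import Pool.Agent.Lib.MP_776403_ag.SD.E.CrL
import Pool.Agent.Lib.MP_776403_ag.SD.E.Good
import Pool.Agent.Lib.MP_776403_ag.SD.E.Hom
import Pool.Agent.Lib.MP_776403_ag.SD.E.LinB
import Pool.Agent.Lib.MP_776403_ag.SD.E.LineI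
import Pool.Agent.Lib.MP_776403_ag.SD.E.Loc

/-!
# THEOREM SD, stage 2, (GL2): the final statements
-/

set_option autoImplicit false

open MvPolynomial

noncomputable section

namespace Pool.Agent.Lib.MP_776403_ag.SD

/-- (GL2) for a cone of lines with vertex `x`, with a number. -/
theorem jVbfin : S_JVb :=
  jVb eLoc (eGood (eHom eLinB)) (eHom eLinB) tD1 (jLin jPid (eHom eLinB) (jMin eCN))
    (jCst jPid tNull (jDec tNull) (jCr jPid (jDec tNull)))
    (jBig (jDec tNull) tNull tD6p (jCr jPid (jDec tNull)))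
    (jInj jPid tNull (jDec tNull)) (jHF (jDec tNull) tNull) (jLam tNull eCN) jNum (jFit jPid)
    (jRev jPid) jTr (jSur (eHom eLinB) (eCrL eLinB) (eLineI eLinB))

/-- (GL2) for a cone of lines with vertex `x`. -/
theorem jVfin : S_JV := jV jVbfin

/-- (GL2) for a cone of lines, in general position. -/
theorem jL2 : S_JV → S_JJn → S_JL2 := by
  intro hV hJn N c d I hI hIh hS hc hnum P hP hPh hdim x hx0 hline v hv hind
  obtain ⟨J, hJ, hJh, hIJ, hJP, hJv, hJd⟩ := hJn N I P x hP hPh hline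
  have hvJ : v ∈ zer J := fun F hF => hv F (hJP hF)
  have hxI : x ∈ zer I := by
    have := hline v hv 1 0
    rwa [one_smul, zero_smul, add_zero] at this
  refine hV N c d I J x hc hI hIh hS hJ hJh hIJ hxI hx0 hJv ?_ (hJd _ hdim) (hnum J hJ hJh hIJ)
    v hvJ hind
  intro z hz s t F hF
  have h1 := hJv _ (JInjAux.zer_smul hJh hz t) s
  rw [add_comm] at h1
  exact h1 F (hIJ hF)

/-- (GL2) for a cone of lines. -/
theorem jL2fin : S_JL2 := jL2 jVfin (jJn tNull)

end Pool.Agent.Lib.MP_776403_ag.SD
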