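import Pool.Agent.Lib.MP_776403_ag.SD.SpecE
import Pool.Agent.Lib.MP_776403_ag.SD.SpecD
import Pool.Agent.Lib.MP_776403_ag.SD.M.NN

/-!
# THEOREM SD, stage 2, (GL2): the conormal bundle on the lines of a cone of lines

`J ≥ I` homogeneous prime ideal of a cone of lines of `X` through `x` (`zer J` is stable under
`v ↦ v + s x`), of dimension at least `c + 2`.  If the Hilbert function of `Λ^c N_X^*` on the cone is
that of `O(-a)`, `a = ∑ d i`, up to `O(m^(c-1))`, then the conormal bundle has degree `-a` on all lines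
of the cone.

NOTATION: `λ = lfm a` a linear form with `λ(x) = 1`; `S = S0[λ]`, `S0 = {F | prj a x F = F}`;
`dcp a x F = F(X - λ x + T x) ∈ S0[T]` is `F` as a polynomial in `λ`.  `col A x z` = colength of the
ideal generated by the `F(z + T x)`, `F ∈ A`.
-/

set_option autoImplicit false

open MvPolynomial

noncomputable section

namespace Pool.Agent.Lib.MP_776403_ag.SD

variable {N : ℕ}

/-- The linear form `λ = ∑ a_i X_i`. -/
def lfm (a : Vx N) : Sx N := ∑ i, C (a i) * X i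

/-- `F(X - λ x)`. -/
def prj (a x : Vx N) : Sx N →ₐ[ℂ] Sx N := aeval fun i => X i - C (x i) * lfm a

/-- `F(X - λ x + T x)`, a polynomial in `T`. -/
def dcp (a x : Vx N) : Sx N →ₐ[ℂ] Polynomial (Sx N) :=
  aeval fun i => Polynomial.C (X i - C (x i) * lfm a) + Polynomial.C (C (x i)) * Polynomial.X

/-- The polynomials of degree `< δ` in `λ`. -/
def Low (a x : Vx N) (δ : ℕ) : Submodule ℂ (Sx N) where
  carrier := {F | ∀ j, δ ≤ j → (dcp a x F).coeff j = 0}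
  zero_mem' := fun j _ => by simp
  add_mem' := fun {F G} hF hG j hj => by rw [map_add, Polynomial.coeff_add, hF j hj, hG j hj, add_zero]
  smul_mem' := fun r F hF j hj => by rw [map_smul, Polynomial.coeff_smul, hF j hj, smul_zero]

/-- `zer J` is a cone with vertex `x`. -/
def Vtx (J : Ideal (Sx N)) (x : Vx N) : Prop := ∀ v ∈ zer J, ∀ s : ℂ, v + s • x ∈ zer J

/-- The colength of the ideal generated by the `F(z + T x)`, `F ∈ A`. -/
def col (A : Ideal (Sx N)) (x z : Vx N) : ℕ :=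
  Module.finrank ℂ (Polynomial ℂ ⧸ A.map (lin z x))

/-- (G1) The decomposition.  (`∑ i, a i * x i = λ(x)`, `∑ i, a i * z i = λ(z)`.)

PROOF: (1) `T ↦ λ` composed with `dcp` is the identity on the variables.  (2), (3) `prj ∘ prj = prj`
(`prj λ = 0` as `λ(x) = 1`), `dcp ∘ prj = C ∘ prj`, `(prj, coefficientwise) ∘ dcp = dcp`: on the
variables.  (4) `dcp λ = T`; `p = ∑ p_j T^j` with `prj p_j = p_j`.  (5), (6) on the variables.
(7) `dcp F` for a monomial `F`, or: `S_LinS`-style; the substitution is homogeneous if `T` has degree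
`1`.  (8) from (7): `F` is the sum of its components `F_n`; `(dcp F_n).coeff j` is a form of degree
`n - j` (`0` if `n < j`), these are the components of `(dcp F).coeff j = 0`.
(9) `F ∈ J`, `z ∈ zer J`: `F(z - λ(z) x + T x) = 0` for all `T ∈ ℂ`, so all `(dcp F).coeff j` vanish at `z`;
`S_Null`. -/
def S_JDec : Prop :=
  ∀ (N : ℕ) (a x : Vx N), ∑ i, a i * x i = 1 →
    (∀ F : Sx N, (dcp a x F).eval (lfm a) = F) ∧
    (∀ F : Sx N, prj a x F = F → dcp a x F = Polynomial.C F) ∧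
    (∀ (F : Sx N) (j : ℕ), prj a x ((dcp a x F).coeff j) = (dcp a x F).coeff j) ∧
    (∀ p : Polynomial (Sx N), (∀ j, prj a x (p.coeff j) = p.coeff j) →
      dcp a x (p.eval (lfm a)) = p) ∧
    (∀ (z : Vx N) (F : Sx N), eval z (prj a x F) = eval (z - (∑ i, a i * z i) • x) F) ∧
    (∀ z : Vx N, ∑ i, a i * z i = 0 → ∀ F : Sx N, (dcp a x F).map (eval z) = lin z x F) ∧
    (∀ (F : Sx N) (n : ℕ), F.IsHomogeneous n →
      ∀ j, (j ≤ n → ((dcp a x F).coeff j).IsHomogeneous (n - j)) ∧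
        (n < j → (dcp a x F).coeff j = 0)) ∧
    (∀ (δ n : ℕ) (F : Sx N), F ∈ Low a x δ → homogeneousComponent n F ∈ Low a x δ) ∧
    ∀ J : Ideal (Sx N), J.IsPrime → IsHom J → Vtx J x → ∀ F ∈ J,
      prj a x F ∈ J ∧ ∀ j, (dcp a x F).coeff j ∈ J

/-- (G0) The generator of a nonzero ideal of `ℂ[T]`.  PROOF: principal ideal domain;
`Polynomial.finrank_quotient_span_eq_natDegree`. -/
def S_JPid : Prop :=
  ∀ A : Ideal (Polynomial ℂ), A ≠ ⊥ → ∃ w : Polynomial ℂ, w.Monic ∧ A = Ideal.span {w} ∧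
    Module.finrank ℂ (Polynomial ℂ ⧸ A) = w.natDegree

/-- (G2) CRAMER.  `δ = col A x z`.

PROOF.  `lin z x D` has degree `g` (`lin_coeff_top`, coefficient `D(x)`).  `A_z = A.map (lin z x) = (w)`,
`w` monic of degree `δ ≤ g` (`S_JPid`).  `lin z x` is surjective (`z`, `x` are independent: `λ ↦ T`),
so for `δ ≤ j < g` there is `G_j ∈ A` with `lin z x G_j = T^(j-δ) w`.  Reduction modulo `D`: for every
`F` there is `q` with `(dcp (F - q D)).coeff i = 0` for `i ≥ g` (induction on the degree `n ≥ g` of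
`dcp F`: subtract `D(x)⁻¹ l λ^(n-g) D`, `l` = leading coefficient of `dcp F`, `prj l = l`, so `dcp l = C l`;
`dcp D` has degree `g` and leading coefficient the constant `D(x)`: it is a form of degree `0` and its
value at `z` is the coefficient of `lin z x D`).  `R_j = G_j - q_j D ∈ A`; `lin z x R_j` and `T^(j-δ) w` have
degree `< g`, so `lin z x (q_j) = 0` and `lin z x R_j = T^(j-δ) w`.  The matrix
`m = ((dcp R_j).coeff i)_(δ ≤ i, j < g)` has the value at `z` of a unitriangular matrix; `Q = det m`,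
`Q(z) = 1`, `prj Q = Q`; `G = ∑_j' adj(m)_(j j') R_j'` (`prj` fixes the entries of `m` and of `adj m`,
so `dcp` of them is `C` of them). -/
def S_JCr : Prop :=
  ∀ (N : ℕ) (a x : Vx N), ∑ i, a i * x i = 1 → ∀ (A : Ideal (Sx N)) (D : Sx N) (g : ℕ), D ∈ A →
    D.IsHomogeneous g → eval x D ≠ 0 → ∀ z : Vx N, z ≠ 0 → ∑ i, a i * z i = 0 →
    ∃ Q : Sx N, eval z Q ≠ 0 ∧ ∀ j, col A x z ≤ j → j < g → ∃ G ∈ A, ∀ i, col A x z ≤ i →
      (dcp a x G).coeff i = if i = j then prj a x Q else 0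

/-- (G3) PROOF.  `b = {Q | ∀ j, δ ≤ j < g → ∃ G ∈ A, ∀ i ≥ δ, (dcp G).coeff i = if i = j then prj Q else 0}` is
an ideal (`dcp (prj R) = C (prj R)`), it contains `λ` (`prj λ = 0`) and `J` (`G = λ^j prj Q`,
`prj Q ∈ J ≤ A`).  Its only zero is `0` (`S_JCr`), so it contains all forms of degree `≥ ρ₀` (`S_D6'`).
CLAIM: `n ≥ ρ = ρ₀ + g`, `k ≤ n`, `r` a form of degree `n - k`: `λ^k prj r ∈ A + Low δ`.  Induction on `k`:
clear for `k < δ`; `δ ≤ k < g`: `r ∈ b`; `k ≥ g`: `λ^(k-g) prj(r) D ∈ A`, and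
`D = D(x) λ^g + ∑_(i<g) λ^i D_i`, `D_i = prj D_i` a form of degree `g - i`.  So every form `F` of degree
`n` is in `A + Low δ`; take components of degree `n` (`A` and `Low` are homogeneous). -/
def S_JBig : Prop :=
  ∀ (N : ℕ) (a x : Vx N), ∑ i, a i * x i = 1 → ∀ (J A : Ideal (Sx N)), J.IsPrime → IsHom J →
    Vtx J x → IsHom A → J ≤ A → ∀ (D : Sx N) (g : ℕ), D ∈ A → D.IsHomogeneous g →
    eval x D ≠ 0 → ∀ δ : ℕ, (∀ z ∈ zer J, z ≠ 0 → ∑ i, a i * z i = 0 → col A x z ≤ δ) →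
    ∃ ρ : ℕ, ∀ n ≥ ρ, ∀ F : Sx N, F.IsHomogeneous n →
      ∃ G ∈ A, G.IsHomogeneous n ∧ F - G ∈ Low a x δ

/-- (G4) PROOF.  Let `F ∈ A ∩ Low δ`, `C_j = (dcp F).coeff j`.  For `z₀ ∈ zer J`, `z₀ ≠ 0`, `λ(z₀) = 0`:
`lin z₀ x F = ∑ C_j(z₀) T^j` is in `A.map (lin z₀ x) = (w)`, `w ≠ 0` of degree `≥ δ` (`S_JPid`), so it is
`0`: `C_j(z₀) = 0`.  For `z ∈ zer J`: `C_j(z) = C_j(z - λ(z) x)`, `z₀ = z - λ(z) x ∈ zer J`; if `z₀ = 0` use
`C_j(ε z₁) = 0` for `ε ≠ 0`, so for `ε = 0` (polynomial in `ε`).  So `C_j ∈ J` (`S_Null`), `F = ∑ C_j λ^j`. -/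
def S_JInj : Prop :=
  ∀ (N : ℕ) (a x : Vx N), ∑ i, a i * x i = 1 → ∀ (J A : Ideal (Sx N)), J.IsPrime → IsHom J →
    Vtx J x → ∀ (D : Sx N) (g : ℕ), D ∈ A → D.IsHomogeneous g → eval x D ≠ 0 →
    (∃ z ∈ zer J, z ≠ 0 ∧ ∑ i, a i * z i = 0) →
    ∀ δ : ℕ, (∀ z ∈ zer J, z ≠ 0 → ∑ i, a i * z i = 0 → δ ≤ col A x z) →
    ∀ F ∈ A, F ∈ Low a x δ → F ∈ J

/-- The degree `n` part of the image of `A` in `S / J`. -/
def grA (J A : Ideal (Sx N)) (n : ℕ) : Submodule ℂ (Sx N ⧸ J) :=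
  (homogeneousSubmodule (Fin (N + 1)) ℂ n ⊓ A.restrictScalars ℂ).map
    (Ideal.Quotient.mkₐ ℂ J).toLinearMap

/-- (G5) THE HILBERT FUNCTION OF `A`.

PROOF.  Let `R = S/J`, `L_n ⊆ gr J n` the image of the forms of degree `n` in `Low δ`.  For `n ≥ ρ`:
`gr J n = grA J A n ⊕ L_n`: sum by the first hypothesis; if `F ∈ A`, `L ∈ Low δ` forms, `F - L ∈ J ≤ A`,
then `L ∈ A ∩ Low δ ≤ J`.  For `n ≥ δ`: `gr J n = λ^δ gr J (n-δ) ⊕ L_n`, and multiplication by `λ^δ` is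
injective on `S/J` (`λ ∉ J` as `λ(x) = 1`, `x ∈ zer J`): sum: `F = (dcp F).eval λ`, the part of `dcp F` of
degree `≥ δ` is divisible by `T^δ`, the quotient, evaluated at `λ`, is a form of degree `n - δ`
(`S_JDec` (7)); intersection: `λ^δ b - L ∈ J`, `L ∈ Low δ`, `dcp (λ^δ b - L) = T^δ dcp b - dcp L` has all
coefficients in `J` (`S_JDec` (9)), those of degree `≥ δ` are those of `dcp b`, so `b ∈ J`.  So both
`grA J A n` and `gr J (n-δ)` have dimension `dim gr J n - dim L_n`. -/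
def S_JHF : Prop :=
  ∀ (N : ℕ) (a x : Vx N), ∑ i, a i * x i = 1 → ∀ (J A : Ideal (Sx N)), J.IsPrime → IsHom J →
    x ∈ zer J → Vtx J x → J ≤ A → ∀ δ : ℕ,
    (∃ ρ : ℕ, ∀ n ≥ ρ, ∀ F : Sx N, F.IsHomogeneous n →
      ∃ G ∈ A, G.IsHomogeneous n ∧ F - G ∈ Low a x δ) →
    (∀ F ∈ A, F ∈ Low a x δ → F ∈ J) →
    ∀ᶠ n : ℕ in Filter.atTop,
      Module.finrank ℂ (grA J A n) = Module.finrank ℂ (gr J (n - δ))

/-- (G6) THE COLENGTH IS CONSTANT.

PROOF.  Let `z₁, z₂` be as in the claim; `S_JCr` for `A, z₁` gives `Q₁`, for `A', z₂` it gives `Q₂`.  Let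
`(z₁)_i ≠ 0`.  `prj Q₁ (z₁) = Q₁(z₁) ≠ 0`, so `prj Q₁ ∉ J`; likewise `prj Q₂`, `prj X_i`.  `J` is prime:
there is `z ∈ zer J` where the product is not zero (`S_Null`), `z₃ = z - λ(z) x ∈ zer J`, `λ(z₃) = 0`, and
`Q₁(z₃), Q₂(z₃), (z₃)_i ≠ 0`.  CLAIM `col A x z₃ ≤ col A x z₁ = δ₁`: `A.map (lin z₃ x) = (w)`; `deg w ≤ g`
(`lin z₃ x D ≠ 0` has degree `g`); if `deg w > δ₁` then for `j = deg w - 1` the element
`lin z₃ x G` (`G` of `S_JCr` for `z₁` and `j`) of `(w)` has degree exactly `j < deg w` (coefficients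
`Q₁(z₃) [i = j]` for `i ≥ δ₁`): contradiction.  In the same way `col A' x z₃ ≤ col A' x z₂`.  So
`g = col A x z₃ + col A' x z₃ ≤ col A x z₁ + col A' x z₂ = col A x z₁ + g - col A x z₂`, for all
`z₁, z₂`: `col A x z₂ ≤ col A x z₁`. -/
def S_JCst : Prop :=
  ∀ (N : ℕ) (a x : Vx N), ∑ i, a i * x i = 1 → ∀ (J A A' : Ideal (Sx N)), J.IsPrime → IsHom J →
    Vtx J x → ∀ (D : Sx N) (g : ℕ), D ∈ A → D ∈ A' → D.IsHomogeneous g → eval x D ≠ 0 →
    (∀ z ∈ zer J, z ≠ 0 → ∑ i, a i * z i = 0 → col A x z + col A' x z = g) →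
    ∀ z₁ ∈ zer J, z₁ ≠ 0 → ∑ i, a i * z₁ i = 0 → ∀ z₂ ∈ zer J, z₂ ≠ 0 → ∑ i, a i * z₂ i = 0 →
      col A x z₂ ≤ col A x z₁

/-- The minor of the Jacobian matrix of `F` with the columns `α`. -/
def mnr {c : ℕ} (F : Fin c → Sx N) (α : Fin c → Fin (N + 1)) : Sx N :=
  Matrix.det (Matrix.of fun i k => pderiv (α k) (F i))

/-- The ideal generated by `J` and all minors with the columns `B`. -/
def idB {c : ℕ} (I J : Ideal (Sx N)) (B : Fin c → Fin (N + 1)) : Ideal (Sx N) :=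
  J ⊔ Ideal.span {G | ∃ F : Fin c → Sx N, (∀ i, F i ∈ I) ∧ G = mnr F B}

/-- The ideal generated by `J` and all minors of the forms `F`. -/
def idF {c : ℕ} (J : Ideal (Sx N)) (F : Fin c → Sx N) : Ideal (Sx N) :=
  J ⊔ Ideal.span (Set.range (mnr F))

/-- (G7a) The minors on a line in `X`.

PROOF.  (1) At a point `y ≠ 0` of the line `CN I y` has dimension `c` (`S_CN`) and contains all
`grad (F i) y`, `F i ∈ I`.  Let `e_1, ..., e_c` be a basis; `grad (F i) y = ∑ C_(i k) e_k`, so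
`(mnr F α)(y) = det C · det (e_k (α l))`, and the products commute.  `lin z x` evaluated at `T` is the value
at `z + T x ≠ 0` (`lin_eval`, `poly_ext`).  (2) `Smooth` at `y = z + T x`: independent gradients of forms
`F i ∈ I`, so some minor is not zero (`Matrix` rank; compare `E/Loc.lean`). -/
def S_JMin : Prop :=
  ∀ (N c : ℕ) (I : Ideal (Sx N)), I.IsPrime → IsHom I → Smooth I c → ∀ (x z : Vx N),
    LinearIndependent ℂ ![x, z] → (∀ s t : ℂ, s • x + t • z ∈ zer I) →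
    (∀ F F' : Fin c → Sx N, (∀ i, F i ∈ I) → (∀ i, F' i ∈ I) → ∀ α β : Fin c → Fin (N + 1),
      lin z x (mnr F α) * lin z x (mnr F' β) = lin z x (mnr F β) * lin z x (mnr F' α)) ∧
    ∀ t : ℂ, ∃ F : Fin c → Sx N, (∀ i, F i ∈ I) ∧ ∃ α, (lin z x (mnr F α)).eval t ≠ 0

/-- (G7) THE COLENGTHS ON A LINE.

PROOF.  `lin z x` kills `J`.  `u_α = lin z x (mnr L.F α)`; `u_B = lin z x L.dt` has degree `L.dg` (`S_Hom`
(`L.dt` is a form of degree `L.dg`), `lin_coeff_top`: coefficient `Δ(x) ≠ 0`).  `idF.map = (ρ)`, `ρ` monic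
(`S_JPid`), `u_α = ρ w_α`, `∑ b_α u_α = ρ`, so `∑ b_α w_α = 1`.  For `F' ∈ I^c`, `p_α = lin z x (mnr F' α)`:
`p_α u_β = p_β u_α` (`S_JMin`), so `p_α w_β = p_β w_α`, so `p_α = r(F') w_α` with `r(F') = ∑ b_β p_β`.  So
`idB.map = (r(F') w_B : F') = (w_B) · (r(F') : F')`, and the ideal `(r(F') : F')` is `(1)`: otherwise
its generator has a zero `t`, all `p_α` vanish at `t` for all `F'`: contradiction to `S_JMin` (2).  So
`idB.map = (w_B)`, `u_B = ρ w_B`: degrees. -/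
def S_JLin : Prop :=
  ∀ (N c : ℕ) (I J : Ideal (Sx N)), I.IsPrime → IsHom I → Smooth I c → I ≤ J → ∀ (x z : Vx N),
    LinearIndependent ℂ ![x, z] → (∀ s t : ℂ, s • x + t • z ∈ zer J) → ∀ L : Loc I x c,
    col (idB I J L.B) x z + col (idF J L.F) x z = L.dg

/-- (G8) PROOF.  (0) If `F i` is a form of degree `f i` and `F i ∈ I`, `F i ≠ 0` then `f i ≥ 1` (`I` is
prime).  So `mnr F α` is zero or a form of degree `∑ f i - c`.  (1) The elements `z` of `Lam I J c m`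
satisfy `mk (mnr L.F B) z_α = mk (mnr L.F α) z_B` for all `α`: for a generator `a Δ_•(F)` both sides are
`mk` of `a` times a product of minors, and `mnr L.F B * mnr F α - mnr L.F α * mnr F B` vanishes on `zer J`
(as in `S_JMin` (1): `CN I y` has dimension `c` for `y ∈ zer J ≤ zer I`, `y ≠ 0`; for `y = 0` multiply by
the coordinates or use the second part of `S_Null` for forms; general `F i ∈ I` are not needed), so
it is in `J` (`S_Null`).  `mnr L.F B = L.dt ∉ J` (`L.dt (x) ≠ 0`).  So the projection `z ↦ z_B` is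
injective on `Lam I J c m`.  (2) Its image is `grA J (idB I J L.B) (m - c)`: `≤` clear by (0).  `≥`: a
form `G` of degree `n = m - c` in `idB` is `j + ∑ a_k mnr F_k B`; expand the `F_k` in their homogeneous
components (multilinearity of the determinant; `I` is homogeneous) and take the component of
degree `n`: `G ≡ ∑ (component of degree n - deg of a_k) mnr F_k B` modulo `J`, with forms `F_k`. -/
def S_JLam : Prop :=
  ∀ (N c : ℕ) (I J : Ideal (Sx N)), I.IsPrime → IsHom I → Smooth I c → J.IsPrime → IsHom J →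
    I ≤ J → ∀ x ∈ zer J, ∀ L : Loc I x c, ∀ m ≥ c,
    Module.finrank ℂ (Lam I J c m) = Module.finrank ℂ (grA J (idB I J L.B) (m - c))

/-- (G9) PROOF.  If `c + δ ≠ a`: `mGro` with `ι = Fin 1`, `d = fun _ => a`, `κ = c + δ`, `s = univ`
(the sum over the subsets of `s` is `H (m - (c + δ)) - H (m - a)`) gives `|H m| ≤ C (m+1)^c` for large
`m`, but `H m ≥ binom(m+c+1, c+1)` (`S_NBin` in `NBin.lean`). -/
def S_JNum : Prop :=
  ∀ (H : ℕ → ℤ) (c δ a : ℕ), 1 ≤ c → Gw (c - 1) (fun m => H (m - c - δ) - H (m - a)) →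
    (∀ m : ℕ, (Nat.choose (m + (c + 1)) (c + 1) : ℤ) ≤ H m) → c + δ = a

/-- (G10a) THE FITTING IDEAL.

PROOF.  `E ≤ ℂ[T]^c` contains `D ℂ[T]^c`, so it has rank `c`; Smith normal form
(`Submodule.exists_smith_normal_form_of_rank_eq`): basis `b` of `ℂ[T]^c`, `a_i`, basis `a_i b_i` of `E`.
`ℂ[T]^c / E ≅ ∏ ℂ[T]/(a_i)` has dimension `∑ deg a_i = deg ∏ a_i`.  The determinants of `c` elements of
`E` are multiples of `det(b) ∏ a_i`, and those of the `a_i b_i` generate: `(∏ a_i)` is the ideal of all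
determinants of elements of `E = span 𝒢`; by multilinearity this is the ideal of the determinants
of elements of `𝒢`. -/
def S_JFit : Prop :=
  ∀ (c : ℕ) (𝒢 : Set (Fin c → Polynomial ℂ)) (D : Polynomial ℂ), D ≠ 0 →
    (∀ e : Fin c → Polynomial ℂ, (fun b => D * e b) ∈ Submodule.span (Polynomial ℂ) 𝒢) →
    Module.Finite ℂ ((Fin c → Polynomial ℂ) ⧸ Submodule.span (Polynomial ℂ) 𝒢) ∧
    Module.finrank ℂ ((Fin c → Polynomial ℂ) ⧸ Submodule.span (Polynomial ℂ) 𝒢) =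
      Module.finrank ℂ (Polynomial ℂ ⧸
        Ideal.span {p | ∃ e : Fin c → (Fin c → Polynomial ℂ), (∀ i, e i ∈ 𝒢) ∧
          p = Matrix.det (Matrix.of e)})

/-- (G10b) REVERSAL.

PROOF.  `A.map (lin x z) = (e)`, `e ≠ 0` as `lin x z D` has the constant coefficient `D(x) ≠ 0`, so
`e(0) ≠ 0`; `k = deg e`.  `A.map (lin z x) = (w)`, `w ≠ 0`.  For a form `F ∈ A` of degree `n`:
`lin x z F = e q`, `deg q ≤ n - k` (or `q = 0`), and `lin z x F` is the reversal of degree `n` of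
`lin x z F` (`lin_hom`), so it is divisible by the reversal `e* ` of `e`, of degree exactly `k`.  `A` is
generated by forms, so `e* ∣ w`: `k ≤ deg w`. -/
def S_JRev : Prop :=
  ∀ (N : ℕ) (A : Ideal (Sx N)), IsHom A → ∀ (x z : Vx N) (D : Sx N) (g : ℕ), D ∈ A →
    D.IsHomogeneous g → eval x D ≠ 0 →
    Module.finrank ℂ (Polynomial ℂ ⧸ A.map (lin x z)) ≤ col A x z

/-- (G10c) TRANSLATION.  PROOF: `lin (z + μ x) x F = (lin z x F)(T + μ)`: the automorphism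
`T ↦ T + μ` of `ℂ[T]` (`Polynomial.algEquivAevalXAddC`) maps `A.map (lin z x)` to
`A.map (lin (z + μ x) x)`. -/
def S_JTr : Prop :=
  ∀ (N : ℕ) (A : Ideal (Sx N)) (x z : Vx N) (μ : ℂ), col A x (z + μ • x) = col A x z

/-- (G10d) SECTIONS ON A LINE.

PROOF.  `D = lin x v L.dt` has degree `L.dg` (`S_Hom`, `good`).  `φ : Lam I (lineI x v) 1 m → ℂ[T]^c`,
`z ↦ (linQ (z_(B b)))_b` is injective with image in `Vm c m ⊓ E`, `E = L.E v` (see `E/Col.lean`, `phi`,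
`hLam`, `hinj`), and `dim (Vm c m ⊓ E) = c m - dim ℂ[T]^c/E` for `m ≥ deg D` (same file, `hrk`, `hsurj`).
It remains: for large `m` every `e ∈ Vm c m ⊓ E` is in the image.  `E` is generated by finitely many
`g_k = lin x v (∂_(B ·) F_k)`, `F_k ∈ I` forms of degree `f_k` (`ℂ[T]^c` is noetherian, `I` is
homogeneous), together with those of `L.F i`; `D g_k = ∑_i s_(k i) g'_i`, `g'_i` the vector of `L.F i`
(adjugate).  `e = ∑ p_k g_k + ∑ p'_i g'_i`; divide `p_k` by `D`: we may assume `deg p_k < deg D`.  For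
`m ≥ f_k + deg D` all `p_k g_k` are in the image (`a_k` a form of degree `m - f_k` with `lin a_k = p_k`,
`S_LineI`).  The rest `e' = ∑ p'_i g'_i` has degree `< m`, `D p'_i = ∑_b e'_b adj_(b i)`,
`deg adj_(b i) ≤ dg - (f_i - 1)` (`S_Hom`), so `deg p'_i ≤ m - f_i` (`f_i ≥ 1`: forms in `I` of degree `0` are
`0`; `m ≥ f_i`), and `p'_i g'_i` is in the image. -/
def S_JSur : Prop :=
  ∀ (N c : ℕ) (I : Ideal (Sx N)), I.IsPrime → IsHom I → Smooth I c → ∀ x v : Vx N, IsLine I x v →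
    ∀ L : Loc I x c, L.good v → ∀ᶠ m : ℕ in Filter.atTop,
    Module.finrank ℂ (Lam I (lineI x v) 1 m) +
      Module.finrank ℂ ((Fin c → Polynomial ℂ) ⧸ L.E v) = c * m

/-- (G11) THE JOIN WITH `x`.

PROOF.  `J` = kernel of `S → (S/P)[T]`, `X_i ↦ mk X_i + x_i T` (a domain): prime; `F ∈ J` iff
`F(z + T x) = 0` for all `z ∈ zer P`, `T ∈ ℂ` (the coefficients of `F(X + T x)` are in `P` iff they vanish on
`zer P`: `S_Null`).  Homogeneous: the set of the `z + T x` is stable under multiplication by scalars.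
`J ≤ P` (`T = 0`); `I ≤ J` by hypothesis.  `F ∈ J` implies `F(· + s x) ∈ J`: `Vtx`.  Coordinates
algebraically independent modulo `P` are so modulo `J ≤ P`. -/
def S_JJn : Prop :=
  ∀ (N : ℕ) (I P : Ideal (Sx N)) (x : Vx N), P.IsPrime → IsHom P →
    (∀ z ∈ zer P, ∀ s t : ℂ, s • x + t • z ∈ zer I) →
    ∃ J : Ideal (Sx N), J.IsPrime ∧ IsHom J ∧ I ≤ J ∧ J ≤ P ∧ Vtx J x ∧
      ∀ D : ℕ, DimGe P D → DimGe J D

/-- (GL2) THE LINES OF A CONE OF LINES have conormal degree `- ∑ d i`.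

PROOF.  `J` of `S_JJn`; `x ∈ zer J` (`0 ∈ zer J`), `zer P ⊆ zer J ⊆ zer I`.  `a` with `λ(x) = 1` (`x ≠ 0`).
`v ∈ zer P`; `L : Loc I x c` (`S_Loc`); replacing `v` by `v + μ x ∈ zer J` (`S_Good`; `lineI` does not change)
we may assume `L.good v`.  `A = idB I J L.B`, `A' = idF J L.F` are homogeneous (`I`, `J` homogeneous; minors
of components), `D = L.dt = mnr L.F L.B`, `g = L.dg`.  `v₀ = v - λ(v) x ∈ zer J`, `λ(v₀) = 0`, `v₀ ≠ 0`.
`S_JLin` and `S_JCst`: `col A x z = δ` for all `z ∈ zer J`, `z ≠ 0`, `λ(z) = 0`.  `S_JBig`, `S_JInj`,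
`S_JHF`: `dim (grA J A n) = dim (gr J (n - δ))` for large `n`; `S_JLam`; `NumErr` for `j = c`:
`|dim gr J (m - c - δ) - dim gr J (m - ∑ d)| = O(m^(c-1))`; `S_D1` and `S_JNum`: `c + δ = ∑ d`.
`S_JFit` for `𝒢 = {lin x v (∂_B F) : F ∈ I}` (so `span 𝒢 = L.E v`): the ideal is `A.map (lin x v)`
(`lin x v` kills `J`), so by `S_JRev` (for `x, v` and for `v, x`; `L.dt (v) ≠ 0`) and `S_JTr`
`dim ℂ[T]^c / L.E v = col A x v = col A x v₀ = δ`.  `S_JSur`. -/
def S_JL2 : Prop :=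
  ∀ (N c : ℕ) (d : Fin c → ℕ) (I : Ideal (Sx N)), I.IsPrime → IsHom I → Smooth I c → 1 ≤ c →
    (∀ J : Ideal (Sx N), J.IsPrime → IsHom J → I ≤ J → NumErr I J d c) →
    ∀ P : Ideal (Sx N), P.IsPrime → IsHom P → DimGe P (c + 2) → ∀ x : Vx N, x ≠ 0 →
    (∀ z ∈ zer P, ∀ s t : ℂ, s • x + t • z ∈ zer I) →
    ∀ v ∈ zer P, LinearIndependent ℂ ![x, v] → ∀ᶠ m : ℕ in Filter.atTop,
      Module.finrank ℂ (Lam I (lineI x v) 1 m) + ∑ i, d i = c * (m + 1)

end Pool.Agent.Lib.MP_776403_ag.SD
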