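import Pool.Agent.Lib.MP_776403_ag.SD.J.Spec
import Pool.Agent.Lib.MP_776403_ag.SD.Bas

/-!
# THEOREM SD, stage 2, (GL2), module JLam: the Hilbert function of `Λ^c N_X^*` (helper52)
-/

set_option autoImplicit false

open MvPolynomial

noncomputable section

namespace Pool.Agent.Lib.MP_776403_ag.SD

namespace JLamAux

variable {N : ℕ}

/-- the minor of forms is a form -/
theorem mnr_hom {c : ℕ} (F : Fin c → Sx N) (f : Fin c → ℕ) (hF : ∀ i, (F i).IsHomogeneous (f i))
    (α : Fin c → Fin (N + 1)) : (mnr F α).IsHomogeneous (∑ i, (f i - 1)) := by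
  unfold mnr
  rw [Matrix.det_apply]
  refine IsHomogeneous.sum _ _ _ (fun s _ => ?_)
  have h1 : (∏ i, (Matrix.of fun i k => pderiv (α k) (F i)) (s i) i).IsHomogeneous
      (∑ i, (f i - 1)) := by
    have h2 := IsHomogeneous.prod Finset.univ
      (fun i => (Matrix.of fun i k => pderiv (α k) (F i)) (s i) i) (fun i => f (s i) - 1)
      (fun i _ => (hF (s i)).pderiv)
    have h3 : ∑ i, (f (s i) - 1) = ∑ i, (f i - 1) := Equiv.sum_comp s (fun i => f i - 1)
    rwa [h3] at h2
  rcases Int.units_eq_one_or (Equiv.Perm.sign s) with hs | hs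
  · rw [hs, one_smul]
    exact h1
  · rw [hs, Units.neg_smul, one_smul]
    exact h1.neg

/-- the value of a minor -/
theorem mnr_eval {c : ℕ} (F : Fin c → Sx N) (α : Fin c → Fin (N + 1)) (y : Vx N) :
    eval y (mnr F α) = Matrix.det (Matrix.of fun i k => grad (F i) y (α k)) := by
  unfold mnr
  rw [RingHom.map_det]
  rfl

/-- the minor is zero if one of the forms has degree `0` -/
theorem mnr_zero {c : ℕ} (F : Fin c → Sx N) (i : Fin c) (hF : (F i).IsHomogeneous 0)
    (α : Fin c → Fin (N + 1)) : mnr F α = 0 := by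
  unfold mnr
  refine Matrix.det_eq_zero_of_row_eq_zero i fun k => ?_
  have h1 : F i = C (coeff 0 (F i)) := by
    rw [← totalDegree_eq_zero_iff_eq_C]
    exact Nat.le_zero.mp hF.totalDegree_le
  rw [Matrix.of_apply, h1, pderiv_C]

/-- products of minors at a point of `X` -/
theorem mnr_mul {c : ℕ} {I : Ideal (Sx N)} {y : Vx N} (hfin : Module.finrank ℂ (CN I y) = c)
    (hmem : ∀ F ∈ I, grad F y ∈ CN I y) (F F' : Fin c → Sx N) (hF : ∀ i, F i ∈ I)
    (hF' : ∀ i, F' i ∈ I) (α β : Fin c → Fin (N + 1)) :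
    eval y (mnr F α) * eval y (mnr F' β) = eval y (mnr F β) * eval y (mnr F' α) := by
  have b : Module.Basis (Fin c) ℂ (CN I y) := Module.finBasisOfFinrankEq ℂ (CN I y) hfin
  have key : ∀ (G : Fin c → Sx N) (hG : ∀ i, G i ∈ I) (γ : Fin c → Fin (N + 1)),
      eval y (mnr G γ) =
        Matrix.det (Matrix.of fun i k => b.repr ⟨grad (G i) y, hmem _ (hG i)⟩ k) *
        Matrix.det (Matrix.of fun k l => (b k : Vx N) (γ l)) := by
    intro G hG γ
    rw [mnr_eval, ← Matrix.det_mul]
    congr 1
    ext i l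
    rw [Matrix.of_apply, Matrix.mul_apply]
    have h1 := b.sum_repr ⟨grad (G i) y, hmem _ (hG i)⟩
    have h2 := congrArg (fun z : CN I y => (z : Vx N) (γ l)) h1
    simp only [Submodule.coe_sum, Submodule.coe_smul, Finset.sum_apply, Pi.smul_apply,
      smul_eq_mul] at h2
    simp only [Matrix.of_apply]
    exact h2.symm
  rw [key F hF α, key F hF β, key F' hF' α, key F' hF' β]
  ring

/-- the multilinear map `F ↦ mnr F α` -/
def mnrM (c : ℕ) (α : Fin c → Fin (N + 1)) : MultilinearMap ℂ (fun _ : Fin c => Sx N) (Sx N) :=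
  ((Matrix.detRowAlternating (n := Fin c) (R := Sx N)).toMultilinearMap.restrictScalars
    ℂ).compLinearMap (fun _ => LinearMap.pi fun k => (pderiv (α k)).toLinearMap)

theorem mnrM_apply (c : ℕ) (α : Fin c → Fin (N + 1)) (F : Fin c → Sx N) :
    mnrM c α F = mnr F α := rfl

/-- the forms `a * mnr F α` with forms `a`, `F i ∈ I` -/
def TT (I : Ideal (Sx N)) (c : ℕ) (α : Fin c → Fin (N + 1)) : Submodule ℂ (Sx N) :=
  Submodule.span ℂ {G | ∃ (a : Sx N) (e : ℕ) (F : Fin c → Sx N) (f : Fin c → ℕ),
    a.IsHomogeneous e ∧ (∀ i, F i ∈ I ∧ (F i).IsHomogeneous (f i)) ∧ G = a * mnr F α}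

theorem mem_TT {I : Ideal (Sx N)} (hI : IsHom I) {c : ℕ} (α : Fin c → Fin (N + 1)) (a : Sx N)
    (F : Fin c → Sx N) (hF : ∀ i, F i ∈ I) : a * mnr F α ∈ TT I c α := by
  have h1 : mnr F α = ∑ r ∈ Fintype.piFinset (fun i => Finset.range ((F i).totalDegree + 1)),
      mnr (fun i => homogeneousComponent (r i) (F i)) α := by
    have h2 := (mnrM c α).map_sum_finset (fun i j => homogeneousComponent j (F i))
      (fun i => Finset.range ((F i).totalDegree + 1))
    simp only [sum_homogeneousComponent, mnrM_apply] at h2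
    exact h2
  have h3 : a * mnr F α = ∑ e ∈ Finset.range (a.totalDegree + 1),
      ∑ r ∈ Fintype.piFinset (fun i => Finset.range ((F i).totalDegree + 1)),
      homogeneousComponent e a * mnr (fun i => homogeneousComponent (r i) (F i)) α := by
    rw [← Finset.sum_mul_sum, sum_homogeneousComponent, ← h1]
  rw [h3]
  refine Submodule.sum_mem _ fun e _ => Submodule.sum_mem _ fun r _ => ?_
  exact Submodule.subset_span ⟨homogeneousComponent e a, e,
    fun i => homogeneousComponent (r i) (F i), r, homogeneousComponent_isHomogeneous _ _,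
    fun i => ⟨hI _ (hF i) _, homogeneousComponent_isHomogeneous _ _⟩, rfl⟩

theorem span_le_TT {I : Ideal (Sx N)} (hI : IsHom I) {c : ℕ} (α : Fin c → Fin (N + 1)) (G : Sx N)
    (hG : G ∈ Ideal.span {G | ∃ F : Fin c → Sx N, (∀ i, F i ∈ I) ∧ G = mnr F α}) :
    G ∈ TT I c α := by
  have h1 : ∀ a : Sx N, a * G ∈ TT I c α := by
    refine Submodule.span_induction (p := fun G _ => ∀ a : Sx N, a * G ∈ TT I c α) ?_ ?_ ?_ ?_ hG
    · rintro G ⟨F, hF, rfl⟩ a
      exact mem_TT hI α a F hF
    · intro a
      rw [mul_zero]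
      exact Submodule.zero_mem _
    · intro G G' _ _ h h' a
      rw [mul_add]
      exact Submodule.add_mem _ (h a) (h' a)
    · intro r G _ h a
      rw [smul_eq_mul, ← mul_assoc]
      exact h _
  have h2 := h1 1
  rwa [one_mul] at h2

end JLamAux

open JLamAux in
theorem jLam : S_Null → S_CN → S_JLam := by
  intro hNull hCN N c I J hI hIh hS hJ hJh hIJ x hx L m hm
  -- the minor `L.dt`
  have hdt : mnr L.F L.B ∉ J := by
    intro h
    exact L.detx (hx _ h)
  -- the relations
  have hrel : ∀ (F : Fin c → Sx N) (f : Fin c → ℕ), (∀ i, F i ∈ I ∧ (F i).IsHomogeneous (f i)) →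
      ∀ α : Fin c → Fin (N + 1),
      mnr L.F L.B * mnr F α - mnr L.F α * mnr F L.B ∈ J := by
    intro F f hF α
    refine (hNull N J hJ hJh).2 ⟨x, hx, L.nex⟩ _ (∑ i, (L.f i - 1) + ∑ i, (f i - 1)) ?_ ?_
    · exact ((mnr_hom _ _ L.homF _).mul (mnr_hom _ _ (fun i => (hF i).2) _)).sub
        ((mnr_hom _ _ L.homF _).mul (mnr_hom _ _ (fun i => (hF i).2) _))
    · intro z hz hz0
      have hzI : z ∈ zer I := fun G hG => hz G (hIJ hG)
      obtain ⟨h1, h2, -⟩ := hCN N c I hS z hzI hz0
      rw [map_sub, map_mul, map_mul, sub_eq_zero]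
      exact mnr_mul h1 h2 L.F F L.memF (fun i => (hF i).1) L.B α
  have hrel2 : ∀ z ∈ Lam I J c m, ∀ α, Ideal.Quotient.mk J (mnr L.F L.B) * z α =
      Ideal.Quotient.mk J (mnr L.F α) * z L.B := by
    intro z hz
    refine Submodule.span_induction (p := fun z _ => ∀ α, Ideal.Quotient.mk J (mnr L.F L.B) * z α =
      Ideal.Quotient.mk J (mnr L.F α) * z L.B) ?_ ?_ ?_ ?_ hz
    · rintro z ⟨a, e, F, f, ha, hF, hef, rfl⟩ α
      have h1 := Ideal.mul_mem_left J a (hrel F f hF α)
      have h2 := Ideal.Quotient.eq_zero_iff_mem.2 h1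
      have h3 : Ideal.Quotient.mk J (mnr L.F L.B) * Ideal.Quotient.mk J (a * mnr F α) -
          Ideal.Quotient.mk J (mnr L.F α) * Ideal.Quotient.mk J (a * mnr F L.B) = 0 := by
        rw [← map_mul, ← map_mul, ← map_sub, ← h2]
        congr 1
        ring
      exact sub_eq_zero.1 h3
    · intro α
      simp
    · intro z z' _ _ h h' α
      rw [Pi.add_apply, Pi.add_apply, mul_add, mul_add, h, h']
    · intro r z _ h α
      rw [Pi.smul_apply, Pi.smul_apply, mul_smul_comm, mul_smul_comm, h]
  -- the projection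
  let π : ((Fin c → Fin (N + 1)) → Sx N ⧸ J) →ₗ[ℂ] Sx N ⧸ J := LinearMap.proj L.B
  have hdom : IsDomain (Sx N ⧸ J) := Ideal.Quotient.isDomain J
  have hinj : Function.Injective (π.domRestrict (Lam I J c m)) := by
    rw [← LinearMap.ker_eq_bot, LinearMap.ker_eq_bot']
    rintro ⟨z, hz⟩ h0
    have h1 : z L.B = 0 := h0
    refine Subtype.ext (funext fun α => ?_)
    have h2 := hrel2 z hz α
    rw [h1, mul_zero] at h2
    rcases mul_eq_zero.1 h2 with h3 | h3
    · exact absurd (Ideal.Quotient.eq_zero_iff_mem.1 h3) hdt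
    · exact h3
  -- the generators
  have hgen : ∀ (a : Sx N) (e : ℕ) (F : Fin c → Sx N) (f : Fin c → ℕ), a.IsHomogeneous e →
      (∀ i, F i ∈ I ∧ (F i).IsHomogeneous (f i)) → e + ∑ i, (f i - 1) = m - c →
      Ideal.Quotient.mk J (a * mnr F L.B) ∈ (Lam I J c m).map π := by
    intro a e F f ha hF hef
    by_cases h0 : ∃ i, f i = 0
    · obtain ⟨i, hi⟩ := h0
      have h1 := (hF i).2
      rw [hi] at h1
      rw [mnr_zero F i h1, mul_zero, map_zero]
      exact Submodule.zero_mem _
    · have h1 : ∀ i, f i - 1 + 1 = f i := fun i => by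
        have : f i ≠ 0 := fun h => h0 ⟨i, h⟩
        omega
      have h2 : ∑ i, (f i - 1) + c = ∑ i, f i := by
        have h3 : ∑ i : Fin c, (f i - 1 + 1) = ∑ i, f i := Finset.sum_congr rfl fun i _ => h1 i
        rw [Finset.sum_add_distrib, Finset.sum_const, Finset.card_univ, Fintype.card_fin,
          smul_eq_mul, mul_one] at h3
        exact h3
      refine ⟨fun α => Ideal.Quotient.mk J (a * mnr F α), ?_, rfl⟩
      exact Submodule.subset_span ⟨a, e, F, f, ha, hF, by omega, rfl⟩
  have hmap : (Lam I J c m).map π = grA J (idB I J L.B) (m - c) := by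
    refine le_antisymm ?_ ?_
    · rw [Submodule.map_le_iff_le_comap]
      refine Submodule.span_le.2 ?_
      rintro z ⟨a, e, F, f, ha, hF, hef, rfl⟩
      change Ideal.Quotient.mk J (a * mnr F L.B) ∈ grA J (idB I J L.B) (m - c)
      by_cases h0 : ∃ i, f i = 0
      · obtain ⟨i, hi⟩ := h0
        have h1 := (hF i).2
        rw [hi] at h1
        rw [mnr_zero F i h1, mul_zero, map_zero]
        exact Submodule.zero_mem _
      · have h1 : ∀ i, f i - 1 + 1 = f i := fun i => by
          have : f i ≠ 0 := fun h => h0 ⟨i, h⟩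
          omega
        have h2 : ∑ i, (f i - 1) + c = ∑ i, f i := by
          have h3 : ∑ i : Fin c, (f i - 1 + 1) = ∑ i, f i := Finset.sum_congr rfl fun i _ => h1 i
          rw [Finset.sum_add_distrib, Finset.sum_const, Finset.card_univ, Fintype.card_fin,
            smul_eq_mul, mul_one] at h3
          exact h3
        refine ⟨a * mnr F L.B, ⟨?_, ?_⟩, rfl⟩
        · have h3 := ha.mul (mnr_hom F f (fun i => (hF i).2) L.B)
          have h4 : e + ∑ i, (f i - 1) = m - c := by omega
          rw [h4] at h3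
          exact h3
        · refine Ideal.mul_mem_left _ _ ?_
          exact Ideal.mem_sup_right (Ideal.subset_span ⟨F, fun i => (hF i).1, rfl⟩)
    · rintro _ ⟨G, ⟨hGh, hGi⟩, rfl⟩
      change Ideal.Quotient.mk J G ∈ (Lam I J c m).map π
      have hGh' : G.IsHomogeneous (m - c) := hGh
      have hGi' : G ∈ idB I J L.B := hGi
      obtain ⟨j, hj, t, ht, hjt⟩ := Submodule.mem_sup.1 hGi'
      have hc : homogeneousComponent (m - c) G = G := by
        rw [homogeneousComponent_of_mem hGh, if_pos rfl]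
      have h5 : Ideal.Quotient.mk J G = Ideal.Quotient.mk J (homogeneousComponent (m - c) t) := by
        rw [← hc, ← hjt, map_add, map_add, Ideal.Quotient.eq_zero_iff_mem.2 (hJh j hj (m - c)),
          zero_add]
      rw [h5]
      have h6 := span_le_TT hIh L.B t ht
      refine Submodule.span_induction (p := fun t _ =>
        Ideal.Quotient.mk J (homogeneousComponent (m - c) t) ∈ (Lam I J c m).map π) ?_ ?_ ?_ ?_ h6
      · rintro t ⟨a, e, F, f, ha, hF, rfl⟩
        have h7 := ha.mul (mnr_hom F f (fun i => (hF i).2) L.B)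
        rw [homogeneousComponent_of_mem h7]
        split_ifs with h8
        · exact hgen a e F f ha hF h8.symm
        · rw [map_zero]
          exact Submodule.zero_mem _
      · rw [map_zero, map_zero]
        exact Submodule.zero_mem _
      · intro s s' _ _ h h'
        rw [map_add, map_add]
        exact Submodule.add_mem _ h h'
      · intro r s _ h
        rw [map_smul]
        have h9 : Ideal.Quotient.mk J (r • homogeneousComponent (m - c) s) =
            r • Ideal.Quotient.mk J (homogeneousComponent (m - c) s) := rfl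
        rw [h9]
        exact Submodule.smul_mem _ r h
  rw [← hmap, ← LinearMap.finrank_range_of_inj hinj, LinearMap.range_domRestrict]

end Pool.Agent.Lib.MP_776403_ag.SD
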